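import Pool.Agent.Run7.h608.AMODef

/-!
The almost Mathieu operator is symmetric; real spectral values are not bounded below.
-/

set_option autoImplicit false

namespace Run7.h608

open Finset

theorem inner_shiftL (k : ℤ) (ψ φ : L2Z) :
    inner ℂ (shiftL k ψ) φ = inner ℂ ψ (shiftL (-k) φ) := by
  rw [lp.inner_eq_tsum, lp.inner_eq_tsum]
  rw [← (Equiv.addRight (k : ℤ)).tsum_eq
    (fun n : ℤ => inner ℂ ((ψ : ℤ → ℂ) n) ((shiftL (-k) φ : ℤ → ℂ) n))]
  apply tsum_congr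
  intro n
  simp only [Equiv.coe_addRight, shiftL_apply, add_neg_cancel_right]

theorem inner_mulL (v : ℤ → ℝ) (C : ℝ) (hv : ∀ n, |v n| ≤ C) (ψ φ : L2Z) :
    inner ℂ (mulL v C hv ψ) φ = inner ℂ ψ (mulL v C hv φ) := by
  rw [lp.inner_eq_tsum, lp.inner_eq_tsum]
  apply tsum_congr
  intro n
  rw [mulL_apply, mulL_apply]
  simp only [RCLike.inner_apply, map_mul, Complex.conj_ofReal]
  ring

theorem inner_amo (lam α θ : ℝ) (ψ φ : L2Z) :
    inner ℂ (amo lam α θ ψ) φ = inner ℂ ψ (amo lam α θ φ) := by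
  unfold amo
  simp only [ContinuousLinearMap.add_apply, inner_add_left, inner_add_right, inner_shiftL,
    inner_mulL, neg_neg]
  ring

theorem not_bdd_below (A : L2Z →L[ℂ] L2Z) (hA : ∀ ψ φ, inner ℂ (A ψ) φ = inner ℂ ψ (A φ)) (E : ℝ)
    (hE : (E : ℂ) ∈ spectrum ℂ A) (c : ℝ) (hc : 0 < c) :
    ∃ ψ : L2Z, ‖A ψ - (E : ℂ) • ψ‖ < c * ‖ψ‖ := by
  by_contra hcon
  push Not at hcon
  rw [spectrum.mem_iff] at hE
  apply hE
  set T : L2Z →L[ℂ] L2Z := algebraMap ℂ (L2Z →L[ℂ] L2Z) (E : ℂ) - A with hT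
  have hTapp : ∀ ψ, T ψ = (E : ℂ) • ψ - A ψ := by
    intro ψ
    rw [hT, ContinuousLinearMap.sub_apply, Algebra.algebraMap_eq_smul_one]
    rfl
  have hTn : ∀ ψ, c * ‖ψ‖ ≤ ‖T ψ‖ := by
    intro ψ
    rw [hTapp, norm_sub_rev]
    exact hcon ψ
  have hTs : ∀ ψ φ, inner ℂ (T ψ) φ = inner ℂ ψ (T φ) := by
    intro ψ φ
    rw [hTapp, hTapp, inner_sub_left, inner_sub_right, hA, inner_smul_left, inner_smul_right,
      Complex.conj_ofReal]
  rw [ContinuousLinearMap.isUnit_iff_bijective,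
    ContinuousLinearMap.bijective_iff_dense_range_and_antilipschitz]
  refine ⟨?_, ⟨⟨c⁻¹, by positivity⟩, ?_⟩⟩
  · rw [Submodule.topologicalClosure_eq_top_iff, Submodule.eq_bot_iff]
    intro x hx
    rw [Submodule.mem_orthogonal] at hx
    have h1 : T x = 0 := by
      rw [← inner_self_eq_zero (𝕜 := ℂ)]
      have h2 := hx (T (T x)) ⟨T x, rfl⟩
      rw [hTs] at h2
      exact h2
    have h3 := hTn x
    rw [h1, norm_zero] at h3
    have h4 : ‖x‖ ≤ 0 := by
      by_contra h; push Not at h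
      have := mul_pos hc h
      linarith
    exact norm_le_zero_iff.mp h4
  · apply ContinuousLinearMap.antilipschitz_of_bound
    intro x
    have h3 := hTn x
    show ‖x‖ ≤ c⁻¹ * ‖T x‖
    rw [inv_mul_eq_div, le_div_iff₀ hc]
    linarith

end Run7.h608
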