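import Pool.Agent.Run7.h608.AMO

set_option autoImplicit false

namespace Run7.h608

open Finset

theorem norm_sq_fin (x : L2Z) (s : Finset ℤ) (h : ∀ n, n ∉ s → (x : ℤ → ℂ) n = 0) :
    ‖x‖ ^ 2 = ∑ n ∈ s, ‖(x : ℤ → ℂ) n‖ ^ 2 := by
  have h1 := lp.norm_rpow_eq_tsum (p := 2) (by norm_num) x
  have h2 : (2 : ENNReal).toReal = (2 : ℕ) := by norm_num
  rw [h2] at h1
  simp only [Real.rpow_natCast] at h1
  rw [h1]
  apply tsum_eq_sum
  intro n hn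
  rw [h n hn]; simp

theorem spec_appEig (α θ E : ℝ) (h : (E : ℂ) ∈ spectrum ℂ (amo 1 α θ)) (ε : ℝ) (hε : 0 < ε) :
    ∃ (M : ℕ) (ψ : ℤ → ℂ), (∀ n : ℤ, (M : ℤ) < |n| → ψ n = 0) ∧ (∃ n, ψ n ≠ 0) ∧
    ∑ n ∈ Icc (-(M : ℤ) - 1) ((M : ℤ) + 1),
      ‖ψ (n + 1) + ψ (n - 1) + ((2 * Real.cos (2 * Real.pi * (n * α + θ)) - E : ℝ) : ℂ) * ψ n‖ ^ 2
      < ε ^ 2 * ∑ n ∈ Icc (-(M : ℤ)) (M : ℤ), ‖ψ n‖ ^ 2 := by
  obtain ⟨φ, hφ⟩ := not_bdd_below (amo 1 α θ) (inner_amo 1 α θ) E h ε hε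
  have hs := lp.hasSum_single (E := fun _ : ℤ => ℂ) (p := 2) (by norm_num) φ
  have hI : Filter.Tendsto (fun M : ℕ => Icc (-(M : ℤ)) (M : ℤ)) Filter.atTop Filter.atTop := by
    apply Filter.tendsto_atTop_finset_of_monotone
    · intro a b hab
      apply Icc_subset_Icc
      · simpa using hab
      · simpa using hab
    · intro x
      refine ⟨x.natAbs, ?_⟩
      rw [mem_Icc]
      constructor <;> omega
  have ht : Filter.Tendsto (fun M : ℕ => ∑ i ∈ Icc (-(M : ℤ)) (M : ℤ),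
      lp.single (E := fun _ : ℤ => ℂ) 2 i ((φ : ℤ → ℂ) i)) Filter.atTop (nhds φ) := hs.comp hI
  have hcont : Continuous (fun x : L2Z => ‖amo 1 α θ x - (E : ℂ) • x‖ - ε * ‖x‖) := by
    fun_prop
  have ht2 := (hcont.tendsto φ).comp ht
  have hneg : ‖amo 1 α θ φ - (E : ℂ) • φ‖ - ε * ‖φ‖ < 0 := by linarith
  obtain ⟨M, hM⟩ := (ht2.eventually (gt_mem_nhds hneg)).exists
  simp only [Function.comp_apply] at hM
  set x : L2Z := ∑ i ∈ Icc (-(M : ℤ)) (M : ℤ),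
      lp.single (E := fun _ : ℤ => ℂ) 2 i ((φ : ℤ → ℂ) i) with hx
  have hx0 : ∀ n : ℤ, n ∉ Icc (-(M : ℤ)) (M : ℤ) → (x : ℤ → ℂ) n = 0 := by
    intro n hn
    rw [hx, lp.coeFn_sum, Finset.sum_apply]
    apply sum_eq_zero
    intro i hi
    rw [lp.single_apply_ne]
    intro hni
    exact hn (hni ▸ hi)
  have hzero : ∀ n : ℤ, (M : ℤ) < |n| → (x : ℤ → ℂ) n = 0 := by
    intro n hn
    apply hx0
    rw [mem_Icc]
    intro h'
    have : |n| ≤ M := abs_le.mpr h'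
    omega
  have hxpos : 0 < ‖x‖ := by
    by_contra hcon
    push Not at hcon
    have h1 : 0 ≤ ‖amo 1 α θ x - (E : ℂ) • x‖ := norm_nonneg _
    have h2 : ε * ‖x‖ ≤ 0 := mul_nonpos_of_nonneg_of_nonpos hε.le hcon
    linarith
  have hn1 := norm_sq_fin x (Icc (-(M : ℤ)) (M : ℤ)) hx0
  set w : L2Z := amo 1 α θ x - (E : ℂ) • x with hw
  have hwn : ∀ n : ℤ, (w : ℤ → ℂ) n = (x : ℤ → ℂ) (n + 1) + (x : ℤ → ℂ) (n - 1)
      + ((2 * Real.cos (2 * Real.pi * (n * α + θ)) - E : ℝ) : ℂ) * (x : ℤ → ℂ) n := by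
    intro n
    have e1 : (w : ℤ → ℂ) n = (amo 1 α θ x : ℤ → ℂ) n - (E : ℂ) * (x : ℤ → ℂ) n := rfl
    rw [e1, amo_apply]
    have e2 : θ + n * α = n * α + θ := by ring
    rw [e2]
    push_cast; ring
  have hw0 : ∀ n : ℤ, n ∉ Icc (-(M : ℤ) - 1) ((M : ℤ) + 1) → (w : ℤ → ℂ) n = 0 := by
    intro n hn
    rw [hwn, hx0 (n + 1), hx0 (n - 1), hx0 n]
    · ring
    · rw [mem_Icc] at hn ⊢; omega
    · rw [mem_Icc] at hn ⊢; omega
    · rw [mem_Icc] at hn ⊢; omega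
  have hn2 := norm_sq_fin w (Icc (-(M : ℤ) - 1) ((M : ℤ) + 1)) hw0
  refine ⟨M, (x : ℤ → ℂ), hzero, ?_, ?_⟩
  · by_contra hcon
    push Not at hcon
    have : x = 0 := by
      apply lp.ext; funext n; rw [hcon n]; rfl
    rw [this, norm_zero] at hxpos
    exact lt_irrefl _ hxpos
  · rw [← hn1]
    have e1 : ∑ n ∈ Icc (-(M : ℤ) - 1) ((M : ℤ) + 1),
      ‖(x : ℤ → ℂ) (n + 1) + (x : ℤ → ℂ) (n - 1)
        + ((2 * Real.cos (2 * Real.pi * (n * α + θ)) - E : ℝ) : ℂ) * (x : ℤ → ℂ) n‖ ^ 2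
        = ‖w‖ ^ 2 := by
      rw [hn2]
      apply sum_congr rfl; intro n _; rw [hwn n]
    rw [e1, ← mul_pow]
    apply pow_lt_pow_left₀ _ (norm_nonneg _) (by norm_num)
    linarith

/-- real spectral values are at most `4` in absolute value -/
theorem spec_le (α θ E : ℝ) (h : (E : ℂ) ∈ spectrum ℂ (amo 1 α θ)) : |E| ≤ 4 := by
  have h0 := spectrum.norm_le_norm_mul_of_mem h
  rw [Complex.norm_real, Real.norm_eq_abs] at h0
  have hid : ‖(1 : L2Z →L[ℂ] L2Z)‖ ≤ 1 := ContinuousLinearMap.norm_id_le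
  have h1 : |E| ≤ ‖amo 1 α θ‖ := by
    refine h0.trans ?_
    calc ‖amo 1 α θ‖ * ‖(1 : L2Z →L[ℂ] L2Z)‖ ≤ ‖amo 1 α θ‖ * 1 := by gcongr
      _ = _ := mul_one _
  refine h1.trans ?_
  unfold amo
  have hsh : ∀ k, ‖shiftL k‖ ≤ 1 := fun k => by
    unfold shiftL; exact LinearMap.mkContinuous_norm_le _ zero_le_one _
  have hmul : ‖mulL (fun n : ℤ => 2 * 1 * Real.cos (2 * Real.pi * (θ + n * α))) (2 * |(1 : ℝ)|)
        (pot_abs_le 1 α θ)‖ ≤ 2 := by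
    unfold mulL
    refine (LinearMap.mkContinuous_norm_le _ (by positivity) _).trans ?_
    norm_num
  calc _ ≤ ‖shiftL (-1) + shiftL 1‖ + ‖mulL (fun n : ℤ => 2 * 1 * Real.cos (2 * Real.pi * (θ + n * α)))
        (2 * |(1 : ℝ)|) (pot_abs_le 1 α θ)‖ := norm_add_le _ _
    _ ≤ (‖shiftL (-1)‖ + ‖shiftL 1‖) + 2 := by
        gcongr
        exact norm_add_le _ _
    _ ≤ (1 + 1) + 2 := by gcongr <;> exact hsh _
    _ = 4 := by norm_num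

end Run7.h608
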