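import Mathlib

/-!
The almost Mathieu operator as a bounded operator on `ℓ²(ℤ)` (definitions).
-/

set_option autoImplicit false

namespace Run7.h608

open Finset

/-- `ℓ²(ℤ)` -/
abbrev L2Z : Type := lp (fun _ : ℤ => ℂ) 2

theorem memlp_shift (k : ℤ) (ψ : L2Z) : Memℓp (fun n : ℤ => (ψ : ℤ → ℂ) (n + k)) 2 := by
  have h := (lp.memℓp ψ).summable (by norm_num)
  apply memℓp_gen
  exact ((Equiv.addRight k).summable_iff (f := fun n : ℤ => ‖(ψ : ℤ → ℂ) n‖ ^ (2 : ENNReal).toReal)).mpr h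

/-- the shift `(shiftL k ψ)(n) = ψ(n + k)` on `ℓ²(ℤ)` -/
noncomputable def shiftL (k : ℤ) : L2Z →L[ℂ] L2Z :=
  LinearMap.mkContinuous
    { toFun := fun ψ => ⟨fun n : ℤ => (ψ : ℤ → ℂ) (n + k), memlp_shift k ψ⟩
      map_add' := fun _ _ => rfl
      map_smul' := fun _ _ => rfl } 1 (by
    intro ψ
    rw [one_mul]
    apply lp.norm_le_of_tsum_le (by norm_num) (norm_nonneg _)
    rw [lp.norm_rpow_eq_tsum (by norm_num) ψ]
    exact le_of_eq ((Equiv.addRight k).tsum_eq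
      (fun n : ℤ => ‖(ψ : ℤ → ℂ) n‖ ^ (2 : ENNReal).toReal)))

theorem shiftL_apply (k : ℤ) (ψ : L2Z) (n : ℤ) : (shiftL k ψ : ℤ → ℂ) n = (ψ : ℤ → ℂ) (n + k) := rfl

theorem memlp_mul (v : ℤ → ℝ) (C : ℝ) (hv : ∀ n, |v n| ≤ C) (ψ : L2Z) :
    Memℓp (fun n : ℤ => (v n : ℂ) * (ψ : ℤ → ℂ) n) 2 := by
  have h : Memℓp (fun n : ℤ => C * ‖(ψ : ℤ → ℂ) n‖) 2 := ((lp.memℓp ψ).norm).const_mul C
  apply h.mono
  intro n
  rw [norm_mul, Complex.norm_real, Real.norm_eq_abs]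
  gcongr
  exact hv n

/-- multiplication by the bounded real potential `v` on `ℓ²(ℤ)` -/
noncomputable def mulL (v : ℤ → ℝ) (C : ℝ) (hv : ∀ n, |v n| ≤ C) : L2Z →L[ℂ] L2Z :=
  LinearMap.mkContinuous
    { toFun := fun ψ => ⟨fun n : ℤ => (v n : ℂ) * (ψ : ℤ → ℂ) n, memlp_mul v C hv ψ⟩
      map_add' := by
        intro ψ φ
        apply lp.ext
        funext n
        exact mul_add _ _ _
      map_smul' := by
        intro c ψ
        apply lp.ext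
        funext n
        exact mul_left_comm _ _ _ } C (by
    intro ψ
    have hC : 0 ≤ C := (abs_nonneg _).trans (hv 0)
    have h1 : ‖(⟨fun n : ℤ => (v n : ℂ) * (ψ : ℤ → ℂ) n, memlp_mul v C hv ψ⟩ : L2Z)‖
        ≤ ‖(C : ℂ) • ψ‖ := by
      apply lp.norm_mono (by norm_num)
      intro n
      have e : ((((C : ℂ) • ψ : L2Z)) : ℤ → ℂ) n = (C : ℂ) * (ψ : ℤ → ℂ) n := rfl
      rw [e, norm_mul, norm_mul, Complex.norm_real, Complex.norm_real, Real.norm_eq_abs,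
        Real.norm_eq_abs, abs_of_nonneg hC]
      gcongr
      exact hv n
    refine h1.trans (le_of_eq ?_)
    rw [norm_smul, Complex.norm_real, Real.norm_eq_abs, abs_of_nonneg hC])

theorem mulL_apply (v : ℤ → ℝ) (C : ℝ) (hv : ∀ n, |v n| ≤ C) (ψ : L2Z) (n : ℤ) :
    (mulL v C hv ψ : ℤ → ℂ) n = (v n : ℂ) * (ψ : ℤ → ℂ) n := rfl

theorem pot_abs_le (lam α θ : ℝ) (n : ℤ) :
    |2 * lam * Real.cos (2 * Real.pi * (θ + n * α))| ≤ 2 * |lam| := by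
  rw [abs_mul, abs_mul, abs_two]
  calc 2 * |lam| * |Real.cos (2 * Real.pi * (θ + n * α))| ≤ 2 * |lam| * 1 := by
        gcongr; exact Real.abs_cos_le_one _
    _ = _ := by ring

/-- the almost Mathieu operator `H_{λ,α,θ}` on `ℓ²(ℤ)` -/
noncomputable def amo (lam α θ : ℝ) : L2Z →L[ℂ] L2Z :=
  shiftL (-1) + shiftL 1
    + mulL (fun n : ℤ => 2 * lam * Real.cos (2 * Real.pi * (θ + n * α))) (2 * |lam|)
        (pot_abs_le lam α θ)

theorem amo_apply (lam α θ : ℝ) (ψ : L2Z) (n : ℤ) :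
    (amo lam α θ ψ : ℤ → ℂ) n = (ψ : ℤ → ℂ) (n - 1) + (ψ : ℤ → ℂ) (n + 1)
      + ((2 * lam * Real.cos (2 * Real.pi * (θ + n * α)) : ℝ) : ℂ) * (ψ : ℤ → ℂ) n := by
  unfold amo
  simp only [ContinuousLinearMap.add_apply, lp.coeFn_add, Pi.add_apply, shiftL_apply, mulL_apply]
  rfl

end Run7.h608
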