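import Pool.Agent.Run7.h608.Basic

set_option autoImplicit false

namespace Run7.h608.Iface

open Finset Run7.h608

/-- approximate eigenvectors with finite support, phase `θ` -/
def AppEig (α θ E : ℝ) : Prop :=
  ∀ ε : ℝ, 0 < ε → ∃ (M : ℕ) (ψ : ℤ → ℂ), (∀ n : ℤ, (M : ℤ) < |n| → ψ n = 0) ∧ (∃ n, ψ n ≠ 0) ∧
    ∑ n ∈ Icc (-(M : ℤ) - 1) ((M : ℤ) + 1),
      ‖ψ (n + 1) + ψ (n - 1) + ((2 * Real.cos (2 * Real.pi * (n * α + θ)) - E : ℝ) : ℂ) * ψ n‖ ^ 2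
      < ε ^ 2 * ∑ n ∈ Icc (-(M : ℤ)) (M : ℤ), ‖ψ n‖ ^ 2

end Run7.h608.Iface
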