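import Pool.Agent.Run7.h608.Defs

set_option autoImplicit false

namespace Run7.h608

open Finset

theorem ee_add (x y : ℝ) : ee (x + y) = ee x * ee y := by
  unfold ee; rw [← Complex.exp_add]; congr 1; push_cast; ring

theorem ee_zero : ee 0 = 1 := by simp [ee]

theorem norm_ee (x : ℝ) : ‖ee x‖ = 1 := by
  unfold ee; exact Complex.norm_exp_ofReal_mul_I _

theorem ee_int (n : ℤ) : ee n = 1 := by
  unfold ee
  rw [Complex.exp_eq_one_iff]
  exact ⟨n, by push_cast; ring⟩

theorem ee_add_int (x : ℝ) (n : ℤ) : ee (x + n) = ee x := by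
  rw [ee_add, ee_int, mul_one]

theorem ee_neg (x : ℝ) : ee (-x) = (ee x)⁻¹ := by
  have h : ee (-x) * ee x = 1 := by rw [← ee_add]; simp [ee_zero]
  have hx : ee x ≠ 0 := by
    intro h0; rw [h0, mul_zero] at h; exact zero_ne_one h
  field_simp
  exact h

theorem ee_eq (x : ℝ) : ee x = Real.cos (2 * Real.pi * x) + Real.sin (2 * Real.pi * x) * Complex.I := by
  unfold ee
  rw [Complex.exp_mul_I]
  push_cast
  rfl

theorem ee_add_ee_neg (x : ℝ) : ee x + ee (-x) = ((2 * Real.cos (2 * Real.pi * x) : ℝ) : ℂ) := by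
  rw [ee_eq, ee_eq]
  have h1 : (2 * Real.pi * -x) = -(2 * Real.pi * x) := by ring
  rw [h1, Real.cos_neg, Real.sin_neg]
  push_cast
  ring

theorem pot_eq (β : ℝ) (m : ℤ) : (pot β m : ℂ) = ee (m * β) + ee (-(m * β)) := by
  rw [ee_add_ee_neg]; rfl

theorem sn_neg (β x : ℝ) : sn β (-x) = - sn β x := by
  unfold sn; rw [mul_neg, Real.sin_neg]

theorem sn_zero (β : ℝ) : sn β 0 = 0 := by simp [sn]

theorem bb_zero (β : ℝ) (n : ℕ) : bb β n 0 = 1 := by simp [bb]

theorem bb_succ (β : ℝ) (n k : ℕ) :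
    bb β n (k + 1) = bb β n k * (sn β ((n : ℝ) - k) / sn β ((k : ℝ) + 1)) := by
  unfold bb; rw [prod_range_succ]

theorem bb_R1 (β : ℝ) (n k : ℕ) :
    sn β ((n : ℝ) + 1 - k) * bb β (n + 1) k = sn β ((n : ℝ) + 1) * bb β n k := by
  induction k with
  | zero => simp [bb_zero]
  | succ k ih =>
    rw [bb_succ, bb_succ]
    have e1 : ((n : ℝ) + 1 - ((k + 1 : ℕ) : ℝ)) = (n : ℝ) - k := by push_cast; ring
    have e2 : (((n + 1 : ℕ) : ℝ) - k) = (n : ℝ) + 1 - k := by push_cast; ring
    rw [e1, e2]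
    calc sn β (↑n - ↑k) * (bb β (n + 1) k * (sn β (↑n + 1 - ↑k) / sn β (↑k + 1)))
        = (sn β (↑n + 1 - ↑k) * bb β (n + 1) k) * (sn β (↑n - ↑k) / sn β (↑k + 1)) := by ring
      _ = _ := by rw [ih]; ring

theorem bb_R2 (β : ℝ) (n k : ℕ) (hk : sn β ((k : ℝ) + 1) ≠ 0) :
    sn β ((k : ℝ) + 1) * bb β (n + 1) (k + 1) = sn β ((n : ℝ) + 1) * bb β n k := by
  rw [bb_succ]
  have e2 : (((n + 1 : ℕ) : ℝ) - k) = (n : ℝ) + 1 - k := by push_cast; ring
  rw [e2, ← bb_R1]
  field_simp

theorem bb_gt (β : ℝ) (n k : ℕ) (h : n < k) : bb β n k = 0 := by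
  unfold bb
  apply prod_eq_zero (mem_range.mpr h)
  simp [sn_zero]

/-- shifted `q`-binomial: `bm n k = bb n (k-1)`, zero for `k = 0` -/
noncomputable def bm (β : ℝ) (n k : ℕ) : ℝ := if k = 0 then 0 else bb β n (k - 1)

theorem bm_zero (β : ℝ) (n : ℕ) : bm β n 0 = 0 := by simp [bm]
theorem bm_succ (β : ℝ) (n k : ℕ) : bm β n (k + 1) = bb β n k := by simp [bm]

theorem bm_R (β : ℝ) (n k : ℕ) (hk : k ≠ 0 → sn β k ≠ 0) :
    sn β ((n : ℝ) + 1) * bm β n k = sn β k * bb β (n + 1) k := by
  cases k with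
  | zero => simp [bm_zero, sn_zero]
  | succ k =>
    have h := hk (Nat.succ_ne_zero k)
    rw [bm_succ]
    have := bb_R2 β n k (by push_cast at h; exact h)
    push_cast
    rw [this]

/-- the trigonometric identity behind the expansion -/
theorem trig_core (A R T : ℝ) :
    (((Real.sin (A + R) : ℝ) : ℂ) * Complex.exp (-(T : ℂ) * Complex.I)
        + ((Real.sin (A - R) : ℝ) : ℂ) * Complex.exp ((T : ℂ) * Complex.I)) *
      (((Real.sin (A + T) : ℝ) : ℂ) * Complex.exp ((R : ℂ) * Complex.I)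
        + ((Real.sin (A - T) : ℝ) : ℂ) * Complex.exp (-(R : ℂ) * Complex.I))
      = ((Real.sin (2 * A) ^ 2 + 4 * Real.sin (A + R) * Real.sin (A - R) * Real.sin (A + T)
          * Real.sin (A - T) : ℝ) : ℂ) := by
  have hT : Complex.exp ((T : ℂ) * Complex.I) = (Real.cos T : ℂ) + (Real.sin T : ℂ) * Complex.I := by
    rw [Complex.exp_mul_I]; push_cast; rfl
  have hT' : Complex.exp (-(T : ℂ) * Complex.I) = (Real.cos T : ℂ) - (Real.sin T : ℂ) * Complex.I := by
    rw [Complex.exp_mul_I]; rw [Complex.cos_neg, Complex.sin_neg]; push_cast; ring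
  have hR : Complex.exp ((R : ℂ) * Complex.I) = (Real.cos R : ℂ) + (Real.sin R : ℂ) * Complex.I := by
    rw [Complex.exp_mul_I]; push_cast; rfl
  have hR' : Complex.exp (-(R : ℂ) * Complex.I) = (Real.cos R : ℂ) - (Real.sin R : ℂ) * Complex.I := by
    rw [Complex.exp_mul_I]; rw [Complex.cos_neg, Complex.sin_neg]; push_cast; ring
  rw [hT, hT', hR, hR']
  have key : (Real.sin (A + R) * Real.cos T + Real.sin (A - R) * Real.cos T) *
      (Real.sin (A + T) * Real.cos R + Real.sin (A - T) * Real.cos R)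
      - (- Real.sin (A + R) * Real.sin T + Real.sin (A - R) * Real.sin T) *
      (Real.sin (A + T) * Real.sin R - Real.sin (A - T) * Real.sin R)
      = Real.sin (2 * A) ^ 2 + 4 * Real.sin (A + R) * Real.sin (A - R) * Real.sin (A + T)
          * Real.sin (A - T) := by
    rw [Real.sin_two_mul, Real.sin_add, Real.sin_sub, Real.sin_add, Real.sin_sub]
    have hA : Real.sin A ^ 2 = 1 - Real.cos A ^ 2 := by
      rw [← Real.sin_sq_add_cos_sq A]; ring
    have hR2 : Real.sin R ^ 2 = 1 - Real.cos R ^ 2 := by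
      rw [← Real.sin_sq_add_cos_sq R]; ring
    have hT2 : Real.sin T ^ 2 = 1 - Real.cos T ^ 2 := by
      rw [← Real.sin_sq_add_cos_sq T]; ring
    have h1 : (Real.sin A * Real.cos R + Real.cos A * Real.sin R) *
        (Real.sin A * Real.cos R - Real.cos A * Real.sin R)
        = Real.sin A ^ 2 * Real.cos R ^ 2 - Real.cos A ^ 2 * Real.sin R ^ 2 := by ring
    have h2 : (Real.sin A * Real.cos T + Real.cos A * Real.sin T) *
        (Real.sin A * Real.cos T - Real.cos A * Real.sin T)
        = Real.sin A ^ 2 * Real.cos T ^ 2 - Real.cos A ^ 2 * Real.sin T ^ 2 := by ring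
    have h3 : 4 * (Real.sin A * Real.cos R + Real.cos A * Real.sin R) *
        (Real.sin A * Real.cos R - Real.cos A * Real.sin R) *
        (Real.sin A * Real.cos T + Real.cos A * Real.sin T) *
        (Real.sin A * Real.cos T - Real.cos A * Real.sin T)
        = 4 * ((Real.sin A * Real.cos R + Real.cos A * Real.sin R) *
        (Real.sin A * Real.cos R - Real.cos A * Real.sin R)) *
        ((Real.sin A * Real.cos T + Real.cos A * Real.sin T) *
        (Real.sin A * Real.cos T - Real.cos A * Real.sin T)) := by ring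
    rw [h3, h1, h2]
    have h4 : (2 * Real.sin A * Real.cos A) ^ 2 = 4 * Real.sin A ^ 2 * Real.cos A ^ 2 := by ring
    rw [h4]
    have h5 : ((Real.sin A * Real.cos R + Real.cos A * Real.sin R) * Real.cos T +
        (Real.sin A * Real.cos R - Real.cos A * Real.sin R) * Real.cos T) *
        ((Real.sin A * Real.cos T + Real.cos A * Real.sin T) * Real.cos R +
        (Real.sin A * Real.cos T - Real.cos A * Real.sin T) * Real.cos R) -
        (-(Real.sin A * Real.cos R + Real.cos A * Real.sin R) * Real.sin T +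
        (Real.sin A * Real.cos R - Real.cos A * Real.sin R) * Real.sin T) *
        ((Real.sin A * Real.cos T + Real.cos A * Real.sin T) * Real.sin R -
        (Real.sin A * Real.cos T - Real.cos A * Real.sin T) * Real.sin R)
        = 4 * Real.sin A ^ 2 * Real.cos R ^ 2 * Real.cos T ^ 2
          + 4 * Real.cos A ^ 2 * Real.sin R ^ 2 * Real.sin T ^ 2 := by ring
    rw [h5, hA, hR2, hT2]
    ring
  have keyI : (Real.sin (A + R) * Real.cos T + Real.sin (A - R) * Real.cos T) *
      (Real.sin (A + T) * Real.sin R - Real.sin (A - T) * Real.sin R)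
      + (- Real.sin (A + R) * Real.sin T + Real.sin (A - R) * Real.sin T) *
      (Real.sin (A + T) * Real.cos R + Real.sin (A - T) * Real.cos R) = 0 := by
    rw [Real.sin_add, Real.sin_sub, Real.sin_add, Real.sin_sub]
    ring
  rw [← key]
  generalize Real.sin (A + R) = a at *
  generalize Real.sin (A - R) = b at *
  generalize Real.sin (A + T) = c at *
  generalize Real.sin (A - T) = d at *
  generalize Real.cos T = x at *
  generalize Real.sin T = y at *
  generalize Real.cos R = z at *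
  generalize Real.sin R = w at *
  have e : ((a : ℂ) * (x - y * Complex.I) + b * (x + y * Complex.I)) *
      ((c : ℂ) * (z + w * Complex.I) + d * (z - w * Complex.I))
      = ((((a * x + b * x) * (c * z + d * z) - (-a * y + b * y) * (c * w - d * w) : ℝ)) : ℂ)
        + ((((a * x + b * x) * (c * w - d * w) + (-a * y + b * y) * (c * z + d * z) : ℝ)) : ℂ)
          * Complex.I := by
    push_cast
    linear_combination (b * y - a * y) * (c * w - d * w) * Complex.I_sq
  rw [e, keyI]
  simp

end Run7.h608
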