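import Pool.Agent.Run7.h608.Total
import Pool.Agent.Run7.h608.AMO2
import Pool.Agent.Run7.h364.AMO_F

set_option autoImplicit false

namespace Run7.h608

open Finset Run7.h364.AMO

/-- `Sp_+(α, λ)`, the union over all phases of the spectra of the almost Mathieu operators -/
def SpPlus (α lam : ℝ) : Set ℝ := {E : ℝ | ∃ θ : ℝ, (E : ℂ) ∈ spectrum ℂ (amo lam α θ)}

/-- lower box-counting dimension (mesh intervals) -/
noncomputable def lowerBox (F : Set ℝ) : ENNReal :=
  Filter.liminf (fun δ : ℝ => ENNReal.ofReal (Real.log (gridN F δ) / Real.log (1 / δ)))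
    (nhdsWithin 0 (Set.Ioi 0))

/-- upper box-counting dimension (mesh intervals) -/
noncomputable def upperBox (F : Set ℝ) : ENNReal :=
  Filter.limsup (fun δ : ℝ => ENNReal.ofReal (Real.log (gridN F δ) / Real.log (1 / δ)))
    (nhdsWithin 0 (Set.Ioi 0))

theorem big_eventually : ∀ᶠ y : ℝ in Filter.atTop, Big y := by
  have h1 : ∀ᶠ y : ℝ in Filter.atTop, (10 : ℝ) ^ 12 ≤ y := Filter.eventually_ge_atTop _
  have h2 := Real.isLittleO_log_id_atTop.bound (c := 1 / (2 * 10 ^ 12)) (by norm_num)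
  have h3 : ∀ᶠ y : ℝ in Filter.atTop, (2 * 10 ^ 12 : ℝ) ≤ y := Filter.eventually_ge_atTop _
  filter_upwards [h1, h2, h3] with y a1 a2 a3
  refine ⟨a1, ?_⟩
  simp only [id, Real.norm_eq_abs] at a2
  have hy : 0 < y := by linarith
  rw [abs_of_pos hy] at a2
  have := (le_abs_self _).trans a2
  linarith

theorem Qc_strictMono : StrictMono Qc := by
  apply strictMono_nat_of_lt_succ
  intro n
  cases n with
  | zero => simp [Qc]
  | succ n =>
    rw [Qc_succ2]
    have h1 := (Qc_pos n).1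
    have h2 := (Qc_pos n).2
    have : 1 ≤ Qc n ^ 2 := Nat.one_le_pow _ _ h1
    nlinarith

/-- the scale variable -/
noncomputable def yc (n : ℕ) : ℝ := (Qc (n + 1) : ℝ) ^ ((1 : ℝ) / 64)

theorem yc_pow (n : ℕ) : yc n ^ 64 = (Qc (n + 1) : ℝ) := by
  unfold yc
  rw [← Real.rpow_natCast, ← Real.rpow_mul (by positivity)]
  norm_num

theorem yc_tendsto : Filter.Tendsto yc Filter.atTop Filter.atTop := by
  unfold yc
  have h1 : Filter.Tendsto (fun k : ℕ => (Qc (k + 1) : ℝ)) Filter.atTop Filter.atTop := by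
    apply tendsto_natCast_atTop_atTop.comp
    apply StrictMono.tendsto_atTop
    intro a b hab
    apply Qc_strictMono
    omega
  exact (tendsto_rpow_atTop (by norm_num : (0 : ℝ) < 1 / 64)).comp h1

theorem yc_pos (n : ℕ) : 0 < yc n := by
  have hQ1 : (0 : ℝ) < Qc (n + 1) := by exact_mod_cast (Qc_pos _).1
  unfold yc; positivity

theorem yc_succ (n : ℕ) (hy : Big (yc n)) : yc (n + 1) ^ 182 ≤ yc n ^ 366 := by
  obtain ⟨Pc, h1, h2, h3, h4, h5, h6⟩ := pieceF
  have hy0 := yc_pos n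
  have hy1 := yc_pos (n + 1)
  have a := h5 (n + 1)
  rw [← yc_pow n, ← yc_pow (n + 1)] at a
  have b : yc (n + 1) ^ 64 ≤ 2 * yc n ^ 128 := by
    calc yc (n + 1) ^ 64 ≤ 2 * (yc n ^ 64) ^ 2 := a
      _ = _ := by ring
  have c : yc (n + 1) ≤ 2 * yc n ^ 2 := by
    by_contra hcon
    push Not at hcon
    have h7 : (2 * yc n ^ 2) ^ 64 < yc (n + 1) ^ 64 := by gcongr
    have h8 : (2 * yc n ^ 2) ^ 64 = 2 ^ 64 * yc n ^ 128 := by ring
    rw [h8] at h7
    have h9 : 0 < yc n ^ 128 := by positivity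
    nlinarith
  have h10 := hy.pow_ge 2 (by norm_num)
  have h11 : (2 : ℝ) ^ 56 ≤ yc n ^ 2 := by
    have := hy.h1
    calc (2 : ℝ) ^ 56 ≤ ((10 : ℝ) ^ 12) ^ 2 := by norm_num
      _ ≤ yc n ^ 2 := by gcongr
  calc yc (n + 1) ^ 182 = (yc (n + 1) ^ 64) ^ 2 * yc (n + 1) ^ 54 := by ring
    _ ≤ (2 * yc n ^ 128) ^ 2 * (2 * yc n ^ 2) ^ 54 := by gcongr
    _ = 2 ^ 56 * yc n ^ 364 := by ring
    _ ≤ yc n ^ 2 * yc n ^ 364 := by gcongr
    _ = _ := by ring

theorem scale_gen (Pc : ℕ → ℤ) (h1 : ∀ n, IsCoprime (Pc n) (Qc n : ℤ))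
    (h5 : ∀ n, (Qc (n + 1) : ℝ) ≤ 2 * Qc n ^ 2) (h6 : ∀ n, (Qc n : ℝ) ^ 2 ≤ 2 * Qc (n + 1))
    (n : ℕ) (α : ℝ)
    (s1 : 0 < (Qc (n + 1) : ℝ) * α - Pc (n + 1))
    (s2 : 0 < (Pc n : ℝ) - Qc n * α)
    (c3 : (Pc n : ℝ) - Qc n * α ≤ 1 / Qc (n + 1))
    (c4 : 1 / (2 * (Qc (n + 1) : ℝ)) ≤ (Pc n : ℝ) - Qc n * α)
    (d3 : (Qc (n + 1) : ℝ) * α - Pc (n + 1) ≤ 1 / Qc (n + 2))
    (d4 : 1 / (2 * (Qc (n + 2) : ℝ)) ≤ (Qc (n + 1) : ℝ) * α - Pc (n + 1)) :
    Scale α (yc n) (Qc (n + 1)) (Qc n) (Pc (n + 1)) (Pc n) (Qc (n + 1) * α - Pc (n + 1))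
      (Pc n - Qc n * α) := by
  have hy := yc_pow n
  have hypos := yc_pos n
  have hQ0 : (0 : ℝ) < Qc n := by exact_mod_cast (Qc_pos _).1
  have hQ1 : (0 : ℝ) < Qc (n + 1) := by exact_mod_cast (Qc_pos _).1
  have hQ2 : (0 : ℝ) < Qc (n + 2) := by exact_mod_cast (Qc_pos _).1
  have a5 := h5 n
  have a6 := h6 n
  have b5 := h5 (n + 1)
  have b6 := h6 (n + 1)
  have e128 : (Qc (n + 1) : ℝ) ^ 2 = yc n ^ 128 := by rw [← hy]; ring
  have e64 : yc n ^ 64 = (yc n ^ 32) ^ 2 := by ring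
  rw [← hy] at a5 a6 c3 c4
  have hp32 : 0 < yc n ^ 32 := by positivity
  refine ⟨hy.symm, ?_, ?_, h1 _, h1 _, by ring, by ring, ?_, ?_, ?_, ?_⟩
  · rw [e64] at a5
    by_contra hcon
    push Not at hcon
    nlinarith
  · rw [e64] at a6
    by_contra hcon
    push Not at hcon
    nlinarith
  · refine le_trans ?_ d4
    rw [div_le_div_iff₀ (by positivity) (by positivity)]
    rw [e128] at b5
    linarith
  · refine d3.trans ?_
    rw [div_le_div_iff₀ hQ2 (by positivity)]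
    rw [e128] at b6
    linarith
  · refine le_trans ?_ c4
    rw [div_le_div_iff₀ (by positivity) (by positivity)]
    have : 0 < yc n ^ 64 := by positivity
    linarith
  · refine c3.trans ?_
    gcongr
    norm_num

/-- the grid count for Cahen's constant at the `n`-th scale -/
theorem grid_cahen (n : ℕ) (hy : Big (yc n)) (δ : ℝ) (hδ : 1 / yc n ^ 366 ≤ δ) (hδ1 : δ ≤ 1) :
    (gridN (SpPlus cahen 1) δ : ℝ) ≤ yc n ^ 121 / 100 + 1 / (100 * yc n ^ 123 * δ) := by
  obtain ⟨Pc, h1, h2, h3, h4, h5, h6⟩ := pieceF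
  have hF4 : ∀ x ∈ SpPlus cahen 1, |x| ≤ 4 := by
    intro x hx
    obtain ⟨θ, hθ⟩ := hx
    exact spec_le _ _ _ hθ
  have hF : ∀ x ∈ SpPlus cahen 1, ∃ θ, Iface.AppEig cahen θ x := by
    intro x hx
    obtain ⟨θ, hθ⟩ := hx
    exact ⟨θ, fun ε hε => spec_appEig _ _ _ hθ ε hε⟩
  have c3 := h3 n
  have c4 := h4 n
  have d3 := h3 (n + 1)
  have d4 := h4 (n + 1)
  have p1 := h2 n
  have p2 := h2 (n + 1)
  rcases Nat.even_or_odd n with he | ho
  · -- n even: (-1)^(n+1) = -1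
    have e1 : (-1 : ℝ) ^ (n + 1) = -1 := by rw [pow_succ, he.neg_one_pow]; norm_num
    have e2 : (-1 : ℝ) ^ (n + 1 + 1) = 1 := by rw [pow_succ, e1]; norm_num
    rw [e1] at p1
    rw [e2, one_mul] at p2
    have s2 : 0 < (Pc n : ℝ) - Qc n * cahen := by linarith
    rw [abs_of_pos p2] at d3 d4
    rw [abs_sub_comm, abs_of_pos s2] at c3 c4
    exact grid_bound cahen (yc n) hy _ _ _ _ _ _ (scale_gen Pc h1 h5 h6 n cahen p2 s2 c3 c4 d3 d4)
      _ hF4 hF δ hδ hδ1
  · have e1 : (-1 : ℝ) ^ (n + 1) = 1 := by rw [pow_succ, ho.neg_one_pow]; norm_num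
    have e2 : (-1 : ℝ) ^ (n + 1 + 1) = -1 := by rw [pow_succ, e1]; norm_num
    rw [e1, one_mul] at p1
    rw [e2] at p2
    have hP : ∀ k, (((fun k => -Pc k) k : ℤ) : ℝ) = -(Pc k : ℝ) := by intro k; push_cast; ring
    have s1 : 0 < (Qc (n + 1) : ℝ) * (-cahen) - (((fun k => -Pc k) (n + 1) : ℤ) : ℝ) := by
      rw [hP]; linarith
    have s2 : 0 < (((fun k => -Pc k) n : ℤ) : ℝ) - Qc n * (-cahen) := by
      rw [hP]; linarith
    have c3' : (((fun k => -Pc k) n : ℤ) : ℝ) - Qc n * (-cahen) ≤ 1 / Qc (n + 1) := by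
      rw [abs_of_pos p1] at c3; rw [hP]; linarith
    have c4' : 1 / (2 * (Qc (n + 1) : ℝ)) ≤ (((fun k => -Pc k) n : ℤ) : ℝ) - Qc n * (-cahen) := by
      rw [abs_of_pos p1] at c4; rw [hP]; linarith
    have p2' : 0 < (Pc (n + 1) : ℝ) - Qc (n + 1) * cahen := by linarith
    rw [abs_sub_comm, abs_of_pos p2'] at d3 d4
    have d3' : (Qc (n + 1) : ℝ) * (-cahen) - (((fun k => -Pc k) (n + 1) : ℤ) : ℝ)
        ≤ 1 / Qc (n + 2) := by
      rw [hP]; linarith
    have d4' : 1 / (2 * (Qc (n + 2) : ℝ)) ≤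
        (Qc (n + 1) : ℝ) * (-cahen) - (((fun k => -Pc k) (n + 1) : ℤ) : ℝ) := by
      rw [hP]; linarith
    refine grid_bound (-cahen) (yc n) hy _ _ _ _ _ _
      (scale_gen (fun k => -Pc k) (fun k => (h1 k).neg_left) h5 h6 n (-cahen) s1 s2 c3' c4' d3' d4')
      _ hF4 ?_ δ hδ hδ1
    intro x hx
    obtain ⟨θ, hθ⟩ := hF x hx
    exact ⟨-θ, AppEig_neg _ _ _ hθ⟩

theorem box_lower (n : ℕ) (hy : Big (yc n)) :
    ENNReal.ofReal (Real.log (gridN (SpPlus cahen 1) (1 / yc n ^ 244)) /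
      Real.log (1 / (1 / yc n ^ 244))) ≤ ENNReal.ofReal (121 / 244) := by
  set y := yc n with hyd
  have hy0 := hy.pos
  have hy1 := hy.one
  have hlog : 0 < Real.log y := Real.log_pos (by have := hy.h1; linarith)
  apply ENNReal.ofReal_le_ofReal
  have e1 : Real.log (1 / (1 / y ^ 244)) = 244 * Real.log y := by
    rw [one_div_one_div, Real.log_pow]; norm_num
  rw [e1, div_le_div_iff₀ (by positivity) (by norm_num)]
  have hg := grid_cahen n hy (1 / y ^ 244)
    (one_div_le_one_div_of_le (by positivity) (pow_le_pow_right₀ hy1 (by norm_num)))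
    (by rw [div_le_one (by positivity)]; exact one_le_pow₀ hy1)
  have e3 : 1 / (100 * yc n ^ 123 * (1 / y ^ 244)) = y ^ 121 / 100 := by
    rw [← hyd]; field_simp
  rw [e3, ← hyd] at hg
  have h2 : (gridN (SpPlus cahen 1) (1 / y ^ 244) : ℝ) ≤ y ^ 121 := by
    have : 0 ≤ y ^ 121 := by positivity
    linarith
  have h3 : Real.log (gridN (SpPlus cahen 1) (1 / y ^ 244)) ≤ 121 * Real.log y := by
    by_cases h0 : gridN (SpPlus cahen 1) (1 / y ^ 244) = 0
    · rw [h0]; simp; positivity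
    · have h4 : (0 : ℝ) < gridN (SpPlus cahen 1) (1 / y ^ 244) := by
        exact_mod_cast Nat.pos_of_ne_zero h0
      have h5 := Real.log_le_log h4 h2
      rw [Real.log_pow] at h5
      exact_mod_cast h5
  nlinarith

theorem lowerBox_cahen : lowerBox (SpPlus cahen 1) ≤ ENNReal.ofReal (121 / 244) := by
  unfold lowerBox
  apply Filter.liminf_le_of_frequently_le'
  have ht : Filter.Tendsto (fun k : ℕ => 1 / yc k ^ 244) Filter.atTop
      (nhdsWithin 0 (Set.Ioi 0)) := by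
    rw [tendsto_nhdsWithin_iff]
    constructor
    · have h1 : Filter.Tendsto (fun k : ℕ => yc k ^ 244) Filter.atTop Filter.atTop :=
        (Filter.tendsto_pow_atTop (by norm_num)).comp yc_tendsto
      have h2 := h1.inv_tendsto_atTop
      have e : (fun k : ℕ => 1 / yc k ^ 244) = (fun k : ℕ => yc k ^ 244)⁻¹ := by
        funext k; simp [one_div]
      rw [e]; exact h2
    · exact Filter.Eventually.of_forall fun k => one_div_pos.mpr (pow_pos (yc_pos k) _)
  apply ht.frequently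
  have h3 := yc_tendsto.eventually big_eventually
  apply Filter.Eventually.frequently
  filter_upwards [h3] with k hk
  exact box_lower k hk

theorem box_upper (n : ℕ) (hy : Big (yc n)) (δ : ℝ) (hδ : 0 < δ) (h1 : yc n ^ 182 ≤ 1 / δ)
    (h2 : 1 / δ ≤ yc n ^ 366) :
    ENNReal.ofReal (Real.log (gridN (SpPlus cahen 1) δ) / Real.log (1 / δ))
      ≤ ENNReal.ofReal (121 / 182) := by
  set y := yc n with hyd
  have hy0 := hy.pos
  have hy1 := hy.one
  have hA : 0 < Real.log y := Real.log_pos (by have := hy.h1; linarith)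
  have hz0 : 0 < 1 / δ := by positivity
  have hz1 : 1 ≤ 1 / δ := le_trans (one_le_pow₀ hy1) h1
  have hZ1 : 182 * Real.log y ≤ Real.log (1 / δ) := by
    have := Real.log_le_log (by positivity) h1
    rw [Real.log_pow] at this
    exact_mod_cast this
  have hZ2 : Real.log (1 / δ) ≤ 366 * Real.log y := by
    have := Real.log_le_log hz0 h2
    rw [Real.log_pow] at this
    exact_mod_cast this
  have hδ1 : δ ≤ 1 := by
    rw [le_div_iff₀ hδ] at hz1; linarith
  have hδ2 : 1 / y ^ 366 ≤ δ := by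
    rw [div_le_iff₀ (by positivity)]
    rw [div_le_iff₀ hδ] at h2; linarith
  apply ENNReal.ofReal_le_ofReal
  have hZ0 : 0 < Real.log (1 / δ) := by nlinarith
  rw [div_le_div_iff₀ hZ0 (by norm_num)]
  have hg := grid_cahen n hy δ hδ2 hδ1
  rw [← hyd] at hg
  have e3 : 1 / (100 * y ^ 123 * δ) = (1 / δ) / y ^ 123 / 100 := by field_simp
  rw [e3] at hg
  have key : Real.log (gridN (SpPlus cahen 1) δ) ≤ 121 / 182 * Real.log (1 / δ) := by
    by_cases h0 : gridN (SpPlus cahen 1) δ = 0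
    · rw [h0]; simp only [Nat.cast_zero, Real.log_zero]; positivity
    · have h4 : (0 : ℝ) < gridN (SpPlus cahen 1) δ := by
        exact_mod_cast Nat.pos_of_ne_zero h0
      by_cases hc : (1 / δ) / y ^ 123 ≤ y ^ 121
      · have h5 : (gridN (SpPlus cahen 1) δ : ℝ) ≤ y ^ 121 := by
          have : 0 ≤ y ^ 121 := by positivity
          linarith
        have h6 := Real.log_le_log h4 h5
        rw [Real.log_pow] at h6
        push_cast at h6
        linarith
      · push Not at hc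
        have h5 : (gridN (SpPlus cahen 1) δ : ℝ) ≤ (1 / δ) / y ^ 123 := by
          have : 0 ≤ (1 / δ) / y ^ 123 := by positivity
          linarith
        have h6 := Real.log_le_log h4 h5
        rw [Real.log_div hz0.ne' (by positivity), Real.log_pow] at h6
        push_cast at h6
        linarith
  linarith

theorem upperBox_cahen : upperBox (SpPlus cahen 1) ≤ ENNReal.ofReal (121 / 182) := by
  unfold upperBox
  refine Filter.limsup_le_of_le (by isBoundedDefault) ?_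
  have h3 := yc_tendsto.eventually big_eventually
  rw [Filter.eventually_atTop] at h3
  obtain ⟨n0, hn0⟩ := h3
  have hsm : ∀ᶠ δ : ℝ in nhdsWithin 0 (Set.Ioi 0), δ < 1 / yc n0 ^ 182 := by
    apply Filter.Eventually.filter_mono nhdsWithin_le_nhds
    exact gt_mem_nhds (one_div_pos.mpr (pow_pos (yc_pos n0) _))
  have hpos : ∀ᶠ δ : ℝ in nhdsWithin 0 (Set.Ioi 0), 0 < δ := self_mem_nhdsWithin
  filter_upwards [hsm, hpos] with δ hδ1 hδ0
  have hz : yc n0 ^ 182 < 1 / δ := by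
    rw [lt_div_iff₀ hδ0]
    rw [lt_div_iff₀ (pow_pos (yc_pos n0) _)] at hδ1
    linarith
  have hex : ∃ k : ℕ, 1 / δ < yc (n0 + k + 1) ^ 182 := by
    have h1 : Filter.Tendsto (fun k : ℕ => yc k ^ 182) Filter.atTop Filter.atTop :=
      (Filter.tendsto_pow_atTop (by norm_num)).comp yc_tendsto
    have h2 := h1.eventually (Filter.eventually_gt_atTop (1 / δ))
    rw [Filter.eventually_atTop] at h2
    obtain ⟨m, hm⟩ := h2
    exact ⟨m, hm _ (by omega)⟩
  classical
  set k := Nat.find hex with hk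
  have hk1 : 1 / δ < yc (n0 + k + 1) ^ 182 := Nat.find_spec hex
  have hk2 : yc (n0 + k) ^ 182 ≤ 1 / δ := by
    rcases Nat.eq_zero_or_pos k with h | h
    · rw [h, add_zero]; exact hz.le
    · have := Nat.find_min hex (m := k - 1) (by omega)
      push Not at this
      have e : n0 + (k - 1) + 1 = n0 + k := by omega
      rw [e] at this
      exact this
  have hB := hn0 (n0 + k) (by omega)
  exact box_upper (n0 + k) hB δ hδ0 hk2 (hk1.le.trans (yc_succ _ hB))

theorem lowerBox_cahen_lt : lowerBox (SpPlus cahen 1) < 1 / 2 := by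
  refine lt_of_le_of_lt lowerBox_cahen ?_
  have : (1 / 2 : ENNReal) = ENNReal.ofReal (1 / 2) := by
    rw [ENNReal.ofReal_div_of_pos (by norm_num)]; simp
  rw [this]
  exact (ENNReal.ofReal_lt_ofReal_iff (by norm_num)).mpr (by norm_num)

theorem upperBox_cahen_lt : upperBox (SpPlus cahen 1) < 2 / 3 := by
  refine lt_of_le_of_lt upperBox_cahen ?_
  have : (2 / 3 : ENNReal) = ENNReal.ofReal (2 / 3) := by
    rw [ENNReal.ofReal_div_of_pos (by norm_num)]; simp
  rw [this]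
  exact (ENNReal.ofReal_lt_ofReal_iff (by norm_num)).mpr (by norm_num)

end Run7.h608
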