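import Pool.Agent.Run7.h608.Loc

set_option autoImplicit false

namespace Run7.h608

open Finset

theorem sum_blocks (θ κ : ℝ) (hθ : 0 < θ) (hκ0 : 0 ≤ κ) (hκ1 : κ ≤ 1 / 2) (N : ℕ) (g : ℤ → ℝ)
    (hg : ∀ n, 0 ≤ g n) :
    ∑ n ∈ range N, g (n : ℤ) ≤
      ∑ k ∈ Icc (-1 : ℤ) ⌊(N : ℝ) * θ⌋, ∑ m ∈ Ico (cen θ κ k) (cen θ κ (k + 1)), g m := by
  have hmaps : ∀ n ∈ range N, ⌊((n : ℤ) : ℝ) * θ - κ⌋ ∈ Icc (-1 : ℤ) ⌊(N : ℝ) * θ⌋ := by
    intro n hn
    rw [mem_range] at hn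
    rw [mem_Icc]
    constructor
    · rw [Int.le_floor]
      have : 0 ≤ ((n : ℤ) : ℝ) * θ := by positivity
      push_cast at *; linarith
    · apply Int.floor_mono
      have h1 : ((n : ℤ) : ℝ) ≤ N := by push_cast; exact_mod_cast hn.le
      have := mul_le_mul_of_nonneg_right h1 hθ.le
      linarith
  rw [← sum_fiberwise_of_maps_to hmaps]
  apply sum_le_sum
  intro k _
  calc ∑ n ∈ (range N).filter (fun n : ℕ => ⌊((n : ℤ) : ℝ) * θ - κ⌋ = k), g (n : ℤ)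
      = ∑ m ∈ ((range N).filter (fun n : ℕ => ⌊((n : ℤ) : ℝ) * θ - κ⌋ = k)).image
          (fun n : ℕ => (n : ℤ)), g m := by
        rw [sum_image]; intro a _ b _ h; simpa using h
    _ ≤ _ := by
        apply sum_le_sum_of_subset_of_nonneg
        · intro m hm
          rw [mem_image] at hm
          obtain ⟨n, hn, rfl⟩ := hm
          rw [mem_filter] at hn
          exact cen_mem θ κ hθ n k hn.2.symm
        · intro m _ _; exact hg m

theorem count (θ κ : ℝ) (hθ : 0 < θ) (hκ0 : 0 ≤ κ) (hκ1 : κ ≤ 1 / 2) (N : ℕ) (hN : 2 / θ ≤ N)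
    (Ls : ℝ) (hLs : 0 ≤ Ls) {ι : Type} [Fintype ι] (u : ι → ℤ → ℂ)
    (h1 : ∀ i, ∑ n ∈ range N, ‖u i (n : ℤ)‖ ^ 2 = N)
    (h2 : ∀ i, ∀ c d : ℤ, (d : ℝ) - c ≤ 1 / θ + 1 → ∑ n ∈ Ico c d, ‖u i n‖ ^ 2 ≤ Ls)
    (D : ℝ) (hD : ∀ k : ℤ, ∀ I : Finset ι, (∀ i ∈ I,
      1 / (4 * θ) ≤ ∑ m ∈ Ico (cen θ κ k) (cen θ κ (k + 1)), ‖u i m‖ ^ 2) → (I.card : ℝ) ≤ D) :
    (Fintype.card ι : ℝ) ≤ 4 * θ * Ls * D := by
  classical
  set K : Finset ℤ := Icc (-1 : ℤ) ⌊(N : ℝ) * θ⌋ with hK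
  set Fi : ι → ℤ → ℝ := fun i k => ∑ m ∈ Ico (cen θ κ k) (cen θ κ (k + 1)), ‖u i m‖ ^ 2 with hFi
  have hNθ : 2 ≤ (N : ℝ) * θ := by rwa [div_le_iff₀ hθ] at hN
  have hN0 : (0 : ℝ) < N := by
    have : 0 < 2 / θ := by positivity
    linarith
  have hKc : (K.card : ℝ) ≤ 2 * (N * θ) := by
    rw [hK, Int.card_Icc]
    have h0 : 0 ≤ ⌊(N : ℝ) * θ⌋ := Int.floor_nonneg.mpr (by positivity)
    have h3 : ((⌊(N : ℝ) * θ⌋ + 1 - -1).toNat : ℝ) = ((⌊(N : ℝ) * θ⌋ + 1 - -1 : ℤ) : ℝ) := by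
      have : (((⌊(N : ℝ) * θ⌋ + 1 - -1).toNat : ℤ) : ℝ) = ((⌊(N : ℝ) * θ⌋ + 1 - -1 : ℤ) : ℝ) := by
        rw [Int.toNat_of_nonneg]; linarith
      rw [← this]; norm_cast
    rw [h3]
    have := Int.floor_le ((N : ℝ) * θ)
    push_cast
    linarith
  have hgood : ∀ i, (N : ℝ) / 2 ≤ Ls * ∑ k ∈ K, (if 1 / (4 * θ) ≤ Fi i k then (1 : ℝ) else 0) := by
    intro i
    have a1 := sum_blocks θ κ hθ hκ0 hκ1 N (fun n => ‖u i n‖ ^ 2) (fun n => by positivity)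
    rw [h1 i] at a1
    have a2 : ∀ k ∈ K, Fi i k ≤ Ls * (if 1 / (4 * θ) ≤ Fi i k then (1 : ℝ) else 0) + 1 / (4 * θ) := by
      intro k _
      by_cases h : 1 / (4 * θ) ≤ Fi i k
      · rw [if_pos h]
        have := h2 i _ _ (cen_len θ κ k)
        have h4 : 0 ≤ 1 / (4 * θ) := by positivity
        have h5 : Fi i k ≤ Ls := this
        linarith
      · rw [if_neg h]; push Not at h; linarith
    have a3 : ∑ k ∈ K, Fi i k ≤
        Ls * ∑ k ∈ K, (if 1 / (4 * θ) ≤ Fi i k then (1 : ℝ) else 0) + K.card * (1 / (4 * θ)) := by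
      calc ∑ k ∈ K, Fi i k ≤ ∑ k ∈ K,
            (Ls * (if 1 / (4 * θ) ≤ Fi i k then (1 : ℝ) else 0) + 1 / (4 * θ)) := sum_le_sum a2
        _ = _ := by rw [sum_add_distrib, ← mul_sum, sum_const, nsmul_eq_mul]
    have a4 : (K.card : ℝ) * (1 / (4 * θ)) ≤ N / 2 := by
      calc (K.card : ℝ) * (1 / (4 * θ)) ≤ 2 * (N * θ) * (1 / (4 * θ)) := by gcongr
        _ = N / 2 := by field_simp; ring
    have a5 : (N : ℝ) ≤ ∑ k ∈ K, Fi i k := a1
    linarith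
  have hswap : ∑ i : ι, ∑ k ∈ K, (if 1 / (4 * θ) ≤ Fi i k then (1 : ℝ) else 0) ≤ K.card * D := by
    rw [sum_comm]
    calc ∑ k ∈ K, ∑ i : ι, (if 1 / (4 * θ) ≤ Fi i k then (1 : ℝ) else 0) ≤ ∑ k ∈ K, D := by
          apply sum_le_sum; intro k _
          have := hD k (univ.filter (fun i => 1 / (4 * θ) ≤ Fi i k)) (by
            intro i hi; exact (mem_filter.mp hi).2)
          rw [sum_boole]
          exact this
      _ = _ := by rw [sum_const, nsmul_eq_mul]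
  have hD0 : 0 ≤ D := by
    have := hD 0 ∅ (by simp)
    simpa using this
  have htot : (Fintype.card ι : ℝ) * (N / 2) ≤ Ls * (2 * (N * θ) * D) := by
    calc (Fintype.card ι : ℝ) * (N / 2) = ∑ i : ι, (N : ℝ) / 2 := by
          rw [sum_const, nsmul_eq_mul]; rfl
      _ ≤ ∑ i : ι, Ls * ∑ k ∈ K, (if 1 / (4 * θ) ≤ Fi i k then (1 : ℝ) else 0) :=
          sum_le_sum fun i _ => hgood i
      _ = Ls * ∑ i : ι, ∑ k ∈ K, (if 1 / (4 * θ) ≤ Fi i k then (1 : ℝ) else 0) := by rw [mul_sum]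
      _ ≤ Ls * (K.card * D) := by gcongr
      _ ≤ Ls * (2 * (N * θ) * D) := by gcongr
  have e1 : Ls * (2 * (N * θ) * D) = (4 * θ * Ls * D) * (N / 2) := by ring
  rw [e1] at htot
  exact le_of_mul_le_mul_right htot (by positivity)

/-- inner product over an interval -/
noncomputable def ip (a b : ℤ) (v w : ℤ → ℂ) : ℂ := ∑ m ∈ Ico a b, v m * (starRingEnd ℂ) (w m)

theorem ip_shift (a b : ℤ) (v w : ℤ → ℂ) (hv : Supp v a b) (hw : Supp w a b) :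
    ∑ m ∈ Ico a b, v (m + 1) * (starRingEnd ℂ) (w m)
      = ∑ m ∈ Ico a b, v m * (starRingEnd ℂ) (w (m - 1)) := by
  have e1 : ∀ m : ℤ, v (m + 1) * (starRingEnd ℂ) (w m)
      = (fun m : ℤ => v m * (starRingEnd ℂ) (w (m - 1))) (m + 1) := by
    intro m; simp
  simp only [e1]
  rw [sum_Ico_add' (fun m : ℤ => v m * (starRingEnd ℂ) (w (m - 1)))]
  apply sum_supp
  · intro m hm
    rw [hw (m - 1), map_zero, mul_zero]
    rw [mem_Ico] at hm ⊢; intro h'; apply hm; constructor <;> omega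
  · intro m hm
    rw [hv m hm, zero_mul]

theorem ip_shift' (a b : ℤ) (v w : ℤ → ℂ) (hv : Supp v a b) (hw : Supp w a b) :
    ∑ m ∈ Ico a b, v (m - 1) * (starRingEnd ℂ) (w m)
      = ∑ m ∈ Ico a b, v m * (starRingEnd ℂ) (w (m + 1)) := by
  have e1 : ∀ m : ℤ, v (m - 1) * (starRingEnd ℂ) (w m)
      = (fun m : ℤ => v m * (starRingEnd ℂ) (w (m + 1))) (m + (-1)) := by
    intro m; simp [sub_eq_add_neg]
  simp only [e1]
  rw [sum_Ico_add' (fun m : ℤ => v m * (starRingEnd ℂ) (w (m + 1)))]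
  apply sum_supp
  · intro m hm
    rw [hw (m + 1), map_zero, mul_zero]
    rw [mem_Ico] at hm ⊢; intro h'; apply hm; constructor <;> omega
  · intro m hm
    rw [hv m hm, zero_mul]

theorem self_adj (β : ℝ) (a b : ℤ) (v w : ℤ → ℂ) (hv : Supp v a b) (hw : Supp w a b) :
    ip a b (HH β v) w = ip a b v (HH β w) := by
  unfold ip
  simp only [HH_apply, add_mul, map_add, mul_add, sum_add_distrib, map_mul, Complex.conj_ofReal]
  rw [ip_shift a b v w hv hw, ip_shift' a b v w hv hw]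
  rw [add_comm (∑ m ∈ Ico a b, v m * (starRingEnd ℂ) (w (m - 1)))]
  congr 1
  apply sum_congr rfl; intro m _; ring

theorem card_Ico_le (a b : ℤ) (hab : a ≤ b) : ((Ico a b).card : ℝ) = (b : ℝ) - a := by
  rw [Int.card_Ico]
  have : (((b - a).toNat : ℤ) : ℝ) = ((b - a : ℤ) : ℝ) := by
    rw [Int.toNat_of_nonneg]; linarith
  calc ((b - a).toNat : ℝ) = (((b - a).toNat : ℤ) : ℝ) := by norm_cast
    _ = _ := by rw [this]; push_cast; ring

theorem nearorth (β : ℝ) (a b : ℤ) (hab : a ≤ b) (v w : ℤ → ℂ) (hv : Supp v a b) (hw : Supp w a b)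
    (E E' M e : ℝ) (hvM : ∀ m, ‖v m‖ ≤ M) (hwM : ∀ m, ‖w m‖ ≤ M)
    (hrv : ∀ m, ‖HH β v m - (E : ℂ) * v m‖ ≤ e) (hrw : ∀ m, ‖HH β w m - (E' : ℂ) * w m‖ ≤ e) :
    |E - E'| * ‖ip a b v w‖ ≤ 2 * e * M * ((b : ℝ) - a) := by
  have hM0 : 0 ≤ M := (norm_nonneg _).trans (hvM 0)
  have he0 : 0 ≤ e := (norm_nonneg _).trans (hrv 0)
  have e1 : ((E - E' : ℝ) : ℂ) * ip a b v w
      = ip a b v (fun m => HH β w m - (E' : ℂ) * w m) - ip a b (fun m => HH β v m - (E : ℂ) * v m) w := by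
    have h := self_adj β a b v w hv hw
    unfold ip at h ⊢
    simp only [map_sub, map_mul, Complex.conj_ofReal, mul_sub, sub_mul, sum_sub_distrib]
    rw [h]
    have f1 : ∑ m ∈ Ico a b, v m * ((E' : ℂ) * (starRingEnd ℂ) (w m))
        = (E' : ℂ) * ∑ m ∈ Ico a b, v m * (starRingEnd ℂ) (w m) := by
      rw [mul_sum]; apply sum_congr rfl; intro m _; ring
    have f2 : ∑ m ∈ Ico a b, (E : ℂ) * v m * (starRingEnd ℂ) (w m)
        = (E : ℂ) * ∑ m ∈ Ico a b, v m * (starRingEnd ℂ) (w m) := by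
      rw [mul_sum]; apply sum_congr rfl; intro m _; ring
    rw [f1, f2]
    push_cast
    ring
  have n1 : ‖ip a b v (fun m => HH β w m - (E' : ℂ) * w m)‖ ≤ ((b : ℝ) - a) * (M * e) := by
    unfold ip
    refine (norm_sum_le _ _).trans ?_
    rw [← card_Ico_le a b hab, ← nsmul_eq_mul, ← sum_const]
    apply sum_le_sum; intro m _
    rw [norm_mul, Complex.norm_conj]
    exact mul_le_mul (hvM m) (hrw m) (norm_nonneg _) hM0
  have n2 : ‖ip a b (fun m => HH β v m - (E : ℂ) * v m) w‖ ≤ ((b : ℝ) - a) * (e * M) := by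
    unfold ip
    refine (norm_sum_le _ _).trans ?_
    rw [← card_Ico_le a b hab, ← nsmul_eq_mul, ← sum_const]
    apply sum_le_sum; intro m _
    rw [norm_mul, Complex.norm_conj]
    exact mul_le_mul (hrv m) (hwM m) (norm_nonneg _) he0
  calc |E - E'| * ‖ip a b v w‖ = ‖((E - E' : ℝ) : ℂ) * ip a b v w‖ := by
        rw [norm_mul, Complex.norm_real, Real.norm_eq_abs]
    _ ≤ _ := by rw [e1]; exact norm_sub_le _ _
    _ ≤ ((b : ℝ) - a) * (M * e) + ((b : ℝ) - a) * (e * M) := add_le_add n1 n2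
    _ = _ := by ring

theorem gram (a b : ℤ) {ι : Type} [Fintype ι] (v : ι → ℤ → ℂ) (ν : ℝ) (hν0 : 0 ≤ ν)
    (hν : ∀ i j, i ≠ j → ‖ip a b (v i) (v j)‖ ≤ ν) (d : ι → ℂ) :
    |∑ m ∈ Ico a b, ‖∑ i, d i * v i m‖ ^ 2 - ∑ i, ‖d i‖ ^ 2 * ∑ m ∈ Ico a b, ‖v i m‖ ^ 2|
      ≤ ν * Fintype.card ι * ∑ i, ‖d i‖ ^ 2 := by
  classical
  have hsq : ∀ z : ℂ, ((‖z‖ ^ 2 : ℝ) : ℂ) = z * (starRingEnd ℂ) z := by
    intro z; rw [Complex.mul_conj, Complex.normSq_eq_norm_sq]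
  have e1 : ((∑ m ∈ Ico a b, ‖∑ i, d i * v i m‖ ^ 2 : ℝ) : ℂ)
      = ∑ i, ∑ j, d i * (starRingEnd ℂ) (d j) * ip a b (v i) (v j) := by
    rw [Complex.ofReal_sum]
    simp only [hsq, map_sum, map_mul, sum_mul_sum]
    unfold ip
    simp only [mul_sum]
    rw [sum_comm]
    apply sum_congr rfl; intro i _
    rw [sum_comm]
    apply sum_congr rfl; intro j _
    apply sum_congr rfl; intro m _
    ring
  have e2 : ((∑ i, ‖d i‖ ^ 2 * ∑ m ∈ Ico a b, ‖v i m‖ ^ 2 : ℝ) : ℂ)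
      = ∑ i, ∑ j, if i = j then d i * (starRingEnd ℂ) (d j) * ip a b (v i) (v j) else 0 := by
    rw [Complex.ofReal_sum]
    apply sum_congr rfl; intro i _
    rw [sum_ite_eq univ i]
    simp only [mem_univ, if_true]
    rw [Complex.ofReal_mul, hsq, Complex.ofReal_sum]
    congr 1
    unfold ip
    apply sum_congr rfl; intro m _
    rw [hsq]
  have e3 : (((∑ m ∈ Ico a b, ‖∑ i, d i * v i m‖ ^ 2
      - ∑ i, ‖d i‖ ^ 2 * ∑ m ∈ Ico a b, ‖v i m‖ ^ 2 : ℝ)) : ℂ)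
      = ∑ i, ∑ j, if i = j then 0 else d i * (starRingEnd ℂ) (d j) * ip a b (v i) (v j) := by
    rw [Complex.ofReal_sub, e1, e2, ← sum_sub_distrib]
    apply sum_congr rfl; intro i _
    rw [← sum_sub_distrib]
    apply sum_congr rfl; intro j _
    by_cases h : i = j
    · rw [if_pos h, if_pos h]; ring
    · rw [if_neg h, if_neg h]; ring
  rw [← Real.norm_eq_abs, ← Complex.norm_real, e3]
  calc ‖∑ i, ∑ j, if i = j then 0 else d i * (starRingEnd ℂ) (d j) * ip a b (v i) (v j)‖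
      ≤ ∑ i, ∑ j, ‖d i‖ * ‖d j‖ * ν := by
        refine (norm_sum_le _ _).trans (sum_le_sum fun i _ => ?_)
        refine (norm_sum_le _ _).trans (sum_le_sum fun j _ => ?_)
        by_cases h : i = j
        · rw [if_pos h, norm_zero]; positivity
        · rw [if_neg h, norm_mul, norm_mul, Complex.norm_conj]
          gcongr
          exact hν i j h
    _ = ν * (∑ i, ‖d i‖) ^ 2 := by
        rw [sq, sum_mul_sum, mul_sum]
        apply sum_congr rfl; intro i _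
        rw [mul_sum]
        apply sum_congr rfl; intro j _; ring
    _ ≤ ν * (Fintype.card ι * ∑ i, ‖d i‖ ^ 2) := by
        gcongr
        have := sq_sum_le_card_mul_sum_sq (s := (univ : Finset ι)) (f := fun i => ‖d i‖)
        simpa using this
    _ = _ := by ring

end Run7.h608
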