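import Mathlib

/-!
Basic definitions for the critical almost Mathieu operator at frequency `β` and phase `0`,
acting on all functions `ℤ → ℂ`.
-/

set_option autoImplicit false

namespace Run7.h608

open Finset

/-- `e(x) = exp(2πix)` -/
noncomputable def ee (x : ℝ) : ℂ := Complex.exp ((2 * Real.pi * x : ℝ) * Complex.I)

/-- the potential `2 cos (2π m β)` -/
noncomputable def pot (β : ℝ) (m : ℤ) : ℝ := 2 * Real.cos (2 * Real.pi * (m * β))

/-- the critical almost Mathieu operator on functions `ℤ → ℂ` -/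
noncomputable def HH (β : ℝ) : (ℤ → ℂ) →ₗ[ℂ] (ℤ → ℂ) where
  toFun u := fun m => u (m + 1) + u (m - 1) + (pot β m : ℂ) * u m
  map_add' u v := by
    funext m; simp only [Pi.add_apply]; ring
  map_smul' c u := by
    funext m; simp only [Pi.smul_apply, smul_eq_mul, RingHom.id_apply]; ring

theorem HH_apply (β : ℝ) (u : ℤ → ℂ) (m : ℤ) :
    HH β u m = u (m + 1) + u (m - 1) + (pot β m : ℂ) * u m := rfl

/-- `sin (π β x)` -/
noncomputable def sn (β : ℝ) (x : ℝ) : ℝ := Real.sin (Real.pi * β * x)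

/-- the orthogonal polynomials evaluated at the operator -/
noncomputable def PP (β : ℝ) : ℕ → ((ℤ → ℂ) →ₗ[ℂ] (ℤ → ℂ))
  | 0 => LinearMap.id
  | 1 => HH β
  | (n + 2) => (HH β).comp (PP β (n + 1)) - ((4 * sn β (n + 1) ^ 2 : ℝ) : ℂ) • PP β n

/-- the orthogonal polynomials evaluated at a real number -/
noncomputable def pp (β : ℝ) (E : ℝ) : ℕ → ℝ
  | 0 => 1
  | 1 => E
  | (n + 2) => E * pp β E (n + 1) - 4 * sn β (n + 1) ^ 2 * pp β E n

/-- Weyl operators -/
noncomputable def WW (β : ℝ) (a b : ℤ) (u : ℤ → ℂ) (m : ℤ) : ℂ :=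
  ee (b * β * (m + a / 2)) * u (m + a)

/-- symmetric `q`-binomial coefficients -/
noncomputable def bb (β : ℝ) (n k : ℕ) : ℝ :=
  ∏ j ∈ range k, (sn β ((n : ℝ) - j) / sn β ((j : ℝ) + 1))

/-- the sum of absolute values of the `q`-binomials -/
noncomputable def Cb (β : ℝ) (n : ℕ) : ℝ := ∑ k ∈ range (n + 1), |bb β n k|

end Run7.h608
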