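import Pool.Agent.Run7.h608.Count

set_option autoImplicit false

namespace Run7.h608

open Finset

/-- an almost orthogonal family on a block -/
structure Fam (β R e ε : ℝ) (a b : ℤ) (ι : Type) [Fintype ι] (E : ι → ℝ) (v : ι → ℤ → ℂ) : Prop where
  hab : a ≤ b
  hlen : (b : ℝ) - a ≤ R + 1
  hR : 0 < R
  he : 0 ≤ e
  hε : 0 < ε
  supp : ∀ i, Supp (v i) a b
  hM : ∀ i m, ‖v i m‖ ≤ R + 1
  hr : ∀ i m, ‖HH β (v i) m - (E i : ℂ) * v i m‖ ≤ e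
  sep : ∀ i j, i ≠ j → ε ≤ |E i - E j|
  big : ∀ i, R / 4 ≤ ∑ m ∈ Ico a b, ‖v i m‖ ^ 2
  small : 2 * e * (R + 1) ^ 2 / ε * Fintype.card ι ≤ R / 40

theorem Fam.orth {β R e ε : ℝ} {a b : ℤ} {ι : Type} [Fintype ι] {E : ι → ℝ} {v : ι → ℤ → ℂ}
    (H : Fam β R e ε a b ι E v) (i j : ι) (hij : i ≠ j) :
    ‖ip a b (v i) (v j)‖ ≤ 2 * e * (R + 1) ^ 2 / ε := by
  have h := nearorth β a b H.hab (v i) (v j) (H.supp i) (H.supp j) (E i) (E j) (R + 1) e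
    (H.hM i) (H.hM j) (H.hr i) (H.hr j)
  have hs := H.sep i j hij
  have hε := H.hε
  have hR := H.hR
  have he := H.he
  rw [le_div_iff₀ hε]
  calc ‖ip a b (v i) (v j)‖ * ε ≤ ‖ip a b (v i) (v j)‖ * |E i - E j| := by gcongr
    _ = |E i - E j| * ‖ip a b (v i) (v j)‖ := by ring
    _ ≤ _ := h
    _ ≤ 2 * e * (R + 1) * (R + 1) := by
        apply mul_le_mul_of_nonneg_left H.hlen; positivity
    _ = _ := by ring

/-- the lower bound for the norm of a linear combination -/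
theorem Fam.low {β R e ε : ℝ} {a b : ℤ} {ι : Type} [Fintype ι] {E : ι → ℝ} {v : ι → ℤ → ℂ}
    (H : Fam β R e ε a b ι E v) (d : ι → ℂ) :
    |∑ m ∈ Ico a b, ‖∑ i, d i * v i m‖ ^ 2 - ∑ i, ‖d i‖ ^ 2 * ∑ m ∈ Ico a b, ‖v i m‖ ^ 2|
      ≤ R / 40 * ∑ i, ‖d i‖ ^ 2 := by
  have hε := H.hε
  have hR := H.hR
  have he := H.he
  refine (gram a b v (2 * e * (R + 1) ^ 2 / ε) (by positivity) H.orth d).trans ?_
  apply mul_le_mul_of_nonneg_right H.small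
  exact sum_nonneg fun i _ => by positivity

theorem Fam.G_ge {β R e ε : ℝ} {a b : ℤ} {ι : Type} [Fintype ι] {E : ι → ℝ} {v : ι → ℤ → ℂ}
    (H : Fam β R e ε a b ι E v) (d : ι → ℂ) :
    R / 4 * ∑ i, ‖d i‖ ^ 2 ≤ ∑ i, ‖d i‖ ^ 2 * ∑ m ∈ Ico a b, ‖v i m‖ ^ 2 := by
  rw [mul_sum]
  apply sum_le_sum; intro i _
  have := H.big i
  have h2 : 0 ≤ ‖d i‖ ^ 2 := by positivity
  nlinarith

theorem Fam.ind {β R e ε : ℝ} {a b : ℤ} {ι : Type} [Fintype ι] {E : ι → ℝ} {v : ι → ℤ → ℂ}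
    (H : Fam β R e ε a b ι E v) (c : ι → ℂ) (hc : ∀ m, ∑ i, c i * v i m = 0) : c = 0 := by
  have h1 := H.low c
  have h2 := H.G_ge c
  have h3 : ∑ m ∈ Ico a b, ‖∑ i, c i * v i m‖ ^ 2 = 0 := by
    apply sum_eq_zero; intro m _; rw [hc m]; simp
  rw [h3, zero_sub, abs_neg] at h1
  have h4 := (le_abs_self _).trans h1
  have hR := H.hR
  have h5 : ∑ i, ‖c i‖ ^ 2 ≤ 0 := by
    by_contra hcon
    push Not at hcon
    have : R / 40 * ∑ i, ‖c i‖ ^ 2 < R / 4 * ∑ i, ‖c i‖ ^ 2 := by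
      apply mul_lt_mul_of_pos_right _ hcon; linarith
    linarith
  have h6 : ∑ i, ‖c i‖ ^ 2 = 0 := le_antisymm h5 (sum_nonneg fun i _ => by positivity)
  rw [sum_eq_zero_iff_of_nonneg (fun i _ => by positivity)] at h6
  funext i
  have := h6 i (mem_univ i)
  simpa using this

theorem card_le_of_indep (a b : ℤ) (hab : a ≤ b) {ι : Type} [Fintype ι] (v : ι → ℤ → ℂ)
    (hsupp : ∀ i, Supp (v i) a b)
    (hind : ∀ c : ι → ℂ, (∀ m, ∑ i, c i * v i m = 0) → c = 0) :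
    (Fintype.card ι : ℝ) ≤ (b : ℝ) - a := by
  classical
  rw [← card_Ico_le a b hab]
  have h := LinearMap.finrank_le_finrank_of_injective
    (f := (Fintype.linearCombination ℂ (fun i : ι => fun m : {x // x ∈ Ico a b} => v i m.1)))
    (by
      rw [← LinearMap.ker_eq_bot, LinearMap.ker_eq_bot']
      intro c hc
      apply hind c
      intro m
      by_cases hm : m ∈ Ico a b
      · have := congrFun hc ⟨m, hm⟩
        simpa [Fintype.linearCombination_apply] using this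
      · apply sum_eq_zero; intro i _; rw [hsupp i m hm, mul_zero])
  rw [Module.finrank_fintype_fun_eq_card, Module.finrank_fintype_fun_eq_card, Fintype.card_coe] at h
  exact_mod_cast h

theorem Fam.cardA {β R e ε : ℝ} {a b : ℤ} {ι : Type} [Fintype ι] {E : ι → ℝ} {v : ι → ℤ → ℂ}
    (H : Fam β R e ε a b ι E v) : (Fintype.card ι : ℝ) ≤ R + 1 :=
  (card_le_of_indep a b H.hab v H.supp H.ind).trans H.hlen

theorem norm3_sq (x y z : ℂ) : ‖x + y + z‖ ^ 2 ≤ 3 * (‖x‖ ^ 2 + ‖y‖ ^ 2 + ‖z‖ ^ 2) := by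
  have h1 : ‖x + y + z‖ ≤ ‖x‖ + ‖y‖ + ‖z‖ :=
    (norm_add_le _ _).trans (by gcongr; exact norm_add_le _ _)
  have h2 : ‖x + y + z‖ ^ 2 ≤ (‖x‖ + ‖y‖ + ‖z‖) ^ 2 := pow_le_pow_left₀ (norm_nonneg _) h1 2
  nlinarith [sq_nonneg (‖x‖ - ‖y‖), sq_nonneg (‖x‖ - ‖z‖), sq_nonneg (‖y‖ - ‖z‖)]

theorem Fam.opK {β R e ε : ℝ} {a b : ℤ} {ι : Type} [Fintype ι] {E : ι → ℝ} {v : ι → ℤ → ℂ}
    (H : Fam β R e ε a b ι E v) (q' : ℕ) (hq' : 1 ≤ q')
    (hs' : ∀ j : ℕ, 1 ≤ j → j ≤ q' → sn β j ≠ 0) (η' : ℝ) (hη' : 0 < η')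
    (her : er β q' ≤ η') (hpp : ∀ i, |pp β (E i) q'| ≤ η')
    (hr' : ∀ i m, ‖PP β q' (v i) m - ((pp β (E i) q' : ℝ) : ℂ) * v i m‖ ≤ e)
    (hsm2 : (R + 1 + 2 * q') * e ^ 2 * Fintype.card ι ≤ η' ^ 2 * R / 20)
    (c : ι → ℂ) (w : ℤ → ℂ) (hw : ∀ m, w m = ∑ i, c i * v i m) :
    ∑ m ∈ Ico (a - q') (b + q'), ‖Kop β q' w m‖ ^ 2 ≤ (3 * η') ^ 2 * ∑ m ∈ Ico a b, ‖w m‖ ^ 2 := by
  have hR := H.hR
  set A : ℝ := ∑ i, ‖c i‖ ^ 2 with hA
  set G : ℝ := ∑ i, ‖c i‖ ^ 2 * ∑ m ∈ Ico a b, ‖v i m‖ ^ 2 with hG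
  set Wn : ℝ := ∑ m ∈ Ico a b, ‖w m‖ ^ 2 with hWn
  have hA0 : 0 ≤ A := sum_nonneg fun i _ => by positivity
  have hG0 : 0 ≤ G := sum_nonneg fun i _ => by positivity
  have hGA : R / 4 * A ≤ G := H.G_ge c
  have hlow : G - R / 40 * A ≤ Wn := by
    have h := H.low c
    have e1 : ∑ m ∈ Ico a b, ‖∑ i, c i * v i m‖ ^ 2 = Wn := by
      rw [hWn]; apply sum_congr rfl; intro m _; rw [hw m]
    rw [e1] at h
    have := (abs_le.mp h).1
    linarith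
  have hWG : 9 / 10 * G ≤ Wn := by linarith
  -- support of w
  have hwfun : w = ∑ i, c i • v i := by
    funext m; rw [hw m]; simp [Finset.sum_apply]
  have hwS : Supp w a b := by
    intro m hm; rw [hw m]; apply sum_eq_zero; intro i _; rw [H.supp i m hm, mul_zero]
  have hPPw : ∀ m, PP β q' w m = ∑ i, c i * PP β q' (v i) m := by
    intro m
    rw [hwfun, map_sum]
    simp [Finset.sum_apply, map_smul]
  set S : Finset ℤ := Ico (a - q') (b + q') with hS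
  set A1 : ℤ → ℂ := fun m => ∑ i, (c i * ((pp β (E i) q' : ℝ) : ℂ)) * v i m with hA1
  set A2 : ℤ → ℂ := fun m => ∑ i, c i * (PP β q' (v i) m - ((pp β (E i) q' : ℝ) : ℂ) * v i m) with hA2
  set A3 : ℤ → ℂ := fun m => -(PP β q' w m - Kop β q' w m) with hA3
  have hdec : ∀ m, Kop β q' w m = A1 m + A2 m + A3 m := by
    intro m
    have : PP β q' w m = A1 m + A2 m := by
      rw [hPPw m, hA1, hA2]; simp only
      rw [← sum_add_distrib]; apply sum_congr rfl; intro i _; ring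
    rw [← this, hA3]; ring
  have b1 : ∑ m ∈ S, ‖A1 m‖ ^ 2 ≤ η' ^ 2 * (11 / 10 * G) := by
    have h0 : ∑ m ∈ S, ‖A1 m‖ ^ 2 = ∑ m ∈ Ico a b, ‖A1 m‖ ^ 2 := by
      apply sum_supp
      · intro m hm
        have : A1 m = 0 := by
          rw [hA1]; apply sum_eq_zero; intro i _
          rw [H.supp i m, mul_zero]
          rw [hS, mem_Ico] at hm
          rw [mem_Ico]; intro h'; apply hm; constructor <;> omega
        rw [this]; simp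
      · intro m hm
        have : A1 m = 0 := by
          rw [hA1]; apply sum_eq_zero; intro i _
          rw [H.supp i m hm, mul_zero]
        rw [this]; simp
    rw [h0]
    have h1 := H.low (fun i => c i * ((pp β (E i) q' : ℝ) : ℂ))
    have h2 := (abs_le.mp h1).2
    have h3 : ∀ i, ‖c i * ((pp β (E i) q' : ℝ) : ℂ)‖ ^ 2 ≤ η' ^ 2 * ‖c i‖ ^ 2 := by
      intro i
      rw [norm_mul, Complex.norm_real, Real.norm_eq_abs, mul_pow, mul_comm]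
      have := pow_le_pow_left₀ (abs_nonneg _) (hpp i) 2
      gcongr
    have h4 : ∑ i, ‖c i * ((pp β (E i) q' : ℝ) : ℂ)‖ ^ 2 ≤ η' ^ 2 * A := by
      rw [hA, mul_sum]; exact sum_le_sum fun i _ => h3 i
    have h5 : ∑ i, ‖c i * ((pp β (E i) q' : ℝ) : ℂ)‖ ^ 2 * ∑ m ∈ Ico a b, ‖v i m‖ ^ 2 ≤ η' ^ 2 * G := by
      rw [hG, mul_sum]; apply sum_le_sum; intro i _
      rw [← mul_assoc]
      apply mul_le_mul_of_nonneg_right (h3 i)
      exact sum_nonneg fun m _ => by positivity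
    have h6 : R / 40 * ∑ i, ‖c i * ((pp β (E i) q' : ℝ) : ℂ)‖ ^ 2 ≤ R / 40 * (η' ^ 2 * A) := by
      gcongr
    have h7 : η' ^ 2 * (R / 40 * A) ≤ η' ^ 2 * (G / 10) := by
      gcongr; linarith
    calc ∑ m ∈ Ico a b, ‖A1 m‖ ^ 2 ≤ η' ^ 2 * G + R / 40 * (η' ^ 2 * A) := by
          simp only [hA1]; linarith
      _ = η' ^ 2 * G + η' ^ 2 * (R / 40 * A) := by ring
      _ ≤ η' ^ 2 * G + η' ^ 2 * (G / 10) := by linarith
      _ = _ := by ring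
  have b2 : ∑ m ∈ S, ‖A2 m‖ ^ 2 ≤ η' ^ 2 * (G / 5) := by
    have h1 : ∀ m, ‖A2 m‖ ^ 2 ≤ e ^ 2 * (Fintype.card ι * A) := by
      intro m
      have g1 : ‖A2 m‖ ≤ ∑ i, ‖c i‖ * e := by
        refine (norm_sum_le _ _).trans (sum_le_sum fun i _ => ?_)
        rw [norm_mul]; gcongr; exact hr' i m
      rw [← sum_mul] at g1
      have g2 : ‖A2 m‖ ^ 2 ≤ ((∑ i, ‖c i‖) * e) ^ 2 := pow_le_pow_left₀ (norm_nonneg _) g1 2
      have g3 := sq_sum_le_card_mul_sum_sq (s := (univ : Finset ι)) (f := fun i => ‖c i‖)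
      simp only [card_univ] at g3
      calc ‖A2 m‖ ^ 2 ≤ e ^ 2 * (∑ i, ‖c i‖) ^ 2 := by rw [mul_pow] at g2; linarith
        _ ≤ e ^ 2 * (Fintype.card ι * A) := by gcongr
    have hScard : (S.card : ℝ) ≤ R + 1 + 2 * q' := by
      rw [hS, card_Ico_le _ _ (by have := H.hab; linarith)]
      have := H.hlen
      push_cast; linarith
    have hT0 : 0 ≤ e ^ 2 * (Fintype.card ι * A) := by positivity
    calc ∑ m ∈ S, ‖A2 m‖ ^ 2 ≤ ∑ m ∈ S, e ^ 2 * (Fintype.card ι * A) := sum_le_sum fun m _ => h1 m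
      _ = S.card * (e ^ 2 * (Fintype.card ι * A)) := by rw [sum_const, nsmul_eq_mul]
      _ ≤ (R + 1 + 2 * q') * (e ^ 2 * (Fintype.card ι * A)) := by gcongr
      _ = ((R + 1 + 2 * q') * e ^ 2 * Fintype.card ι) * A := by ring
      _ ≤ (η' ^ 2 * R / 20) * A := by gcongr
      _ = η' ^ 2 * (R / 4 * A / 5) := by ring
      _ ≤ η' ^ 2 * (G / 5) := by gcongr
  have b3 : ∑ m ∈ S, ‖A3 m‖ ^ 2 ≤ η' ^ 2 * Wn := by
    have h1 := PP_err_l2 β q' hq' hs' w a b hwS S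
    have h2 : ∑ m ∈ S, ‖A3 m‖ ^ 2 = ∑ m ∈ S, ‖PP β q' w m - Kop β q' w m‖ ^ 2 := by
      apply sum_congr rfl; intro m _; rw [hA3]; simp only [norm_neg]
    rw [h2]
    refine h1.trans ?_
    have h3 := er_nonneg β q' hq' hs'
    have h4 : er β q' ^ 2 ≤ η' ^ 2 := pow_le_pow_left₀ h3 her 2
    apply mul_le_mul_of_nonneg_right h4
    exact sum_nonneg fun m _ => by positivity
  calc ∑ m ∈ S, ‖Kop β q' w m‖ ^ 2 ≤ ∑ m ∈ S, 3 * (‖A1 m‖ ^ 2 + ‖A2 m‖ ^ 2 + ‖A3 m‖ ^ 2) := by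
        apply sum_le_sum; intro m _; rw [hdec m]; exact norm3_sq _ _ _
    _ = 3 * (∑ m ∈ S, ‖A1 m‖ ^ 2 + ∑ m ∈ S, ‖A2 m‖ ^ 2 + ∑ m ∈ S, ‖A3 m‖ ^ 2) := by
        rw [← mul_sum, sum_add_distrib, sum_add_distrib]
    _ ≤ 3 * (η' ^ 2 * (11 / 10 * G) + η' ^ 2 * (G / 5) + η' ^ 2 * Wn) := by gcongr
    _ = η' ^ 2 * (39 / 10 * G + 3 * Wn) := by ring
    _ ≤ η' ^ 2 * (9 * Wn) := by
        apply mul_le_mul_of_nonneg_left _ (by positivity)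
        linarith
    _ = _ := by ring

end Run7.h608
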