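import Pool.Agent.Run7.h608.Expand2

set_option autoImplicit false

namespace Run7.h608

open Finset

theorem bb_self (β : ℝ) (n : ℕ) (hs : ∀ j : ℕ, 1 ≤ j → j ≤ n → sn β j ≠ 0) : bb β n n = 1 := by
  unfold bb
  rw [prod_div_distrib]
  have : ∏ j ∈ range n, sn β ((n : ℝ) - j) = ∏ j ∈ range n, sn β ((j : ℝ) + 1) := by
    rw [← prod_range_reflect]
    apply prod_congr rfl; intro j hj
    have hj' := mem_range.mp hj
    congr 1
    rw [Nat.cast_sub (by omega), Nat.cast_sub (by omega)]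
    push_cast; ring
  rw [this]
  apply div_self
  apply prod_ne_zero_iff.mpr
  intro j hj
  have := hs (j + 1) (by omega) (by have := mem_range.mp hj; omega)
  push_cast at this; exact this

/-- the main part of `PP β q` -/
noncomputable def Kop (β : ℝ) (q : ℕ) (u : ℤ → ℂ) (m : ℤ) : ℂ :=
  u (m + q) + u (m - q) + ((2 * Real.cos (2 * Real.pi * (q * (m * β))) : ℝ) : ℂ) * u m

/-- non-corner index pairs -/
def nc (q : ℕ) : Finset (ℕ × ℕ) :=
  ((range (q + 1)) ×ˢ (range (q + 1))) \ {(0, 0), (0, q), (q, 0), (q, q)}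

theorem corners_sub (q : ℕ) :
    ({(0, 0), (0, q), (q, 0), (q, q)} : Finset (ℕ × ℕ)) ⊆ (range (q + 1)) ×ˢ (range (q + 1)) := by
  intro x hx
  simp only [mem_insert, mem_singleton] at hx
  rcases hx with h | h | h | h <;> (subst h; simp)

theorem sum_corners {M : Type*} [AddCommMonoid M] (q : ℕ) (hq : 1 ≤ q) (g : ℕ × ℕ → M) :
    ∑ x ∈ ({(0, 0), (0, q), (q, 0), (q, q)} : Finset (ℕ × ℕ)), g x
      = g (0, 0) + (g (0, q) + (g (q, 0) + g (q, q))) := by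
  have h0 : q ≠ 0 := by omega
  rw [sum_insert, sum_insert, sum_insert, sum_singleton]
  · simp; omega
  · simp [h0.symm]
  · simp [h0.symm]

theorem PP_err_eq (β : ℝ) (q : ℕ) (hq : 1 ≤ q) (hs : ∀ j : ℕ, 1 ≤ j → j ≤ q → sn β j ≠ 0)
    (u : ℤ → ℂ) (m : ℤ) :
    PP β q u m - Kop β q u m = ∑ x ∈ nc q,
      (bb β q x.1 : ℂ) * ((bb β q x.2 : ℂ) * WW β ((x.1 : ℤ) + x.2 - q) ((x.1 : ℤ) - x.2) u m) := by
  rw [PP_expand β q hs u m, ← sum_product']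
  rw [← sum_sdiff (corners_sub q), sum_corners q hq]
  have h : ∀ a b c : ℂ, b = c → a + b - c = a := by intro a b c h; rw [h]; ring
  unfold nc
  apply h
  simp only [bb_zero, bb_self β q hs]
  unfold WW Kop
  have e1 : (((0 : ℕ) : ℤ) + ((0 : ℕ) : ℤ) - (q : ℤ)) = -(q : ℤ) := by push_cast; ring
  have e2 : (((0 : ℕ) : ℤ) + (q : ℤ) - (q : ℤ)) = 0 := by push_cast; ring
  have e3 : ((q : ℤ) + ((0 : ℕ) : ℤ) - (q : ℤ)) = 0 := by push_cast; ring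
  have e4 : ((q : ℤ) + (q : ℤ) - (q : ℤ)) = q := by ring
  rw [e1, e2, e3, e4]
  have c : (((2 * Real.cos (2 * Real.pi * (q * (m * β))) : ℝ)) : ℂ)
      = ee (q * (m * β)) + ee (-(q * (m * β))) := by rw [ee_add_ee_neg]
  rw [c]
  have f1 : ee (((((0 : ℕ) : ℤ) - ((0 : ℕ) : ℤ) : ℤ) : ℝ) * β * (m + ((-(q : ℤ) : ℤ) : ℝ) / 2)) = 1 := by
    rw [← ee_zero]; congr 1; push_cast; ring
  have f2 : ee (((((0 : ℕ) : ℤ) - (q : ℤ) : ℤ) : ℝ) * β * (m + ((0 : ℤ) : ℝ) / 2))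
      = ee (-(q * (m * β))) := by
    congr 1; push_cast; ring
  have f3 : ee ((((q : ℤ) - ((0 : ℕ) : ℤ) : ℤ) : ℝ) * β * (m + ((0 : ℤ) : ℝ) / 2))
      = ee (q * (m * β)) := by
    congr 1; push_cast; ring
  have f4 : ee ((((q : ℤ) - (q : ℤ) : ℤ) : ℝ) * β * (m + ((q : ℤ) : ℝ) / 2)) = 1 := by
    rw [← ee_zero]; congr 1; push_cast; ring
  rw [f1, f2, f3, f4]
  have g1 : m + -(q : ℤ) = m - q := by ring
  rw [g1, add_zero]
  push_cast
  ring

theorem norm_WW (β : ℝ) (a b : ℤ) (u : ℤ → ℂ) (m : ℤ) : ‖WW β a b u m‖ = ‖u (m + a)‖ := by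
  unfold WW; rw [norm_mul, norm_ee, one_mul]

theorem PP_bound (β : ℝ) (n : ℕ) (hs : ∀ j : ℕ, 1 ≤ j → j ≤ n → sn β j ≠ 0) (u : ℤ → ℂ) (m : ℤ)
    (G : ℝ) (hG : ∀ i : ℤ, |i| ≤ n → ‖u (m + i)‖ ≤ G) : ‖PP β n u m‖ ≤ Cb β n ^ 2 * G := by
  rw [PP_expand β n hs u m]
  calc ‖∑ k ∈ range (n + 1), ∑ l ∈ range (n + 1),
      (bb β n k : ℂ) * ((bb β n l : ℂ) * WW β ((k : ℤ) + l - n) ((k : ℤ) - l) u m)‖
      ≤ ∑ k ∈ range (n + 1), ∑ l ∈ range (n + 1), |bb β n k| * (|bb β n l| * G) := by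
        refine (norm_sum_le _ _).trans (sum_le_sum fun k hk => ?_)
        refine (norm_sum_le _ _).trans (sum_le_sum fun l hl => ?_)
        rw [norm_mul, norm_mul, norm_WW, Complex.norm_real, Complex.norm_real,
          Real.norm_eq_abs, Real.norm_eq_abs]
        have hk' := mem_range.mp hk
        have hl' := mem_range.mp hl
        gcongr
        apply hG
        rw [abs_le]; constructor <;> omega
    _ = Cb β n ^ 2 * G := by
        unfold Cb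
        rw [sq, sum_mul_sum, sum_mul]
        apply sum_congr rfl; intro k _
        rw [sum_mul]
        apply sum_congr rfl; intro l _
        ring

/-- the size of the error term -/
noncomputable def er (β : ℝ) (q : ℕ) : ℝ := Cb β q ^ 2 - 4

theorem sum_nc (β : ℝ) (q : ℕ) (hq : 1 ≤ q) (hs : ∀ j : ℕ, 1 ≤ j → j ≤ q → sn β j ≠ 0) :
    ∑ x ∈ nc q, |bb β q x.1| * |bb β q x.2| = er β q := by
  have h1 : ∑ x ∈ (range (q + 1)) ×ˢ (range (q + 1)), |bb β q x.1| * |bb β q x.2| = Cb β q ^ 2 := by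
    rw [sum_product]; unfold Cb; rw [sq, sum_mul_sum]
  rw [← sum_sdiff (corners_sub q), sum_corners q hq] at h1
  simp only [bb_zero, bb_self β q hs] at h1
  unfold nc er
  rw [← h1]
  norm_num

theorem er_nonneg (β : ℝ) (q : ℕ) (hq : 1 ≤ q) (hs : ∀ j : ℕ, 1 ≤ j → j ≤ q → sn β j ≠ 0) :
    0 ≤ er β q := by
  rw [← sum_nc β q hq hs]
  exact sum_nonneg fun x _ => by positivity

theorem PP_err_bound (β : ℝ) (q : ℕ) (hq : 1 ≤ q) (hs : ∀ j : ℕ, 1 ≤ j → j ≤ q → sn β j ≠ 0)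
    (u : ℤ → ℂ) (m : ℤ) (G : ℝ) (hG : ∀ i : ℤ, |i| ≤ q → ‖u (m + i)‖ ≤ G) :
    ‖PP β q u m - Kop β q u m‖ ≤ er β q * G := by
  rw [PP_err_eq β q hq hs, ← sum_nc β q hq hs, sum_mul]
  refine (norm_sum_le _ _).trans (sum_le_sum fun x hx => ?_)
  rw [norm_mul, norm_mul, norm_WW, Complex.norm_real, Complex.norm_real,
    Real.norm_eq_abs, Real.norm_eq_abs, mul_assoc]
  unfold nc at hx
  have hx' := (mem_sdiff.mp hx).1
  rw [mem_product, mem_range, mem_range] at hx'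
  gcongr
  apply hG
  rw [abs_le]; constructor <;> omega

/-- shift of a sum of squares of a function supported on an interval -/
theorem sum_shift_le (u : ℤ → ℂ) (a b : ℤ) (hu : ∀ m, m ∉ Ico a b → u m = 0) (S : Finset ℤ) (i : ℤ) :
    ∑ m ∈ S, ‖u (m + i)‖ ^ 2 ≤ ∑ m ∈ Ico a b, ‖u m‖ ^ 2 := by
  calc ∑ m ∈ S, ‖u (m + i)‖ ^ 2 = ∑ m ∈ S.map (addRightEmbedding i), ‖u m‖ ^ 2 := by
        rw [sum_map]; rfl
    _ = ∑ m ∈ (S.map (addRightEmbedding i)).filter (fun m => m ∈ Ico a b), ‖u m‖ ^ 2 := by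
        rw [sum_filter]
        apply sum_congr rfl; intro m _
        by_cases h : m ∈ Ico a b
        · rw [if_pos h]
        · rw [if_neg h, hu m h]; simp
    _ ≤ ∑ m ∈ Ico a b, ‖u m‖ ^ 2 := by
        apply sum_le_sum_of_subset_of_nonneg
        · intro m hm; exact (mem_filter.mp hm).2
        · intro m _ _; positivity

theorem PP_err_l2 (β : ℝ) (q : ℕ) (hq : 1 ≤ q) (hs : ∀ j : ℕ, 1 ≤ j → j ≤ q → sn β j ≠ 0)
    (u : ℤ → ℂ) (a b : ℤ) (hu : ∀ m, m ∉ Ico a b → u m = 0) (S : Finset ℤ) :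
    ∑ m ∈ S, ‖PP β q u m - Kop β q u m‖ ^ 2 ≤ er β q ^ 2 * ∑ m ∈ Ico a b, ‖u m‖ ^ 2 := by
  have step : ∀ m, ‖PP β q u m - Kop β q u m‖ ^ 2 ≤ er β q *
      ∑ x ∈ nc q, (|bb β q x.1| * |bb β q x.2|) * ‖u (m + ((x.1 : ℤ) + x.2 - q))‖ ^ 2 := by
    intro m
    have h1 : ‖PP β q u m - Kop β q u m‖ ≤
        ∑ x ∈ nc q, (|bb β q x.1| * |bb β q x.2|) * ‖u (m + ((x.1 : ℤ) + x.2 - q))‖ := by
      rw [PP_err_eq β q hq hs]
      refine (norm_sum_le _ _).trans (sum_le_sum fun x hx => ?_)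
      rw [norm_mul, norm_mul, norm_WW, Complex.norm_real, Complex.norm_real,
        Real.norm_eq_abs, Real.norm_eq_abs, mul_assoc]
    have h2 : (∑ x ∈ nc q, (|bb β q x.1| * |bb β q x.2|) * ‖u (m + ((x.1 : ℤ) + x.2 - q))‖) ^ 2
        ≤ (∑ x ∈ nc q, (|bb β q x.1| * |bb β q x.2|)) *
          ∑ x ∈ nc q, (|bb β q x.1| * |bb β q x.2|) * ‖u (m + ((x.1 : ℤ) + x.2 - q))‖ ^ 2 := by
      have := sum_mul_sq_le_sq_mul_sq (nc q) (fun x => Real.sqrt (|bb β q x.1| * |bb β q x.2|))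
        (fun x => Real.sqrt (|bb β q x.1| * |bb β q x.2|) * ‖u (m + ((x.1 : ℤ) + x.2 - q))‖)
      have e1 : ∀ x : ℕ × ℕ, Real.sqrt (|bb β q x.1| * |bb β q x.2|) ^ 2
          = |bb β q x.1| * |bb β q x.2| := fun x => Real.sq_sqrt (by positivity)
      have e2 : ∀ x : ℕ × ℕ, Real.sqrt (|bb β q x.1| * |bb β q x.2|) *
          (Real.sqrt (|bb β q x.1| * |bb β q x.2|) * ‖u (m + ((x.1 : ℤ) + x.2 - q))‖)
          = (|bb β q x.1| * |bb β q x.2|) * ‖u (m + ((x.1 : ℤ) + x.2 - q))‖ := by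
        intro x; rw [← mul_assoc, ← sq, e1]
      simp only [e2, mul_pow, e1] at this
      exact this
    calc ‖PP β q u m - Kop β q u m‖ ^ 2 ≤ _ := pow_le_pow_left₀ (norm_nonneg _) h1 2
      _ ≤ _ := h2
      _ = _ := by rw [sum_nc β q hq hs]
  calc ∑ m ∈ S, ‖PP β q u m - Kop β q u m‖ ^ 2
      ≤ ∑ m ∈ S, er β q * ∑ x ∈ nc q, (|bb β q x.1| * |bb β q x.2|) *
          ‖u (m + ((x.1 : ℤ) + x.2 - q))‖ ^ 2 := sum_le_sum fun m _ => step m
    _ = er β q * ∑ x ∈ nc q, (|bb β q x.1| * |bb β q x.2|) *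
          ∑ m ∈ S, ‖u (m + ((x.1 : ℤ) + x.2 - q))‖ ^ 2 := by
        rw [← mul_sum, sum_comm]
        congr 1
        apply sum_congr rfl; intro x _
        rw [mul_sum]
    _ ≤ er β q * ∑ x ∈ nc q, (|bb β q x.1| * |bb β q x.2|) * ∑ m ∈ Ico a b, ‖u m‖ ^ 2 := by
        apply mul_le_mul_of_nonneg_left _ (er_nonneg β q hq hs)
        apply sum_le_sum; intro x _
        apply mul_le_mul_of_nonneg_left _ (by positivity)
        exact sum_shift_le u a b hu S _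
    _ = er β q ^ 2 * ∑ m ∈ Ico a b, ‖u m‖ ^ 2 := by
        rw [← sum_mul, sum_nc β q hq hs]; ring

end Run7.h608
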