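import Pool.Agent.Run7.h608.Dim

set_option autoImplicit false

namespace Run7.h608

open Finset

theorem Cb_one (β : ℝ) (h : sn β 1 ≠ 0) : Cb β 1 ^ 2 ≤ 5 := by
  have : Cb β 1 = 2 := by
    unfold Cb bb
    simp only [sum_range_succ, sum_range_zero, prod_range_succ, prod_range_zero, Nat.cast_one,
      Nat.cast_zero, sub_zero, zero_add, one_mul, abs_one]
    rw [div_self h]; norm_num
  rw [this]; norm_num

/-- separated eigenvalues of the `N`-periodic problem -/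
structure PerFam (β : ℝ) (N : ℕ) (ε : ℝ) (ι : Type) [Fintype ι] (E : ι → ℝ) : Prop where
  sep : ∀ i j, i ≠ j → ε ≤ |E i - E j|
  eig : ∀ i, ∃ ψ : ℤ → ℂ, (∃ n, ψ n ≠ 0) ∧ (∀ n, ψ (n + N) = ψ n) ∧ HH β ψ = (E i : ℂ) • ψ

theorem kap_nonneg (s : ℝ) : 0 ≤ kap s := by unfold kap; split_ifs <;> norm_num
theorem kap_le (s : ℝ) : kap s ≤ 1 / 2 := by unfold kap; split_ifs <;> norm_num

theorem est_gen (β θ : ℝ) (p : ℤ) (q : ℕ) (L : Lev β θ p q) (N : ℕ)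
    (hPar : ParsevalAt β N) (Ls : ℝ) (hLs : 0 ≤ Ls) (hSv : SieveAt β (1 / θ) Ls)
    (hNbig : 1 / θ + 1 ≤ N) (hN2 : 2 / θ ≤ N)
    (η : ℝ) (hη : 0 < η) (hη1 : η ≤ 1) (her : er β q ≤ η / 16)
    (W : ℕ) (hW : 4 * Real.pi * (W + 1) * θ ≤ Real.sqrt η)
    (ε : ℝ) (hε : 0 < ε) {ι : Type} [Fintype ι] (E : ι → ℝ) (hfam : PerFam β N ε ι E)
    (s0 : ℝ) (hκ : ∀ i, kap (pp β (E i) q) = kap s0) (hsE : ∀ i, η ≤ |pp β (E i) q|)
    (hsm : 2 * eps2 (1 / θ) η q W * (1 / θ + 1) ^ 2 / ε * Fintype.card ι ≤ 1 / θ / 40)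
    (D : ℝ)
    (hD : ∀ (a b : ℤ) (ι' : Type) [Fintype ι'] (E' : ι' → ℝ) (v : ι' → ℤ → ℂ),
      Fam β (1 / θ) (eps2 (1 / θ) η q W) ε a b ι' E' v →
      (∀ j : ℕ, j ≤ q → Cb β j ^ 2 ≤ 5 → ∀ i m,
        ‖PP β j (v i) m - ((pp β (E' i) j : ℝ) : ℂ) * v i m‖ ≤ eps2 (1 / θ) η q W) →
      (∀ i, ∃ i0, E' i = E i0) → Fintype.card ι' ≤ Fintype.card ι →
      (Fintype.card ι' : ℝ) ≤ D) :
    (Fintype.card ι : ℝ) ≤ 4 * θ * Ls * D := by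
  classical
  have hθ := L.hθ
  have hR0 : 0 < 1 / θ := by positivity
  have hN : 0 < N := by
    have : (0 : ℝ) < N := by linarith
    exact_mod_cast this
  have hloc : ∀ i, ∃ u : ℤ → ℂ, (∑ n ∈ range N, ‖u (n : ℤ)‖ ^ 2 = N) ∧
      (∀ c d : ℤ, (d : ℝ) - c ≤ 1 / θ + 1 → ∑ n ∈ Ico c d, ‖u n‖ ^ 2 ≤ Ls) ∧
      (∀ m, ‖u m‖ ≤ 1 / θ + 1) ∧
      (∀ j : ℕ, j ≤ q → Cb β j ^ 2 ≤ 5 → ∀ k m : ℤ,
        ‖PP β j (cutf (cen θ (kap s0) k) (cen θ (kap s0) (k + 1)) u) m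
          - ((pp β (E i) j : ℝ) : ℂ) *
            cutf (cen θ (kap s0) k) (cen θ (kap s0) (k + 1)) u m‖
          ≤ eps2 (1 / θ) η q W) := by
    intro i
    obtain ⟨ψ, h0, h1, h2⟩ := hfam.eig i
    have := loc β θ p q L N hN hPar Ls hSv hNbig η hη hη1 her W hW (E i) ψ h0 h1 h2 (hsE i)
    rw [hκ i] at this
    exact this
  choose u hu1 hu2 hu3 hu4 using hloc
  have he0 : 0 ≤ eps2 (1 / θ) η q W := by
    unfold eps2; have := XX_pos η q W; positivity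
  have hs1 : sn β 1 ≠ 0 := by
    have := L.hs 1 le_rfl L.hq; simpa using this
  apply count θ (kap s0) hθ (kap_nonneg _) (kap_le _) N hN2 Ls hLs u hu1 hu2
  intro k I hI
  set a : ℤ := cen θ (kap s0) k with ha
  set b : ℤ := cen θ (kap s0) (k + 1) with hb
  have hres : ∀ j : ℕ, j ≤ q → Cb β j ^ 2 ≤ 5 → ∀ (i : I) (m : ℤ),
      ‖PP β j (cutf a b (u i)) m - ((pp β (E i) j : ℝ) : ℂ) * cutf a b (u i) m‖
        ≤ eps2 (1 / θ) η q W := by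
    intro j hj hC i m
    exact hu4 i j hj hC k m
  have hcard : Fintype.card I ≤ Fintype.card ι := by
    rw [Fintype.card_coe]; exact card_le_univ I
  have F : Fam β (1 / θ) (eps2 (1 / θ) η q W) ε a b I (fun i : I => E i)
      (fun i : I => cutf a b (u i)) := by
    refine ⟨cen_mono θ _ hθ k, cen_len θ _ k, hR0, he0, hε, fun i => cutf_supp a b _, ?_, ?_, ?_,
      ?_, ?_⟩
    · intro i m
      simp only [cutf]
      split_ifs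
      · exact hu3 i m
      · rw [norm_zero]; positivity
    · intro i m
      have := hres 1 L.hq (Cb_one β hs1) i m
      simpa [PP, pp] using this
    · intro i j hij
      apply hfam.sep
      intro h; apply hij; exact Subtype.ext h
    · intro i
      have h1 := hI i i.2
      have e1 : ∑ m ∈ Ico a b, ‖cutf a b (u i) m‖ ^ 2 = ∑ m ∈ Ico a b, ‖u i m‖ ^ 2 := by
        apply sum_congr rfl; intro m hm; simp only [cutf, if_pos hm]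
      rw [e1]
      refine le_trans (le_of_eq ?_) h1
      field_simp
    · refine le_trans ?_ hsm
      have : (Fintype.card I : ℝ) ≤ Fintype.card ι := by exact_mod_cast hcard
      gcongr
  have := hD a b I (fun i : I => E i) (fun i : I => cutf a b (u i)) F
    (fun j hj hC i m => hres j hj hC i m) (fun i => ⟨i, rfl⟩) hcard
  rwa [Fintype.card_coe] at this

theorem estA (β θ : ℝ) (p : ℤ) (q : ℕ) (L : Lev β θ p q) (N : ℕ)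
    (hPar : ParsevalAt β N) (Ls : ℝ) (hLs : 0 ≤ Ls) (hSv : SieveAt β (1 / θ) Ls)
    (hNbig : 1 / θ + 1 ≤ N) (hN2 : 2 / θ ≤ N)
    (η : ℝ) (hη : 0 < η) (hη1 : η ≤ 1) (her : er β q ≤ η / 16)
    (W : ℕ) (hW : 4 * Real.pi * (W + 1) * θ ≤ Real.sqrt η)
    (ε : ℝ) (hε : 0 < ε) {ι : Type} [Fintype ι] (E : ι → ℝ) (hfam : PerFam β N ε ι E)
    (s0 : ℝ) (hκ : ∀ i, kap (pp β (E i) q) = kap s0) (hsE : ∀ i, η ≤ |pp β (E i) q|)
    (hsm : 2 * eps2 (1 / θ) η q W * (1 / θ + 1) ^ 2 / ε * Fintype.card ι ≤ 1 / θ / 40) :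
    (Fintype.card ι : ℝ) ≤ 4 * θ * Ls * (1 / θ + 1) := by
  apply est_gen β θ p q L N hPar Ls hLs hSv hNbig hN2 η hη hη1 her W hW ε hε E hfam s0 hκ hsE hsm
  intro a b ι' _ E' v F _ _ _
  exact F.cardA

/-- the dimension bound of piece C at one frequency -/
def DimBd (β : ℝ) (q : ℕ) (η R D : ℝ) : Prop :=
  ∀ (a b : ℤ), a ≤ b → (b : ℝ) - a ≤ R + 1 → ∀ (ι : Type) [Fintype ι] (v : ι → ℤ → ℂ),
    (∀ i, Supp (v i) a b) → (∀ c : ι → ℂ, (∀ m, ∑ i, c i * v i m = 0) → c = 0) →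
    (∀ c : ι → ℂ, ∀ w : ℤ → ℂ, (∀ m, w m = ∑ i, c i * v i m) →
      ∑ m ∈ Ico (a - q) (b + q), ‖Kop β q w m‖ ^ 2 ≤ (3 * η) ^ 2 * ∑ m ∈ Ico a b, ‖w m‖ ^ 2) →
    (Fintype.card ι : ℝ) ≤ D

theorem estB (β θ : ℝ) (p : ℤ) (q : ℕ) (L : Lev β θ p q) (N : ℕ)
    (hPar : ParsevalAt β N) (Ls : ℝ) (hLs : 0 ≤ Ls) (hSv : SieveAt β (1 / θ) Ls)
    (hNbig : 1 / θ + 1 ≤ N) (hN2 : 2 / θ ≤ N)
    (η : ℝ) (hη : 0 < η) (hη1 : η ≤ 1) (her : er β q ≤ η / 16)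
    (W : ℕ) (hW : 4 * Real.pi * (W + 1) * θ ≤ Real.sqrt η)
    (ε : ℝ) (hε : 0 < ε) {ι : Type} [Fintype ι] (E : ι → ℝ) (hfam : PerFam β N ε ι E)
    (s0 : ℝ) (hκ : ∀ i, kap (pp β (E i) q) = kap s0) (hsE : ∀ i, η ≤ |pp β (E i) q|)
    (hsm : 2 * eps2 (1 / θ) η q W * (1 / θ + 1) ^ 2 / ε * Fintype.card ι ≤ 1 / θ / 40)
    (q' : ℕ) (hq' : 1 ≤ q') (hqq : q' ≤ q) (η' : ℝ) (hη' : 0 < η') (hη1' : η' ≤ 1)
    (her' : er β q' ≤ η') (hpp' : ∀ i, |pp β (E i) q'| ≤ η')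
    (hsm2 : (1 / θ + 1 + 2 * q') * eps2 (1 / θ) η q W ^ 2 * Fintype.card ι ≤ η' ^ 2 * (1 / θ) / 20)
    (D : ℝ) (hDim : DimBd β q' η' (1 / θ) D) :
    (Fintype.card ι : ℝ) ≤ 4 * θ * Ls * D := by
  have hθ := L.hθ
  apply est_gen β θ p q L N hPar Ls hLs hSv hNbig hN2 η hη hη1 her W hW ε hε E hfam s0 hκ hsE hsm
  intro a b ι' _ E' v F hres hE' hcard
  have hs' : ∀ j : ℕ, 1 ≤ j → j ≤ q' → sn β j ≠ 0 := fun j hj hjq => L.hs j hj (hjq.trans hqq)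
  apply hDim a b F.hab F.hlen ι' v F.supp F.ind
  intro c w hw
  have hC' : Cb β q' ^ 2 ≤ 5 := by unfold er at her'; linarith
  refine F.opK q' hq' hs' η' hη' her' ?_ (hres q' hqq hC') ?_ c w hw
  · intro i
    obtain ⟨i0, h⟩ := hE' i
    rw [h]; exact hpp' i0
  · refine le_trans ?_ hsm2
    have : (Fintype.card ι' : ℝ) ≤ Fintype.card ι := by exact_mod_cast hcard
    gcongr

end Run7.h608
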