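import Pool.Agent.Run7.h608.Basic

set_option autoImplicit false

namespace Run7.h608

open Finset

/-- the scalar identity for the coefficients -/
theorem coeff_id (β : ℝ) (n k l : ℕ) (hS : sn β ((n : ℝ) + 2) ≠ 0)
    (hs : ∀ j : ℕ, 1 ≤ j → j ≤ n + 2 → sn β j ≠ 0) (hk : k ≤ n + 2) (hl : l ≤ n + 2) :
    (bm β (n + 1) k * bm β (n + 1) l : ℝ) * ee (((k : ℝ) - l) * β / 2)
      + (bb β (n + 1) k * bb β (n + 1) l : ℝ) * ee (-(((k : ℝ) - l) * β / 2))
      + (bm β (n + 1) k * bb β (n + 1) l : ℝ) * ee (-(((k : ℝ) + l - (n + 2)) * β / 2))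
      + (bb β (n + 1) k * bm β (n + 1) l : ℝ) * ee (((k : ℝ) + l - (n + 2)) * β / 2)
      - ((4 * sn β ((n : ℝ) + 1) ^ 2 : ℝ) : ℂ) * ((bm β n k * bm β n l : ℝ) : ℂ)
      = ((bb β (n + 2) k * bb β (n + 2) l : ℝ) : ℂ) := by
  set S := sn β ((n : ℝ) + 2) with hSdef
  set A : ℝ := Real.pi * β * (n + 2) / 2 with hA
  set R : ℝ := Real.pi * β * (2 * k - (n + 2)) / 2 with hR
  set T : ℝ := Real.pi * β * (2 * l - (n + 2)) / 2 with hT
  have hSA : S = Real.sin (2 * A) := by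
    rw [hSdef, hA]; unfold sn; congr 1; ring
  have hk0 : k ≠ 0 → sn β k ≠ 0 := fun h => hs k (Nat.one_le_iff_ne_zero.mpr h) hk
  have hl0 : l ≠ 0 → sn β l ≠ 0 := fun h => hs l (Nat.one_le_iff_ne_zero.mpr h) hl
  have e1 : ((n + 1 : ℕ) : ℝ) + 1 = (n : ℝ) + 2 := by push_cast; ring
  have k1 : S * bm β (n + 1) k = Real.sin (A + R) * bb β (n + 2) k := by
    have := bm_R β (n + 1) k hk0
    rw [e1] at this
    rw [hSdef, this]
    congr 1
    unfold sn; congr 1; rw [hA, hR]; ring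
  have k2 : S * bb β (n + 1) k = Real.sin (A - R) * bb β (n + 2) k := by
    have := bb_R1 β (n + 1) k
    rw [e1] at this
    rw [hSdef, ← this]
    congr 1
    unfold sn; congr 1; rw [hA, hR]; ring
  have l1 : S * bm β (n + 1) l = Real.sin (A + T) * bb β (n + 2) l := by
    have := bm_R β (n + 1) l hl0
    rw [e1] at this
    rw [hSdef, this]
    congr 1
    unfold sn; congr 1; rw [hA, hT]; ring
  have l2 : S * bb β (n + 1) l = Real.sin (A - T) * bb β (n + 2) l := by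
    have := bb_R1 β (n + 1) l
    rw [e1] at this
    rw [hSdef, ← this]
    congr 1
    unfold sn; congr 1; rw [hA, hT]; ring
  have k3 : S * (sn β ((n : ℝ) + 1) * bm β n k)
      = Real.sin (A + R) * Real.sin (A - R) * bb β (n + 2) k := by
    rw [bm_R β n k hk0]
    have : sn β k = Real.sin (A + R) := by
      unfold sn; congr 1; rw [hA, hR]; ring
    rw [this]
    calc S * (Real.sin (A + R) * bb β (n + 1) k) = Real.sin (A + R) * (S * bb β (n + 1) k) := by ring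
      _ = _ := by rw [k2]; ring
  have l3 : S * (sn β ((n : ℝ) + 1) * bm β n l)
      = Real.sin (A + T) * Real.sin (A - T) * bb β (n + 2) l := by
    rw [bm_R β n l hl0]
    have : sn β l = Real.sin (A + T) := by
      unfold sn; congr 1; rw [hA, hT]; ring
    rw [this]
    calc S * (Real.sin (A + T) * bb β (n + 1) l) = Real.sin (A + T) * (S * bb β (n + 1) l) := by ring
      _ = _ := by rw [l2]; ring
  have x1 : ee (((k : ℝ) - l) * β / 2)
      = Complex.exp (-(T : ℂ) * Complex.I) * Complex.exp ((R : ℂ) * Complex.I) := by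
    unfold ee; rw [← Complex.exp_add]; congr 1; rw [hR, hT]; push_cast; ring
  have x2 : ee (-(((k : ℝ) - l) * β / 2))
      = Complex.exp ((T : ℂ) * Complex.I) * Complex.exp (-(R : ℂ) * Complex.I) := by
    unfold ee; rw [← Complex.exp_add]; congr 1; rw [hR, hT]; push_cast; ring
  have x3 : ee (-(((k : ℝ) + l - (n + 2)) * β / 2))
      = Complex.exp (-(T : ℂ) * Complex.I) * Complex.exp (-(R : ℂ) * Complex.I) := by
    unfold ee; rw [← Complex.exp_add]; congr 1; rw [hR, hT]; push_cast; ring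
  have x4 : ee (((k : ℝ) + l - (n + 2)) * β / 2)
      = Complex.exp ((T : ℂ) * Complex.I) * Complex.exp ((R : ℂ) * Complex.I) := by
    unfold ee; rw [← Complex.exp_add]; congr 1; rw [hR, hT]; push_cast; ring
  rw [x1, x2, x3, x4]
  have hS2 : ((S : ℂ)) ^ 2 ≠ 0 := by
    apply pow_ne_zero; exact_mod_cast hS
  apply mul_left_cancel₀ hS2
  have tc := trig_core A R T
  rw [← hSA] at tc
  set eT := Complex.exp ((T : ℂ) * Complex.I)
  set eT' := Complex.exp (-(T : ℂ) * Complex.I)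
  set eR := Complex.exp ((R : ℂ) * Complex.I)
  set eR' := Complex.exp (-(R : ℂ) * Complex.I)
  have k1' : (S : ℂ) * (bm β (n + 1) k : ℂ) = (Real.sin (A + R) : ℂ) * (bb β (n + 2) k : ℂ) := by
    exact_mod_cast k1
  have k2' : (S : ℂ) * (bb β (n + 1) k : ℂ) = (Real.sin (A - R) : ℂ) * (bb β (n + 2) k : ℂ) := by
    exact_mod_cast k2
  have l1' : (S : ℂ) * (bm β (n + 1) l : ℂ) = (Real.sin (A + T) : ℂ) * (bb β (n + 2) l : ℂ) := by
    exact_mod_cast l1
  have l2' : (S : ℂ) * (bb β (n + 1) l : ℂ) = (Real.sin (A - T) : ℂ) * (bb β (n + 2) l : ℂ) := by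
    exact_mod_cast l2
  have k3' : (S : ℂ) * ((sn β ((n : ℝ) + 1) : ℂ) * (bm β n k : ℂ))
      = (Real.sin (A + R) : ℂ) * (Real.sin (A - R) : ℂ) * (bb β (n + 2) k : ℂ) := by
    exact_mod_cast k3
  have l3' : (S : ℂ) * ((sn β ((n : ℝ) + 1) : ℂ) * (bm β n l : ℂ))
      = (Real.sin (A + T) : ℂ) * (Real.sin (A - T) : ℂ) * (bb β (n + 2) l : ℂ) := by
    exact_mod_cast l3
  have lhs : (S : ℂ) ^ 2 * (((bm β (n + 1) k * bm β (n + 1) l : ℝ) : ℂ) * (eT' * eR)
      + ((bb β (n + 1) k * bb β (n + 1) l : ℝ) : ℂ) * (eT * eR')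
      + ((bm β (n + 1) k * bb β (n + 1) l : ℝ) : ℂ) * (eT' * eR')
      + ((bb β (n + 1) k * bm β (n + 1) l : ℝ) : ℂ) * (eT * eR)
      - ((4 * sn β ((n : ℝ) + 1) ^ 2 : ℝ) : ℂ) * ((bm β n k * bm β n l : ℝ) : ℂ))
      = ((S : ℂ) * (bm β (n + 1) k : ℂ) * eT' + (S : ℂ) * (bb β (n + 1) k : ℂ) * eT)
        * ((S : ℂ) * (bm β (n + 1) l : ℂ) * eR + (S : ℂ) * (bb β (n + 1) l : ℂ) * eR')
        - 4 * ((S : ℂ) * ((sn β ((n : ℝ) + 1) : ℂ) * (bm β n k : ℂ)))
          * ((S : ℂ) * ((sn β ((n : ℝ) + 1) : ℂ) * (bm β n l : ℂ))) := by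
    push_cast
    ring
  rw [lhs, k1', k2', l1', l2', k3', l3']
  have : (((Real.sin (A + R) : ℂ) * (bb β (n + 2) k : ℂ)) * eT'
        + ((Real.sin (A - R) : ℂ) * (bb β (n + 2) k : ℂ)) * eT)
        * (((Real.sin (A + T) : ℂ) * (bb β (n + 2) l : ℂ)) * eR
        + ((Real.sin (A - T) : ℂ) * (bb β (n + 2) l : ℂ)) * eR')
      = (((Real.sin (A + R) : ℂ) * eT' + (Real.sin (A - R) : ℂ) * eT)
        * ((Real.sin (A + T) : ℂ) * eR + (Real.sin (A - T) : ℂ) * eR'))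
        * ((bb β (n + 2) k : ℂ) * (bb β (n + 2) l : ℂ)) := by ring
  rw [this, tc]
  push_cast
  ring

theorem HH_WW (β : ℝ) (a b : ℤ) (u : ℤ → ℂ) (m : ℤ) :
    HH β (WW β a b u) m = ee (b * β / 2) * WW β (a + 1) b u m
      + ee (-(b * β / 2)) * WW β (a - 1) b u m
      + ee (-(a * β / 2)) * WW β a (b + 1) u m + ee (a * β / 2) * WW β a (b - 1) u m := by
  rw [HH_apply, pot_eq]
  unfold WW
  have e1 : (m + 1 + a : ℤ) = m + (a + 1) := by ring
  have e2 : (m - 1 + a : ℤ) = m + (a - 1) := by ring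
  rw [e1, e2, add_mul]
  have h1 : ee (↑b * β * (↑(m + 1) + ↑a / 2)) = ee (↑b * β / 2) * ee (↑b * β * (↑m + ↑(a + 1) / 2)) := by
    rw [← ee_add]; congr 1; push_cast; ring
  have h2 : ee (↑b * β * (↑(m - 1) + ↑a / 2)) = ee (-(↑b * β / 2)) * ee (↑b * β * (↑m + ↑(a - 1) / 2)) := by
    rw [← ee_add]; congr 1; push_cast; ring
  have h3 : ee (↑m * β) * (ee (↑b * β * (↑m + ↑a / 2)) * u (m + a))
      = ee (-(↑a * β / 2)) * (ee (↑(b + 1) * β * (↑m + ↑a / 2)) * u (m + a)) := by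
    rw [← mul_assoc, ← mul_assoc, ← ee_add, ← ee_add]; congr 2; push_cast; ring
  have h4 : ee (-(↑m * β)) * (ee (↑b * β * (↑m + ↑a / 2)) * u (m + a))
      = ee (↑a * β / 2) * (ee (↑(b - 1) * β * (↑m + ↑a / 2)) * u (m + a)) := by
    rw [← mul_assoc, ← mul_assoc, ← ee_add, ← ee_add]; congr 2; push_cast; ring
  rw [h1, h2, h3, h4]
  ring

end Run7.h608
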