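import Pool.Agent.Run7.h608.Expand

set_option autoImplicit false

namespace Run7.h608

open Finset

theorem sumA (β : ℝ) (N : ℕ) (g : ℕ → ℂ) :
    ∑ k ∈ range (N + 1), (bb β N k : ℂ) * g (k + 1) = ∑ k ∈ range (N + 2), (bm β N k : ℂ) * g k := by
  rw [sum_range_succ' (fun k => (bm β N k : ℂ) * g k)]
  simp [bm_zero, bm_succ]

theorem sumB (β : ℝ) (N : ℕ) (g : ℕ → ℂ) :
    ∑ k ∈ range (N + 1), (bb β N k : ℂ) * g k = ∑ k ∈ range (N + 2), (bb β N k : ℂ) * g k := by
  rw [sum_range_succ _ (N + 1), bb_gt β N (N + 1) (Nat.lt_succ_self N)]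
  simp

theorem sumC (β : ℝ) (N : ℕ) (g : ℕ → ℂ) :
    ∑ k ∈ range (N + 1), (bb β N k : ℂ) * g (k + 1) = ∑ k ∈ range (N + 3), (bm β N k : ℂ) * g k := by
  rw [sumA, sum_range_succ _ (N + 2), bm_succ, bb_gt β N (N + 1) (Nat.lt_succ_self N)]
  simp

theorem PP_expand (β : ℝ) (n : ℕ) (hs : ∀ j : ℕ, 1 ≤ j → j ≤ n → sn β j ≠ 0) (u : ℤ → ℂ) (m : ℤ) :
    PP β n u m = ∑ k ∈ range (n + 1), ∑ l ∈ range (n + 1),
      (bb β n k : ℂ) * ((bb β n l : ℂ) * WW β ((k : ℤ) + l - n) ((k : ℤ) - l) u m) := by
  induction n using Nat.strong_induction_on generalizing m with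
  | _ n ih =>
    match n, ih, hs with
    | 0, _, _ =>
      simp [PP, bb_zero, WW, ee_zero]
    | 1, _, hs =>
      have h1 : sn β 1 ≠ 0 := by simpa using hs 1 le_rfl le_rfl
      have b11 : bb β 1 1 = 1 := by
        have := bb_succ β 1 0
        simp [bb_zero] at this
        rw [this]; exact div_self h1
      have hP : PP β 1 u m = HH β u m := rfl
      rw [hP, HH_apply, pot_eq]
      simp only [sum_range_succ, sum_range_zero, bb_zero, b11]
      unfold WW
      have a1 : ee (m * β) = ee (((1 : ℤ) : ℝ) * β * (m + ((0 : ℤ) : ℝ) / 2)) := by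
        congr 1; push_cast; ring
      have a2 : ee (-(m * β)) = ee (((-1 : ℤ) : ℝ) * β * (m + ((0 : ℤ) : ℝ) / 2)) := by
        congr 1; push_cast; ring
      rw [a1, a2]
      simp [ee_zero]
      ring_nf
    | (n + 2), ih, hs =>
      have hsS : sn β ((n : ℝ) + 2) ≠ 0 := by
        have := hs (n + 2) (by omega) le_rfl
        push_cast at this; exact this
      have ih1 := fun m => ih (n + 1) (by omega) (fun j h1 h2 => hs j h1 (by omega)) m
      have ih0 := fun m => ih n (by omega) (fun j h1 h2 => hs j h1 (by omega)) m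
      have f1 : PP β (n + 1) u = ∑ k ∈ range (n + 2), ∑ l ∈ range (n + 2),
          ((bb β (n + 1) k : ℂ) * (bb β (n + 1) l : ℂ)) •
            (WW β ((k : ℤ) + l - (n + 1 : ℕ)) ((k : ℤ) - l) u) := by
        funext x
        rw [ih1 x, Finset.sum_apply]
        apply sum_congr rfl; intro k _
        rw [Finset.sum_apply]
        apply sum_congr rfl; intro l _
        simp only [Pi.smul_apply, smul_eq_mul]; ring
      have hstep : PP β (n + 2) u m = HH β (PP β (n + 1) u) m
          - ((4 * sn β (n + 1) ^ 2 : ℝ) : ℂ) * PP β n u m := rfl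
      rw [hstep, f1]
      set X : ℕ → ℕ → ℂ := fun k l => WW β ((k : ℤ) + l - (n + 2 : ℕ)) ((k : ℤ) - l) u m with hX
      have t1 : HH β (∑ k ∈ range (n + 2), ∑ l ∈ range (n + 2),
          ((bb β (n + 1) k : ℂ) * (bb β (n + 1) l : ℂ)) •
            (WW β ((k : ℤ) + l - (n + 1 : ℕ)) ((k : ℤ) - l) u)) m
          = ∑ k ∈ range (n + 2), ∑ l ∈ range (n + 2),
            ((bb β (n + 1) k : ℂ) * (bb β (n + 1) l : ℂ)) *
            (ee (((k : ℝ) - l) * β / 2) * X (k + 1) (l + 1)
              + ee (-(((k : ℝ) - l) * β / 2)) * X k l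
              + ee (-(((k : ℝ) + l - (n + 1)) * β / 2)) * X (k + 1) l
              + ee (((k : ℝ) + l - (n + 1)) * β / 2) * X k (l + 1)) := by
        rw [map_sum, Finset.sum_apply]
        apply sum_congr rfl; intro k _
        rw [map_sum, Finset.sum_apply]
        apply sum_congr rfl; intro l _
        rw [map_smul, Pi.smul_apply, smul_eq_mul, HH_WW]
        congr 1
        simp only [hX]
        have c1 : ((k : ℤ) + l - (n + 1 : ℕ) + 1) = (((k + 1 : ℕ) : ℤ) + ((l + 1 : ℕ) : ℤ) - (n + 2 : ℕ)) := by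
          push_cast; ring
        have c1' : ((k : ℤ) - l) = (((k + 1 : ℕ) : ℤ) - ((l + 1 : ℕ) : ℤ)) := by push_cast; ring
        have c2 : ((k : ℤ) + l - (n + 1 : ℕ) - 1) = ((k : ℤ) + l - (n + 2 : ℕ)) := by
          push_cast; ring
        have c3 : ((k : ℤ) + l - (n + 1 : ℕ)) = (((k + 1 : ℕ) : ℤ) + l - (n + 2 : ℕ)) := by
          push_cast; ring
        have c3' : ((k : ℤ) - l + 1) = (((k + 1 : ℕ) : ℤ) - l) := by push_cast; ring
        have c4 : ((k : ℤ) + l - (n + 1 : ℕ)) = ((k : ℤ) + ((l + 1 : ℕ) : ℤ) - (n + 2 : ℕ)) := by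
          push_cast; ring
        have c4' : ((k : ℤ) - l - 1) = ((k : ℤ) - ((l + 1 : ℕ) : ℤ)) := by push_cast; ring
        have d1 : WW β ((k : ℤ) + l - (n + 1 : ℕ) + 1) ((k : ℤ) - l) u m
            = WW β (((k + 1 : ℕ) : ℤ) + ((l + 1 : ℕ) : ℤ) - (n + 2 : ℕ))
              (((k + 1 : ℕ) : ℤ) - ((l + 1 : ℕ) : ℤ)) u m := by rw [c1, ← c1']
        have d2 : WW β ((k : ℤ) + l - (n + 1 : ℕ) - 1) ((k : ℤ) - l) u m
            = WW β ((k : ℤ) + l - (n + 2 : ℕ)) ((k : ℤ) - l) u m := by rw [c2]
        have d3 : WW β ((k : ℤ) + l - (n + 1 : ℕ)) ((k : ℤ) - l + 1) u m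
            = WW β (((k + 1 : ℕ) : ℤ) + l - (n + 2 : ℕ)) (((k + 1 : ℕ) : ℤ) - l) u m := by
          rw [c3, c3']
        have d4 : WW β ((k : ℤ) + l - (n + 1 : ℕ)) ((k : ℤ) - l - 1) u m
            = WW β ((k : ℤ) + ((l + 1 : ℕ) : ℤ) - (n + 2 : ℕ)) ((k : ℤ) - ((l + 1 : ℕ) : ℤ)) u m := by
          rw [c4, c4']
        rw [d1, d2, d3, d4]
        push_cast
        rfl
      rw [t1]
      have t0 : PP β n u m = ∑ k ∈ range (n + 3), ∑ l ∈ range (n + 3),
          (bm β n k : ℂ) * ((bm β n l : ℂ) * X k l) := by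
        rw [ih0 m]
        have : ∀ k l : ℕ, WW β ((k : ℤ) + l - n) ((k : ℤ) - l) u m = X (k + 1) (l + 1) := by
          intro k l
          simp only [hX]
          congr 1 <;> (push_cast; ring)
        simp_rw [this]
        have s1 : ∀ k : ℕ, ∑ l ∈ range (n + 1), (bb β n k : ℂ) * ((bb β n l : ℂ) * X (k + 1) (l + 1))
            = (bb β n k : ℂ) * ∑ l ∈ range (n + 3), (bm β n l : ℂ) * X (k + 1) l := by
          intro k
          rw [← mul_sum, sumC β n (fun l => X (k + 1) l)]
        simp_rw [s1]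
        rw [sumC β n (fun k => ∑ l ∈ range (n + 3), (bm β n l : ℂ) * X k l)]
        apply sum_congr rfl; intro k _
        rw [mul_sum]
      rw [t0]
      -- split the four sums
      have split : ∑ k ∈ range (n + 2), ∑ l ∈ range (n + 2),
            ((bb β (n + 1) k : ℂ) * (bb β (n + 1) l : ℂ)) *
            (ee (((k : ℝ) - l) * β / 2) * X (k + 1) (l + 1)
              + ee (-(((k : ℝ) - l) * β / 2)) * X k l
              + ee (-(((k : ℝ) + l - (n + 1)) * β / 2)) * X (k + 1) l
              + ee (((k : ℝ) + l - (n + 1)) * β / 2) * X k (l + 1))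
          = (∑ k ∈ range (n + 3), ∑ l ∈ range (n + 3),
              (bm β (n + 1) k : ℂ) * ((bm β (n + 1) l : ℂ) *
                (ee (((k : ℝ) - l) * β / 2) * X k l)))
            + (∑ k ∈ range (n + 3), ∑ l ∈ range (n + 3),
              (bb β (n + 1) k : ℂ) * ((bb β (n + 1) l : ℂ) *
                (ee (-(((k : ℝ) - l) * β / 2)) * X k l)))
            + (∑ k ∈ range (n + 3), ∑ l ∈ range (n + 3),
              (bm β (n + 1) k : ℂ) * ((bb β (n + 1) l : ℂ) *
                (ee (-(((k : ℝ) + l - (n + 2)) * β / 2)) * X k l)))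
            + (∑ k ∈ range (n + 3), ∑ l ∈ range (n + 3),
              (bb β (n + 1) k : ℂ) * ((bm β (n + 1) l : ℂ) *
                (ee (((k : ℝ) + l - (n + 2)) * β / 2) * X k l))) := by
        have r1 : ∑ k ∈ range (n + 3), ∑ l ∈ range (n + 3),
              (bm β (n + 1) k : ℂ) * ((bm β (n + 1) l : ℂ) *
                (ee (((k : ℝ) - l) * β / 2) * X k l))
            = ∑ k ∈ range (n + 2), ∑ l ∈ range (n + 2),
              (bb β (n + 1) k : ℂ) * ((bb β (n + 1) l : ℂ) *
                (ee (((k : ℝ) - l) * β / 2) * X (k + 1) (l + 1))) := by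
          have : ∀ k : ℕ, ∑ l ∈ range (n + 3),
              (bm β (n + 1) k : ℂ) * ((bm β (n + 1) l : ℂ) *
                (ee (((k : ℝ) - l) * β / 2) * X k l))
              = (bm β (n + 1) k : ℂ) * ∑ l ∈ range (n + 2), (bb β (n + 1) l : ℂ) *
                (ee (((k : ℝ) - ((l + 1 : ℕ) : ℝ)) * β / 2) * X k (l + 1)) := by
            intro k
            rw [← mul_sum, sumA β (n + 1) (fun l => (ee (((k : ℝ) - l) * β / 2) * X k l))]
          simp_rw [this]
          rw [← sumA β (n + 1) (fun k => ∑ l ∈ range (n + 2), (bb β (n + 1) l : ℂ) *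
                (ee (((k : ℝ) - ((l + 1 : ℕ) : ℝ)) * β / 2) * X k (l + 1)))]
          apply sum_congr rfl; intro k _
          rw [mul_sum]
          apply sum_congr rfl; intro l _
          have : (((k + 1 : ℕ) : ℝ) - ((l + 1 : ℕ) : ℝ)) = (k : ℝ) - l := by push_cast; ring
          rw [this]
        have r2 : ∑ k ∈ range (n + 3), ∑ l ∈ range (n + 3),
              (bb β (n + 1) k : ℂ) * ((bb β (n + 1) l : ℂ) *
                (ee (-(((k : ℝ) - l) * β / 2)) * X k l))
            = ∑ k ∈ range (n + 2), ∑ l ∈ range (n + 2),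
              (bb β (n + 1) k : ℂ) * ((bb β (n + 1) l : ℂ) *
                (ee (-(((k : ℝ) - l) * β / 2)) * X k l)) := by
          have : ∀ k : ℕ, ∑ l ∈ range (n + 3),
              (bb β (n + 1) k : ℂ) * ((bb β (n + 1) l : ℂ) *
                (ee (-(((k : ℝ) - l) * β / 2)) * X k l))
              = (bb β (n + 1) k : ℂ) * ∑ l ∈ range (n + 2), (bb β (n + 1) l : ℂ) *
                (ee (-(((k : ℝ) - l) * β / 2)) * X k l) := by
            intro k
            rw [← mul_sum, sumB β (n + 1) (fun l => (ee (-(((k : ℝ) - l) * β / 2)) * X k l))]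
          simp_rw [this]
          rw [← sumB β (n + 1) (fun k => ∑ l ∈ range (n + 2), (bb β (n + 1) l : ℂ) *
                (ee (-(((k : ℝ) - l) * β / 2)) * X k l))]
          apply sum_congr rfl; intro k _
          rw [mul_sum]
        have r3 : ∑ k ∈ range (n + 3), ∑ l ∈ range (n + 3),
              (bm β (n + 1) k : ℂ) * ((bb β (n + 1) l : ℂ) *
                (ee (-(((k : ℝ) + l - (n + 2)) * β / 2)) * X k l))
            = ∑ k ∈ range (n + 2), ∑ l ∈ range (n + 2),
              (bb β (n + 1) k : ℂ) * ((bb β (n + 1) l : ℂ) *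
                (ee (-(((k : ℝ) + l - (n + 1)) * β / 2)) * X (k + 1) l)) := by
          have : ∀ k : ℕ, ∑ l ∈ range (n + 3),
              (bm β (n + 1) k : ℂ) * ((bb β (n + 1) l : ℂ) *
                (ee (-(((k : ℝ) + l - (n + 2)) * β / 2)) * X k l))
              = (bm β (n + 1) k : ℂ) * ∑ l ∈ range (n + 2), (bb β (n + 1) l : ℂ) *
                (ee (-(((k : ℝ) + l - (n + 2)) * β / 2)) * X k l) := by
            intro k
            rw [← mul_sum, sumB β (n + 1) (fun l => (ee (-(((k : ℝ) + l - (n + 2)) * β / 2)) * X k l))]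
          simp_rw [this]
          rw [← sumA β (n + 1) (fun k => ∑ l ∈ range (n + 2), (bb β (n + 1) l : ℂ) *
                (ee (-(((k : ℝ) + l - (n + 2)) * β / 2)) * X k l))]
          apply sum_congr rfl; intro k _
          rw [mul_sum]
          apply sum_congr rfl; intro l _
          have : (((k + 1 : ℕ) : ℝ) + l - (n + 2)) = (k : ℝ) + l - (n + 1) := by push_cast; ring
          rw [this]
        have r4 : ∑ k ∈ range (n + 3), ∑ l ∈ range (n + 3),
              (bb β (n + 1) k : ℂ) * ((bm β (n + 1) l : ℂ) *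
                (ee (((k : ℝ) + l - (n + 2)) * β / 2) * X k l))
            = ∑ k ∈ range (n + 2), ∑ l ∈ range (n + 2),
              (bb β (n + 1) k : ℂ) * ((bb β (n + 1) l : ℂ) *
                (ee (((k : ℝ) + l - (n + 1)) * β / 2) * X k (l + 1))) := by
          have : ∀ k : ℕ, ∑ l ∈ range (n + 3),
              (bb β (n + 1) k : ℂ) * ((bm β (n + 1) l : ℂ) *
                (ee (((k : ℝ) + l - (n + 2)) * β / 2) * X k l))
              = (bb β (n + 1) k : ℂ) * ∑ l ∈ range (n + 2), (bb β (n + 1) l : ℂ) *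
                (ee (((k : ℝ) + l - (n + 1)) * β / 2) * X k (l + 1)) := by
            intro k
            rw [← mul_sum, ← sumA β (n + 1) (fun l => (ee (((k : ℝ) + l - (n + 2)) * β / 2) * X k l))]
            congr 1
            apply sum_congr rfl; intro l _
            have : ((k : ℝ) + ((l + 1 : ℕ) : ℝ) - (n + 2)) = (k : ℝ) + l - (n + 1) := by
              push_cast; ring
            rw [this]
          simp_rw [this]
          rw [← sumB β (n + 1) (fun k => ∑ l ∈ range (n + 2), (bb β (n + 1) l : ℂ) *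
                (ee (((k : ℝ) + l - (n + 1)) * β / 2) * X k (l + 1)))]
          apply sum_congr rfl; intro k _
          rw [mul_sum]
        rw [r1, r2, r3, r4, ← sum_add_distrib, ← sum_add_distrib, ← sum_add_distrib]
        apply sum_congr rfl; intro k _
        rw [← sum_add_distrib, ← sum_add_distrib, ← sum_add_distrib]
        apply sum_congr rfl; intro l _
        ring
      rw [split, mul_sum, ← sum_add_distrib, ← sum_add_distrib, ← sum_add_distrib,
        ← sum_sub_distrib]
      apply sum_congr rfl; intro k hk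
      rw [mul_sum, ← sum_add_distrib, ← sum_add_distrib, ← sum_add_distrib,
        ← sum_sub_distrib]
      apply sum_congr rfl; intro l hl
      have hk' : k ≤ n + 2 := by have := mem_range.mp hk; omega
      have hl' : l ≤ n + 2 := by have := mem_range.mp hl; omega
      have ci := coeff_id β n k l hsS hs hk' hl'
      have hXkl : WW β ((k : ℤ) + l - ((n + 2 : ℕ) : ℤ)) ((k : ℤ) - l) u m = X k l := rfl
      rw [hXkl]
      have : ((bb β (n + 2) k : ℂ)) * ((bb β (n + 2) l : ℂ) * X k l)
          = ((bb β (n + 2) k * bb β (n + 2) l : ℝ) : ℂ) * X k l := by push_cast; ring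
      rw [this, ← ci]
      push_cast
      ring

end Run7.h608
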