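import Pool.Agent.Run7.h608.Tools

set_option autoImplicit false

namespace Run7.h608

open Finset

/-- a good level: `q β = p + θ`, `θ > 0`, with non-vanishing `sn β j` -/
structure Lev (β θ : ℝ) (p : ℤ) (q : ℕ) : Prop where
  hq : 1 ≤ q
  hβ : (q : ℝ) * β = p + θ
  hθ : 0 < θ
  hs : ∀ j : ℕ, 1 ≤ j → j ≤ q → sn β j ≠ 0

/-- Parseval on an interval -/
def ParsevalAt (β : ℝ) (N : ℕ) : Prop :=
  ∀ (a b : ℤ) (φ : ℤ → ℂ), b - a ≤ N →
    ∑ n ∈ range N, ‖∑ m ∈ Ico a b, φ m * ee ((m : ℝ) * (n : ℝ) * β)‖ ^ 2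
      = N * ∑ m ∈ Ico a b, ‖φ m‖ ^ 2

/-- large sieve -/
def SieveAt (β R Ls : ℝ) : Prop :=
  ∀ (a b c d : ℤ) (φ : ℤ → ℂ), (b : ℝ) - a ≤ R + 1 → (d : ℝ) - c ≤ R + 1 →
    ∑ n ∈ Ico c d, ‖∑ m ∈ Ico a b, φ m * ee ((m : ℝ) * n * β)‖ ^ 2
      ≤ Ls * ∑ m ∈ Ico a b, ‖φ m‖ ^ 2

/-- the exponentially small quantity -/
noncomputable def XX (η : ℝ) (q W : ℕ) : ℝ := Real.exp (-(Real.sqrt η / 2 / q * W))

/-- residual after localisation -/
noncomputable def eps2 (R η : ℝ) (q W : ℕ) : ℝ := 440 * (R + 2 * q + 1) * XX η q W / η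

theorem XX_pos (η : ℝ) (q W : ℕ) : 0 < XX η q W := Real.exp_pos _

theorem Cb_sq_le (β : ℝ) (q : ℕ) (η : ℝ) (hη1 : η ≤ 1) (her : er β q ≤ η / 16) :
    Cb β q ^ 2 ≤ 5 := by
  unfold er at her; linarith

theorem loc (β θ : ℝ) (p : ℤ) (q : ℕ) (L : Lev β θ p q) (N : ℕ) (hN : 0 < N)
    (hPar : ParsevalAt β N) (Ls : ℝ) (hSv : SieveAt β (1 / θ) Ls)
    (hNbig : 1 / θ + 1 ≤ N)
    (η : ℝ) (hη : 0 < η) (hη1 : η ≤ 1) (her : er β q ≤ η / 16)
    (W : ℕ) (hW : 4 * Real.pi * (W + 1) * θ ≤ Real.sqrt η)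
    (E : ℝ) (ψ : ℤ → ℂ) (hψ0 : ∃ n, ψ n ≠ 0) (hψN : ∀ n, ψ (n + N) = ψ n)
    (hψE : HH β ψ = (E : ℂ) • ψ) (hsE : η ≤ |pp β E q|) :
    ∃ u : ℤ → ℂ, (∑ n ∈ range N, ‖u (n : ℤ)‖ ^ 2 = N) ∧
      (∀ c d : ℤ, (d : ℝ) - c ≤ 1 / θ + 1 → ∑ n ∈ Ico c d, ‖u n‖ ^ 2 ≤ Ls) ∧
      (∀ m, ‖u m‖ ≤ 1 / θ + 1) ∧
      (∀ j : ℕ, j ≤ q → Cb β j ^ 2 ≤ 5 → ∀ k m : ℤ,
        ‖PP β j (cutf (cen θ (kap (pp β E q)) k) (cen θ (kap (pp β E q)) (k + 1)) u) m
          - ((pp β E j : ℝ) : ℂ) *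
            cutf (cen θ (kap (pp β E q)) k) (cen θ (kap (pp β E q)) (k + 1)) u m‖
          ≤ eps2 (1 / θ) η q W) := by
  obtain ⟨hq, hβ, hθ, hs⟩ := L
  set s : ℝ := pp β E q with hsdef
  set R : ℝ := 1 / θ with hR
  have hR0 : 0 < R := by positivity
  set X : ℝ := XX η q W with hX
  have hX0 : 0 < X := XX_pos _ _ _
  have hq0 : (0 : ℝ) < q := by exact_mod_cast hq
  -- normalise ψ
  have hperiod : Function.Periodic ψ (N : ℤ) := hψN
  have hred : ∀ n : ℤ, ψ n = ψ ((n % N).toNat : ℤ) := by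
    intro n
    have hN' : (N : ℤ) ≠ 0 := by exact_mod_cast hN.ne'
    rw [Int.toNat_of_nonneg (Int.emod_nonneg n hN')]
    have h1 := (hperiod.int_mul (n / N)) (n % N)
    rw [← h1]
    congr 1
    have := Int.emod_add_mul_ediv n N
    simp only [Int.cast_id]
    linarith
  obtain ⟨n0, hn0, hmax⟩ := exists_max_image (range N) (fun n : ℕ => ‖ψ (n : ℤ)‖)
    ⟨0, mem_range.mpr hN⟩
  have hbd : ∀ n : ℤ, ‖ψ n‖ ≤ ‖ψ (n0 : ℤ)‖ := by
    intro n
    rw [hred n]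
    apply hmax
    rw [mem_range]
    have hN' : (0 : ℤ) < N := by exact_mod_cast hN
    have h1 := Int.emod_lt_of_pos n hN'
    have h2 := Int.emod_nonneg n hN'.ne'
    omega
  have hpos : 0 < ‖ψ (n0 : ℤ)‖ := by
    obtain ⟨n, hn⟩ := hψ0
    exact lt_of_lt_of_le (norm_pos_iff.mpr hn) (hbd n)
  have hne : ψ (n0 : ℤ) ≠ 0 := norm_pos_iff.mp hpos
  set f : ℤ → ℂ := (1 / ψ (n0 : ℤ)) • ψ with hf
  have hf1 : ∀ n, ‖f n‖ ≤ 1 := by
    intro n
    rw [hf, Pi.smul_apply, smul_eq_mul, norm_mul, norm_div, norm_one, one_div, inv_mul_le_iff₀ hpos,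
      mul_one]
    exact hbd n
  have hfn0 : f n0 = 1 := by
    rw [hf, Pi.smul_apply, smul_eq_mul]; field_simp
  have hfE : HH β f = (E : ℂ) • f := by
    rw [hf, map_smul, hψE, smul_comm]
  have hPPf : ∀ j m, PP β j f m - ((pp β E j : ℝ) : ℂ) * f m = 0 := by
    intro j m
    rw [PP_eig β E f hfE j]; simp
  -- decay of f near the centres
  have hfnear : ∀ k m : ℤ, |m - cen θ (kap s) k| ≤ q → ‖f m‖ ≤ 4 * X := by
    intro k m hm
    have hw := window β q hq hs η hη hη1 her s (cen θ (kap s) k) W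
      (fun m hm => pot_cen β θ p q hβ hθ η s hη hsE W hW k m hm)
      f 1 0 zero_le_one le_rfl (fun m _ => hf1 m)
      (fun m _ => by rw [hPPf q m]; simp) m (by linarith)
    have hb := near_bound η hη hη1 q hq W 1 zero_le_one ((m : ℝ) - cen θ (kap s) k) (by
      have : ((|m - cen θ (kap s) k| : ℤ) : ℝ) ≤ ((q : ℤ) : ℝ) := by exact_mod_cast hm
      push_cast at this; exact this)
    have e0 : 4 * (0 : ℝ) / η = 0 := by simp
    rw [e0, add_zero] at hw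
    refine hw.trans (hb.trans (le_of_eq ?_))
    rw [hX]; unfold XX; ring
  set κ : ℝ := kap s with hκ
  set k0 : ℤ := ⌊((n0 : ℤ) : ℝ) * θ - κ⌋ with hk0
  set c : ℤ := cen θ κ k0 with hc
  set c' : ℤ := cen θ κ (k0 + 1) with hc'
  have hn0mem : (n0 : ℤ) ∈ Ico c c' := cen_mem θ κ hθ (n0 : ℤ) k0 hk0
  have hcc' : c ≤ c' := cen_mono θ κ hθ k0
  have hlen : (c' : ℝ) - c ≤ R + 1 := cen_len θ κ k0
  set φ : ℤ → ℂ := cutf c c' f with hφ
  have hφs : Supp φ c c' := cutf_supp c c' f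
  have hres : ∀ j : ℕ, j ≤ q → Cb β j ^ 2 ≤ 5 → ∀ m,
      ‖PP β j φ m - ((pp β E j : ℝ) : ℂ) * φ m‖ ≤ 20 * X := by
    intro j hj hC m
    have h := cut_est β ((pp β E j : ℝ) : ℂ) j q hj hs f c c' (4 * X) 0 (by positivity)
      (fun m hm => hfnear k0 m hm) (fun m hm => hfnear (k0 + 1) m hm)
      (fun m => by rw [hPPf j m]; simp) m
    rw [zero_add] at h
    refine h.trans ?_
    nlinarith
  -- the dual function
  set A : ℤ := c - q with hA
  set A' : ℤ := c' + q with hA'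
  set u0 : ℤ → ℂ := dualB β A A' φ with hu0
  have hdual : ∀ j : ℕ, j ≤ q → Cb β j ^ 2 ≤ 5 → ∀ n,
      ‖PP β j u0 n - ((pp β E j : ℝ) : ℂ) * u0 n‖ ≤ 20 * (R + 2 * q + 1) * X := by
    intro j hj hC n
    have hj' : (j : ℤ) ≤ q := by exact_mod_cast hj
    have h1 : PP β j u0 = dualB β A A' (PP β j φ) := by
      apply dual_PP
      exact hφs.mono (by rw [hA]; linarith) (by rw [hA']; linarith)
    rw [h1, hu0]
    unfold dualB
    have e1 : ∑ m ∈ Ico A A', PP β j φ m * ee ((m : ℝ) * n * β)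
        - ((pp β E j : ℝ) : ℂ) * ∑ m ∈ Ico A A', φ m * ee ((m : ℝ) * n * β)
        = ∑ m ∈ Ico A A', (PP β j φ m - ((pp β E j : ℝ) : ℂ) * φ m) * ee ((m : ℝ) * n * β) := by
      rw [mul_sum, ← sum_sub_distrib]
      apply sum_congr rfl; intro m _; ring
    rw [e1]
    refine (norm_sum_le _ _).trans ?_
    calc ∑ m ∈ Ico A A', ‖(PP β j φ m - ((pp β E j : ℝ) : ℂ) * φ m) * ee ((m : ℝ) * n * β)‖
        ≤ ∑ m ∈ Ico A A', 20 * X := by
          apply sum_le_sum; intro m _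
          rw [norm_mul, norm_ee, mul_one]
          exact hres j hj hC m
      _ = ((A' - A).toNat : ℝ) * (20 * X) := by
          rw [sum_const, Int.card_Ico, nsmul_eq_mul]
      _ ≤ (R + 2 * q + 1) * (20 * X) := by
          apply mul_le_mul_of_nonneg_right _ (by positivity)
          have h2 : (((A' - A).toNat : ℤ) : ℝ) = ((A' - A : ℤ) : ℝ) := by
            rw [Int.toNat_of_nonneg]; rw [hA, hA']; linarith [(by positivity : (0 : ℤ) ≤ q)]
          have h3 : ((A' - A).toNat : ℝ) = ((A' - A : ℤ) : ℝ) := by rw [← h2]; norm_cast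
          rw [h3, hA, hA']; push_cast; linarith
      _ = _ := by ring
  have hu0_eq : ∀ n : ℤ, u0 n = ∑ m ∈ Ico c c', f m * ee ((m : ℝ) * n * β) := by
    intro n
    rw [hu0]; unfold dualB
    rw [sum_supp (fun m : ℤ => φ m * ee ((m : ℝ) * n * β)) (Ico A A') (Ico c c')]
    · apply sum_congr rfl; intro m hm
      rw [hφ]; simp only [cutf, if_pos hm]
    · intro m hm
      rw [hφs m, zero_mul]
      rw [mem_Ico] at hm ⊢; intro h'; apply hm
      rw [hA, hA']; constructor <;> linarith [h'.1, h'.2, (by positivity : (0 : ℤ) ≤ q)]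
    · intro m hm
      rw [hφs m hm, zero_mul]
  have hu0b : ∀ n : ℤ, ‖u0 n‖ ≤ R + 1 := by
    intro n
    rw [hu0_eq n]
    refine (norm_sum_le _ _).trans ?_
    calc ∑ m ∈ Ico c c', ‖f m * ee ((m : ℝ) * n * β)‖ ≤ ∑ m ∈ Ico c c', (1 : ℝ) := by
          apply sum_le_sum; intro m _
          rw [norm_mul, norm_ee, mul_one]; exact hf1 m
      _ = ((c' - c).toNat : ℝ) := by rw [sum_const, Int.card_Ico, nsmul_eq_mul, mul_one]
      _ ≤ R + 1 := by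
          have h2 : (((c' - c).toNat : ℤ) : ℝ) = ((c' - c : ℤ) : ℝ) := by
            rw [Int.toNat_of_nonneg]; linarith
          have h3 : ((c' - c).toNat : ℝ) = ((c' - c : ℤ) : ℝ) := by rw [← h2]; norm_cast
          rw [h3]; push_cast; linarith
  set V : ℝ := ∑ m ∈ Ico c c', ‖f m‖ ^ 2 with hV
  have hV1 : 1 ≤ V := by
    rw [hV]
    calc (1 : ℝ) = ‖f n0‖ ^ 2 := by rw [hfn0]; simp
      _ ≤ _ := single_le_sum (f := fun m : ℤ => ‖f m‖ ^ 2) (fun m _ => by positivity) hn0mem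
  have hV0 : 0 < V := by linarith
  set t : ℝ := 1 / Real.sqrt V with ht
  have ht0 : 0 ≤ t := by positivity
  have ht1 : t ≤ 1 := by
    rw [ht, div_le_one (Real.sqrt_pos.mpr hV0)]
    rw [show (1 : ℝ) = Real.sqrt 1 by simp]; exact Real.sqrt_le_sqrt hV1
  have ht2 : t ^ 2 * V = 1 := by
    rw [ht, div_pow, Real.sq_sqrt hV0.le]; field_simp
  set u : ℤ → ℂ := (t : ℂ) • u0 with hu
  have hnu : ∀ n, ‖u n‖ = t * ‖u0 n‖ := by
    intro n
    rw [hu, Pi.smul_apply, smul_eq_mul, norm_mul, Complex.norm_real, Real.norm_eq_abs,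
      abs_of_nonneg ht0]
  have hub : ∀ n, ‖u n‖ ≤ R + 1 := by
    intro n
    rw [hnu n]
    calc t * ‖u0 n‖ ≤ 1 * ‖u0 n‖ := by gcongr
      _ ≤ _ := by rw [one_mul]; exact hu0b n
  have hures : ∀ j : ℕ, j ≤ q → Cb β j ^ 2 ≤ 5 → ∀ n,
      ‖PP β j u n - ((pp β E j : ℝ) : ℂ) * u n‖ ≤ 20 * (R + 2 * q + 1) * X := by
    intro j hj hC n
    have e1 : PP β j u n - ((pp β E j : ℝ) : ℂ) * u n
        = (t : ℂ) * (PP β j u0 n - ((pp β E j : ℝ) : ℂ) * u0 n) := by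
      rw [hu, map_smul]; simp only [Pi.smul_apply, smul_eq_mul]; ring
    rw [e1, norm_mul, Complex.norm_real, Real.norm_eq_abs, abs_of_nonneg ht0]
    calc t * ‖PP β j u0 n - ((pp β E j : ℝ) : ℂ) * u0 n‖
        ≤ 1 * ‖PP β j u0 n - ((pp β E j : ℝ) : ℂ) * u0 n‖ := by gcongr
      _ ≤ _ := by rw [one_mul]; exact hdual j hj hC n
  have hCq : Cb β q ^ 2 ≤ 5 := Cb_sq_le β q η hη1 her
  have hunear : ∀ k m : ℤ, |m - cen θ κ k| ≤ q → ‖u m‖ ≤ 84 * (R + 2 * q + 1) * X / η := by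
    intro k m hm
    have hw := window β q hq hs η hη hη1 her s (cen θ κ k) W
      (fun m hm => pot_cen β θ p q hβ hθ η s hη hsE W hW k m hm)
      u (R + 1) (20 * (R + 2 * q + 1) * X) (by positivity) (by positivity) (fun m _ => hub m)
      (fun m _ => hures q le_rfl hCq m) m (by linarith)
    have hb := near_bound η hη hη1 q hq W (R + 1) (by positivity) ((m : ℝ) - cen θ κ k) (by
      have : ((|m - cen θ κ k| : ℤ) : ℝ) ≤ ((q : ℤ) : ℝ) := by exact_mod_cast hm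
      push_cast at this; exact this)
    refine hw.trans ?_
    have h1 : 4 * (R + 1) * Real.exp (-(Real.sqrt η / 2 / q * W)) = 4 * (R + 1) * X := by
      rw [hX]; rfl
    have h2 : 4 * (R + 1) * X ≤ 4 * (R + 2 * q + 1) * X / η := by
      rw [le_div_iff₀ hη]
      calc 4 * (R + 1) * X * η ≤ 4 * (R + 1) * X * 1 := by gcongr
        _ ≤ 4 * (R + 2 * q + 1) * X := by rw [mul_one]; gcongr; linarith
    rw [h1] at hb
    calc _ ≤ 4 * (R + 2 * q + 1) * X / η + 4 * (20 * (R + 2 * q + 1) * X) / η := by linarith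
      _ = _ := by ring
  refine ⟨u, ?_, ?_, hub, ?_⟩
  · have h1 : ∑ n ∈ range N, ‖u (n : ℤ)‖ ^ 2 = t ^ 2 * ∑ n ∈ range N, ‖u0 (n : ℤ)‖ ^ 2 := by
      rw [mul_sum]; apply sum_congr rfl; intro n _; rw [hnu, mul_pow]
    rw [h1]
    have h2 : ∑ n ∈ range N, ‖u0 (n : ℤ)‖ ^ 2 = N * V := by
      have := hPar c c' f (by
        have : (c' : ℝ) - c ≤ N := hlen.trans hNbig
        exact_mod_cast this)
      rw [hV, ← this]
      apply sum_congr rfl; intro n _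
      rw [hu0_eq]
      push_cast; rfl
    rw [h2]
    calc t ^ 2 * ((N : ℝ) * V) = (N : ℝ) * (t ^ 2 * V) := by ring
      _ = (N : ℝ) := by rw [ht2, mul_one]
  · intro a b hab
    have h1 : ∑ n ∈ Ico a b, ‖u n‖ ^ 2 = t ^ 2 * ∑ n ∈ Ico a b, ‖u0 n‖ ^ 2 := by
      rw [mul_sum]; apply sum_congr rfl; intro n _; rw [hnu, mul_pow]
    rw [h1]
    have h2 : ∑ n ∈ Ico a b, ‖u0 n‖ ^ 2 ≤ Ls * V := by
      have := hSv c c' a b f hlen hab
      rw [hV]
      refine le_trans (le_of_eq ?_) this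
      apply sum_congr rfl; intro n _
      rw [hu0_eq]
    calc t ^ 2 * ∑ n ∈ Ico a b, ‖u0 n‖ ^ 2 ≤ t ^ 2 * (Ls * V) := by gcongr
      _ = Ls * (t ^ 2 * V) := by ring
      _ = Ls := by rw [ht2, mul_one]
  · intro j hj hC k m
    have h := cut_est β ((pp β E j : ℝ) : ℂ) j q hj hs u (cen θ κ k) (cen θ κ (k + 1))
      (84 * (R + 2 * q + 1) * X / η) (20 * (R + 2 * q + 1) * X) (by positivity)
      (fun m hm => hunear k m hm) (fun m hm => hunear (k + 1) m hm)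
      (fun m => hures j hj hC m) m
    refine h.trans ?_
    unfold eps2
    have h2 : 20 * (R + 2 * q + 1) * X ≤ 20 * (R + 2 * q + 1) * X / η := by
      rw [le_div_iff₀ hη]
      calc 20 * (R + 2 * q + 1) * X * η ≤ 20 * (R + 2 * q + 1) * X * 1 := by gcongr
        _ = _ := by ring
    have h3 : Cb β j ^ 2 * (84 * (R + 2 * q + 1) * X / η) ≤ 5 * (84 * (R + 2 * q + 1) * X / η) := by
      gcongr
    calc _ ≤ 20 * (R + 2 * q + 1) * X / η + 5 * (84 * (R + 2 * q + 1) * X / η) := by linarith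
      _ = _ := by ring

end Run7.h608
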