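import Pool.Agent.Run7.h608.AppEig
import Pool.Agent.Run7.h506.AMO_E

set_option autoImplicit false

namespace Run7.h608.Iface

open Finset Run7.h608

/-- finitely many approximate eigenvalues are simultaneously close to eigenvalues of the
`N`-periodic problem at frequency `P/N` close to `α`, phase `0`. -/
theorem pieceE (α : ℝ) {ι : Type} [Fintype ι] (E θ : ι → ℝ) (hE : ∀ i, AppEig α (θ i) (E i))
    (ρ : ℝ) (hρ : 0 < ρ) :
    ∃ (N : ℕ) (P : ℤ), 0 < N ∧ 1 / ρ ≤ N ∧ IsCoprime P (N : ℤ) ∧ |(P : ℝ) / N - α| < ρ ∧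
      ∀ i, ∃ (E' : ℝ) (ψ : ℤ → ℂ), |E' - E i| < ρ ∧ (∃ n, ψ n ≠ 0) ∧
        (∀ n, ψ (n + N) = ψ n) ∧ HH ((P : ℝ) / N) ψ = (E' : ℂ) • ψ :=
  Run7.h506.AMO.pieceE α E θ hE ρ hρ

end Run7.h608.Iface
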