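import Pool.Agent.Run7.h364.AMO_A
import Pool.Agent.Run7.h364.AMO_sieve
import Pool.Agent.Run7.h506.AMO_C
import Pool.Agent.Run7.h506.AMO_D
import Pool.Agent.Run7.h608.PieceE

/-!
The independent pieces of the proof (proved by helper364 and helper506), under one roof.
-/

set_option autoImplicit false

namespace Run7.h608.Iface

open Finset Run7.h608

theorem pieceA (β θ : ℝ) (p : ℤ) (q : ℕ) (hq : 2 ≤ q) (hcop : IsCoprime p (q : ℤ))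
    (hβ : (q : ℝ) * β = p + θ) (hθ : 0 < θ)
    (hsmall : 100 * θ * q * (1 + Real.log q) ≤ 1) :
    (∀ j : ℕ, 1 ≤ j → j ≤ q → sn β j ≠ 0) ∧
    Cb β q ≤ 2 + 100 * θ * q * (1 + Real.log q) ∧
    (q : ℝ) / 2 ≤ ∏ i ∈ range (q - 1), |2 * sn β (i + 1)| :=
  Run7.h364.AMO.pieceA β θ p q hq hcop hβ hθ hsmall

theorem parseval (N : ℕ) (P : ℤ) (hN : 0 < N) (hcop : IsCoprime P (N : ℤ)) (a b : ℤ)
    (hab : b - a ≤ N) (φ : ℤ → ℂ) :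
    ∑ n ∈ range N, ‖∑ m ∈ Ico a b, φ m * ee ((m : ℝ) * n * ((P : ℝ) / N))‖ ^ 2
      = N * ∑ m ∈ Ico a b, ‖φ m‖ ^ 2 :=
  Run7.h364.AMO.parseval N P hN hcop a b hab φ

theorem sieve (β θ : ℝ) (p : ℤ) (q : ℕ) (hq : 1 ≤ q) (hcop : IsCoprime p (q : ℤ))
    (hβ : (q : ℝ) * β = p + θ) (hθ : 0 < θ) (hsmall : 8 * θ * q ≤ 1)
    (a b c d : ℤ) (hab : (b : ℝ) - a ≤ 1 / θ + 1) (hcd : (d : ℝ) - c ≤ 1 / θ + 1)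
    (φ : ℤ → ℂ) :
    ∑ n ∈ Ico c d, ‖∑ m ∈ Ico a b, φ m * ee ((m : ℝ) * n * β)‖ ^ 2
      ≤ 100 * (1 / θ) * (1 + Real.log (1 / θ)) * ∑ m ∈ Ico a b, ‖φ m‖ ^ 2 :=
  Run7.h364.AMO.sieve β θ p q hq hcop hβ hθ hsmall a b c d hab hcd φ

theorem pieceC (β θ : ℝ) (p : ℤ) (q L : ℕ) (η : ℝ) (hq : 1 ≤ q) (hL : 3 ≤ L)
    (hβ : (q : ℝ) * β = p + θ) (hη : 0 < η) (hη1 : η ≤ 1)
    (hsmall : 4 * Real.pi * L * q * |θ| ≤ η / 2)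
    (a b : ℤ) (hab : a ≤ b) {ι : Type} [Fintype ι] (v : ι → ℤ → ℂ)
    (hsupp : ∀ i m, m ∉ Ico a b → v i m = 0)
    (hind : ∀ c : ι → ℂ, (∀ m, ∑ i, c i * v i m = 0) → c = 0)
    (hK : ∀ c : ι → ℂ, ∀ w : ℤ → ℂ, (∀ m, w m = ∑ i, c i * v i m) →
      ∑ m ∈ Ico (a - q) (b + q),
        ‖w (m + q) + w (m - q) + (2 * Real.cos (2 * Real.pi * (q * (m * β))) : ℝ) * w m‖ ^ 2
        ≤ (3 * η) ^ 2 * ∑ m ∈ Ico a b, ‖w m‖ ^ 2) :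
    (Fintype.card ι : ℝ) ≤ (((b : ℝ) - a) / L + q) * (3 * Real.sqrt η * L + 4) :=
  Run7.h506.AMO.pieceC β θ p q L η hq hL hβ hη hη1 hsmall a b hab v hsupp hind hK

theorem pieceD (β : ℝ) (q : ℕ) (hq : 2 ≤ q)
    (hprod : (q : ℝ) / 2 ≤ ∏ i ∈ range (q - 1), |2 * sn β (i + 1)|)
    (ε η : ℝ) (hε : 0 < ε) (hε1 : ε ≤ 1 / 2) (hη : 0 < η) {ι : Type} [Fintype ι] (x : ι → ℝ)
    (hx : ∀ k, |x k| ≤ 5) (hsep : ∀ k l, k ≠ l → ε ≤ |x k - x l|)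
    (hsm : ∀ k, |pp β (x k) q| ≤ η) :
    (Fintype.card ι : ℝ) ≤ 4 * q + 100 * η / (q * ε) * Real.log (1 / ε) :=
  Run7.h506.AMO.pieceD β q hq hprod ε η hε hε1 hη x hx hsep hsm

end Run7.h608.Iface
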