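import Pool.Agent.Run7.h608.Sym
import Pool.Agent.Run7.h608.Pieces

set_option autoImplicit false

namespace Run7.h608

open Finset

theorem Big.logb {y : ℝ} (h : Big y) (z : ℝ) (hz : 0 < z) (k : ℕ) (hk : 9 ≤ k)
    (hzk : z ≤ 9 * y ^ k) : 1 + Real.log z ≤ k * (y / 10 ^ 12) := by
  have hy := h.pos
  have h2 := h.h2
  have h3 : 1 + Real.log y ≤ y / 10 ^ 12 := by
    rw [le_div_iff₀ (by norm_num)]; linarith
  have h4 : Real.log z ≤ Real.log (9 * y ^ k) := Real.log_le_log hz hzk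
  rw [Real.log_mul (by norm_num) (by positivity), Real.log_pow] at h4
  have h5 : Real.log 9 ≤ 9 - 1 := Real.log_le_sub_one_of_pos (by norm_num)
  have hk' : (9 : ℝ) ≤ k := by exact_mod_cast hk
  calc 1 + Real.log z ≤ 9 + k * Real.log y := by linarith
    _ ≤ k + k * Real.log y := by linarith
    _ = k * (1 + Real.log y) := by ring
    _ ≤ _ := by gcongr

theorem Big.pow_ge {y : ℝ} (h : Big y) (k : ℕ) (hk : 1 ≤ k) : (10 : ℝ) ^ 12 ≤ y ^ k :=
  h.h1.trans (le_self_pow₀ h.one (by omega))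

theorem Big.eps {y : ℝ} (h : Big y) (R η : ℝ) (q W : ℕ) (hR0 : 0 ≤ R) (hR : R ≤ 8 * y ^ 128)
    (hq : (q : ℝ) ≤ y ^ 64) (hη : 1 / y ^ 60 ≤ η)
    (hX : y ^ 2 / 1000 ≤ Real.sqrt η / 2 / q * W) :
    eps2 R η q W ≤ 1 / y ^ 1800 := by
  have hy := h.pos
  have hy1 := h.one
  have hη0 : 0 < η := lt_of_lt_of_le (by positivity) hη
  have hX1 : XX η q W ≤ 1 / y ^ 2000 := by
    unfold XX
    rw [le_div_iff₀ (by positivity)]
    calc Real.exp (-(Real.sqrt η / 2 / q * W)) * y ^ 2000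
        ≤ Real.exp (-(y ^ 2 / 1000)) * y ^ 2000 := by
          gcongr
      _ ≤ 1 := h.expo
  have hX0 := XX_pos η q W
  unfold eps2
  have h64 : y ^ 64 ≤ y ^ 128 := pow_le_pow_right₀ hy1 (by norm_num)
  have h1 : (1 : ℝ) ≤ y ^ 128 := one_le_pow₀ hy1
  have hS : R + 2 * q + 1 ≤ 11 * y ^ 128 := by linarith
  have hinv : 1 / η ≤ y ^ 60 := by
    rw [div_le_iff₀ hη0]
    calc (1 : ℝ) = y ^ 60 * (1 / y ^ 60) := by field_simp
      _ ≤ y ^ 60 * η := by gcongr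
  calc 440 * (R + 2 * q + 1) * XX η q W / η
      = 440 * (R + 2 * q + 1) * XX η q W * (1 / η) := by ring
    _ ≤ 440 * (11 * y ^ 128) * (1 / y ^ 2000) * y ^ 60 := by gcongr
    _ = 4840 / y ^ 1812 := by field_simp; norm_num
    _ ≤ 1 / y ^ 1800 := by
        rw [div_le_div_iff₀ (by positivity) (by positivity)]
        have : (4840 : ℝ) ≤ y ^ 12 := le_trans (by norm_num) (h.pow_ge 12 (by norm_num))
        calc 4840 * y ^ 1800 ≤ y ^ 12 * y ^ 1800 := by gcongr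
          _ = 1 * y ^ 1812 := by ring

theorem Big.hsm {y : ℝ} (h : Big y) (e R ε T : ℝ) (he : 0 ≤ e) (he2 : e ≤ 1 / y ^ 1800) (hR0 : 40 ≤ R)
    (hR : R ≤ 8 * y ^ 128) (hε : 1 / (2 * y ^ 366) ≤ ε) (hT0 : 0 ≤ T) (hT : T ≤ 20 * y ^ 366) :
    2 * e * (R + 1) ^ 2 / ε * T ≤ R / 40 := by
  have hy := h.pos
  have hy1 := h.one
  have hε0 : 0 < ε := lt_of_lt_of_le (by positivity) hε
  have h1 : (1 : ℝ) ≤ y ^ 128 := one_le_pow₀ hy1
  have hinv : 1 / ε ≤ 2 * y ^ 366 := by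
    rw [div_le_iff₀ hε0]
    calc (1 : ℝ) = 2 * y ^ 366 * (1 / (2 * y ^ 366)) := by field_simp
      _ ≤ 2 * y ^ 366 * ε := by gcongr
  calc 2 * e * (R + 1) ^ 2 / ε * T = 2 * e * (R + 1) ^ 2 * (1 / ε) * T := by ring
    _ ≤ 2 * (1 / y ^ 1800) * (9 * y ^ 128) ^ 2 * (2 * y ^ 366) * (20 * y ^ 366) := by
        gcongr; linarith
    _ = 6480 / y ^ 812 := by field_simp; norm_num
    _ ≤ 1 := by
        rw [div_le_one (by positivity)]
        exact le_trans (by norm_num) (h.pow_ge 812 (by norm_num))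
    _ ≤ R / 40 := by rw [le_div_iff₀ (by norm_num)]; linarith

theorem sqrt_inv (y : ℝ) (hy : 0 < y) (k : ℕ) : Real.sqrt (1 / y ^ (2 * k)) = 1 / y ^ k := by
  rw [show (1 : ℝ) / y ^ (2 * k) = (1 / y ^ k) ^ 2 by rw [div_pow, one_pow, ← pow_mul, mul_comm k 2]]
  exact Real.sqrt_sq (by positivity)

theorem Cb_ge (β : ℝ) (q : ℕ) (hq : 1 ≤ q) (hs : ∀ j : ℕ, 1 ≤ j → j ≤ q → sn β j ≠ 0) :
    2 ≤ Cb β q := by
  have h := er_nonneg β q hq hs
  unfold er at h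
  have h0 : 0 ≤ Cb β q := by unfold Cb; exact sum_nonneg fun _ _ => abs_nonneg _
  nlinarith

/-- consequences of piece A at a level with `x = 100 θ q (1 + log q)` -/
theorem levA (β θ : ℝ) (p : ℤ) (q : ℕ) (hq : 2 ≤ q) (hcop : IsCoprime p (q : ℤ))
    (hβ : (q : ℝ) * β = p + θ) (hθ : 0 < θ) (x : ℝ) (hx : 100 * θ * q * (1 + Real.log q) ≤ x)
    (hx1 : x ≤ 1) :
    Lev β θ p q ∧ er β q ≤ 5 * x ∧ (q : ℝ) / 2 ≤ ∏ i ∈ range (q - 1), |2 * sn β (i + 1)| := by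
  obtain ⟨h1, h2, h3⟩ := Iface.pieceA β θ p q hq hcop hβ hθ (hx.trans hx1)
  refine ⟨⟨by omega, hβ, hθ, h1⟩, ?_, h3⟩
  have h4 := Cb_ge β q (by omega) h1
  unfold er
  have h5 : Cb β q ≤ 2 + x := by linarith
  have h0 : 0 ≤ x := by linarith
  nlinarith

theorem inv_bounds (θ A : ℝ) (hA : 0 < A) (h1 : 1 / (8 * A) ≤ θ) (h2 : θ ≤ 4 / A) :
    0 < θ ∧ A / 4 ≤ 1 / θ ∧ 1 / θ ≤ 8 * A := by
  have hθ : 0 < θ := lt_of_lt_of_le (by positivity) h1
  refine ⟨hθ, ?_, ?_⟩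
  · rw [le_div_iff₀ hθ]
    calc A / 4 * θ ≤ A / 4 * (4 / A) := by gcongr
      _ = 1 := by field_simp
  · rw [div_le_iff₀ hθ]
    calc (1 : ℝ) = 8 * A * (1 / (8 * A)) := by field_simp
      _ ≤ 8 * A * θ := by gcongr

theorem clsA (y : ℝ) (hy : Big y) (q' : ℕ) (h1 : y ^ 32 / 2 ≤ q') (h2 : (q' : ℝ) ≤ 2 * y ^ 32)
    (β θ' : ℝ) (p' : ℤ) (hcop : IsCoprime p' (q' : ℤ)) (hβ : (q' : ℝ) * β = p' + θ')
    (ht1 : 1 / (8 * y ^ 64) ≤ θ') (ht2 : θ' ≤ 4 / y ^ 64) (N : ℕ) (P : ℤ)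
    (hN : 32 * y ^ 128 ≤ N) (hPN : IsCoprime P (N : ℤ)) (hβN : β = (P : ℝ) / N)
    (ε : ℝ) (hε : 1 / (2 * y ^ 366) ≤ ε)
    {ι : Type} [Fintype ι] (E : ι → ℝ) (hfam : PerFam β N ε ι E)
    (hT : (Fintype.card ι : ℝ) ≤ 20 * y ^ 366) (s0 : ℝ)
    (hκ : ∀ i, kap (pp β (E i) q') = kap s0) (hsE : ∀ i, 1 / y ^ 16 ≤ |pp β (E i) q'|) :
    (Fintype.card ι : ℝ) ≤ y ^ 121 / 1000 := by
  have hy0 := hy.pos
  have hy1 := hy.one
  obtain ⟨hθ, hR1, hR2⟩ := inv_bounds θ' (y ^ 64) (by positivity) ht1 ht2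
  have hp32 := hy.pow_ge 32 (by norm_num)
  have hp64 := hy.pow_ge 64 (by norm_num)
  have hp56 := hy.pow_ge 56 (by norm_num)
  have hq2 : 2 ≤ q' := by
    have : (2 : ℝ) ≤ q' := by linarith
    exact_mod_cast this
  have hq0 : (0 : ℝ) < q' := by positivity
  -- logarithm of q'
  have hlq := hy.logb q' hq0 32 (by norm_num) (by linarith)
  have hx : 100 * θ' * q' * (1 + Real.log q') ≤ 1 / y ^ 18 := by
    have hl0 : 0 ≤ 1 + Real.log q' := by
      have := Real.log_nonneg (x := (q' : ℝ)) (by exact_mod_cast (by omega : 1 ≤ q'))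
      linarith
    calc 100 * θ' * q' * (1 + Real.log q')
        ≤ 100 * (4 / y ^ 64) * (2 * y ^ 32) * (((32 : ℕ) : ℝ) * (y / 10 ^ 12)) := by gcongr
      _ = (100 * 4 * 2 * 32 / 10 ^ 12) / y ^ 31 := by push_cast; field_simp
      _ ≤ 1 / y ^ 18 := by
          rw [div_le_div_iff₀ (by positivity) (by positivity)]
          have : (1 : ℝ) ≤ y ^ 13 := one_le_pow₀ hy1
          calc 100 * 4 * 2 * 32 / 10 ^ 12 * y ^ 18 ≤ y ^ 13 * y ^ 18 := by
                gcongr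
                refine le_trans ?_ this
                norm_num
            _ = 1 * y ^ 31 := by ring
  have h18 : 1 / y ^ 18 ≤ 1 := by
    rw [div_le_one (by positivity)]; exact one_le_pow₀ hy1
  obtain ⟨L, her, -⟩ := levA β θ' p' q' hq2 hcop hβ hθ (1 / y ^ 18) hx h18
  have her' : er β q' ≤ 1 / y ^ 16 / 16 := by
    refine her.trans ?_
    rw [div_div, mul_one_div, div_le_div_iff₀ (by positivity) (by positivity)]
    have : (80 : ℝ) ≤ y ^ 2 := le_trans (by norm_num) (hy.pow_ge 2 (by norm_num))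
    calc 5 * (y ^ 16 * 16) = 80 * y ^ 16 := by ring
      _ ≤ y ^ 2 * y ^ 16 := by gcongr
      _ = 1 * y ^ 18 := by ring
  have hN0 : 0 < N := by
    have : (0 : ℝ) < N := lt_of_lt_of_le (by positivity) hN
    exact_mod_cast this
  have hPar : ParsevalAt β N := by
    intro a b φ hab
    rw [hβN]
    exact Iface.parseval N P hN0 hPN a b hab φ
  have hsieve : SieveAt β (1 / θ') (100 * (1 / θ') * (1 + Real.log (1 / θ'))) := by
    intro a b c d φ hab hcd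
    refine Iface.sieve β θ' p' q' (by omega) hcop hβ hθ ?_ a b c d hab hcd φ
    calc 8 * θ' * q' ≤ 8 * (4 / y ^ 64) * (2 * y ^ 32) := by gcongr
      _ = 64 / y ^ 32 := by field_simp; norm_num
      _ ≤ 1 := by rw [div_le_one (by positivity)]; linarith
  have hR1' : 1 ≤ 1 / θ' := by linarith
  have hlogR : 0 ≤ Real.log (1 / θ') := Real.log_nonneg hR1'
  have hLs : 0 ≤ 100 * (1 / θ') * (1 + Real.log (1 / θ')) := by positivity
  have h64128 : y ^ 64 ≤ y ^ 128 := pow_le_pow_right₀ hy1 (by norm_num)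
  -- the window
  set W : ℕ := ⌊y ^ 56 / 100⌋₊ with hW
  have hWle : (W : ℝ) ≤ y ^ 56 / 100 := Nat.floor_le (by positivity)
  have hWge : y ^ 56 / 200 ≤ W := by
    have := Nat.lt_floor_add_one (y ^ 56 / 100)
    have h3 : (1 : ℝ) ≤ y ^ 56 / 200 := by linarith
    rw [← hW] at this
    linarith
  have hsqrt : Real.sqrt (1 / y ^ 16) = 1 / y ^ 8 := sqrt_inv y hy0 8
  have hWin : 4 * Real.pi * (W + 1) * θ' ≤ Real.sqrt (1 / y ^ 16) := by
    rw [hsqrt]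
    calc 4 * Real.pi * (W + 1) * θ' ≤ 4 * 3.15 * (y ^ 56 / 100 + 1) * (4 / y ^ 64) := by
          gcongr
          exact Real.pi_lt_d2.le
      _ ≤ 4 * 3.15 * (y ^ 56 / 100 + y ^ 56 / 10 ^ 12) * (4 / y ^ 64) := by
          gcongr
          rw [le_div_iff₀ (by norm_num)]; linarith
      _ = (4 * 3.15 * (1 / 100 + 1 / 10 ^ 12) * 4) / y ^ 8 := by field_simp
      _ ≤ 1 / y ^ 8 := by gcongr; norm_num
  have hexp : y ^ 2 / 1000 ≤ Real.sqrt (1 / y ^ 16) / 2 / q' * W := by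
    rw [hsqrt]
    calc y ^ 2 / 1000 ≤ 1 / y ^ 8 / 2 / (2 * y ^ 32) * (y ^ 56 / 200) := by
          have : 1 / y ^ 8 / 2 / (2 * y ^ 32) * (y ^ 56 / 200) = y ^ 14 * y ^ 2 / 800 := by
            field_simp; norm_num
          rw [this]
          have h3 : (1 : ℝ) ≤ y ^ 14 := one_le_pow₀ hy1
          have h4 : 0 ≤ y ^ 2 := by positivity
          nlinarith
      _ ≤ 1 / y ^ 8 / 2 / q' * W := by gcongr
  have heps := hy.eps (1 / θ') (1 / y ^ 16) q' W (by positivity) (hR2.trans (by gcongr))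
    (h2.trans (by
      calc 2 * y ^ 32 ≤ y ^ 32 * y ^ 32 := by gcongr; linarith
        _ = y ^ 64 := by ring))
    (by gcongr; norm_num) hexp
  have he0 : 0 ≤ eps2 (1 / θ') (1 / y ^ 16) q' W := by
    unfold eps2; have := XX_pos (1 / y ^ 16) q' W; positivity
  have hmain := estA β θ' p' q' L N hPar _ hLs hsieve
    (by linarith [one_le_pow₀ hy1 (n := 128)])
    (by
      have : 2 / θ' = 2 * (1 / θ') := by ring
      rw [this]; linarith)
    (1 / y ^ 16) (by positivity) (by rw [div_le_one (by positivity)]; exact one_le_pow₀ hy1)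
    her' W hWin ε (lt_of_lt_of_le (by positivity) hε) E hfam s0 hκ hsE
    (hy.hsm _ (1 / θ') _ _ he0 heps (by linarith) (hR2.trans (by gcongr)) hε
      (by positivity) hT)
  refine hmain.trans ?_
  have hlog := hy.logb (1 / θ') (by positivity) 64 (by norm_num) (by linarith)
  calc 4 * θ' * (100 * (1 / θ') * (1 + Real.log (1 / θ'))) * (1 / θ' + 1)
      = 400 * (1 + Real.log (1 / θ')) * (1 / θ' + 1) := by field_simp; ring
    _ ≤ 400 * (((64 : ℕ) : ℝ) * (y / 10 ^ 12)) * (9 * y ^ 64) := by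
        gcongr; linarith [one_le_pow₀ hy1 (n := 64)]
    _ = (400 * 64 * 9 / 10 ^ 12) * y ^ 65 := by push_cast; ring
    _ ≤ 1 / 1000 * y ^ 121 :=
        mul_le_mul (by norm_num) (pow_le_pow_right₀ hy1 (by norm_num)) (by positivity) (by norm_num)
    _ = _ := by ring

end Run7.h608
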