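import Pool.Agent.Run7.h608.MainA

set_option autoImplicit false

namespace Run7.h608

open Finset

theorem Big.hsm2 {y : ℝ} (h : Big y) (e R Q T : ℝ) (he : 0 ≤ e) (he2 : e ≤ 1 / y ^ 1800)
    (hR0 : y ^ 128 / 4 ≤ R) (hR : R ≤ 8 * y ^ 128) (hQ0 : 0 ≤ Q) (hQ : Q ≤ 2 * y ^ 32)
    (hT0 : 0 ≤ T) (hT : T ≤ 20 * y ^ 366) :
    (R + 1 + 2 * Q) * e ^ 2 * T ≤ (1 / y ^ 16) ^ 2 * R / 20 := by
  have hy := h.pos
  have hy1 := h.one
  have h1 : (1 : ℝ) ≤ y ^ 128 := one_le_pow₀ hy1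
  have h32 : y ^ 32 ≤ y ^ 128 := pow_le_pow_right₀ hy1 (by norm_num)
  have hR00 : 0 ≤ R := le_trans (by positivity) hR0
  calc (R + 1 + 2 * Q) * e ^ 2 * T ≤ (13 * y ^ 128) * (1 / y ^ 1800) ^ 2 * (20 * y ^ 366) := by
        gcongr; linarith
    _ = 260 / y ^ 3106 := by field_simp; norm_num
    _ ≤ 1 := by
        rw [div_le_one (by positivity)]
        exact le_trans (by norm_num) (h.pow_ge 3106 (by norm_num))
    _ ≤ y ^ 96 / 80 := by
        rw [le_div_iff₀ (by norm_num)]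
        exact le_trans (by norm_num) (h.pow_ge 96 (by norm_num))
    _ = (1 / y ^ 16) ^ 2 * (y ^ 128 / 4) / 20 := by field_simp; norm_num
    _ ≤ _ := by gcongr

theorem dimC (y : ℝ) (hy : Big y) (q' : ℕ) (h1 : y ^ 32 / 2 ≤ q') (h2 : (q' : ℝ) ≤ 2 * y ^ 32)
    (β θ' : ℝ) (p' : ℤ) (hβ : (q' : ℝ) * β = p' - θ') (ht0 : 0 < θ') (ht2 : θ' ≤ 4 / y ^ 64)
    (R : ℝ) (hR0 : 0 ≤ R) (hR : R ≤ 8 * y ^ 128) :
    DimBd β q' (1 / y ^ 16) R (4502 * y ^ 120) := by
  have hy0 := hy.pos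
  have hy1 := hy.one
  have hp32 := hy.pow_ge 32 (by norm_num)
  have hp16 := hy.pow_ge 16 (by norm_num)
  have hp8 := hy.pow_ge 8 (by norm_num)
  set L : ℕ := ⌊y ^ 16 / 250⌋₊ with hL
  have hLle : (L : ℝ) ≤ y ^ 16 / 250 := Nat.floor_le (by positivity)
  have hLge : y ^ 16 / 500 ≤ L := by
    have := Nat.lt_floor_add_one (y ^ 16 / 250)
    have h3 : (1 : ℝ) ≤ y ^ 16 / 500 := by linarith
    rw [← hL] at this
    linarith
  have hL3 : 3 ≤ L := by
    have : (3 : ℝ) ≤ L := by linarith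
    exact_mod_cast this
  have hq1 : 1 ≤ q' := by
    have : (1 : ℝ) ≤ q' := by linarith
    exact_mod_cast this
  have hsqrt : Real.sqrt (1 / y ^ 16) = 1 / y ^ 8 := sqrt_inv y hy0 8
  have hL0 : (0 : ℝ) < L := lt_of_lt_of_le (by positivity) hLge
  intro a b hab hlen ι _ v hsupp hind hK
  have hC := Iface.pieceC β (-θ') p' q' L (1 / y ^ 16) hq1 hL3 (by rw [hβ]; ring) (by positivity)
    (by rw [div_le_one (by positivity)]; exact one_le_pow₀ hy1)
    (by
      rw [abs_neg, abs_of_pos ht0]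
      calc 4 * Real.pi * L * q' * θ' ≤ 4 * 3.15 * (y ^ 16 / 250) * (2 * y ^ 32) * (4 / y ^ 64) := by
            gcongr
            exact Real.pi_lt_d2.le
        _ = (4 * 3.15 / 250 * 2 * 4) / y ^ 16 := by field_simp
        _ ≤ (1 / 2) / y ^ 16 := by gcongr; norm_num
        _ = 1 / y ^ 16 / 2 := by ring)
    a b hab v hsupp hind hK
  refine hC.trans ?_
  rw [hsqrt]
  have hab' : (0 : ℝ) ≤ (b : ℝ) - a := by
    have : (a : ℝ) ≤ b := by exact_mod_cast hab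
    linarith
  have h1' : (1 : ℝ) ≤ y ^ 128 := one_le_pow₀ hy1
  calc (((b : ℝ) - a) / L + q') * (3 * (1 / y ^ 8) * L + 4)
      ≤ (9 * y ^ 128 / (y ^ 16 / 500) + 2 * y ^ 32) * (3 * (1 / y ^ 8) * (y ^ 16 / 250) + 4) := by
        gcongr
        linarith
    _ = (4500 * y ^ 112 + 2 * y ^ 32) * (3 / 250 * y ^ 8 + 4) := by
        have e1 : 9 * y ^ 128 / (y ^ 16 / 500) = 4500 * y ^ 112 := by field_simp; norm_num
        have e2 : 3 * (1 / y ^ 8) * (y ^ 16 / 250) = 3 / 250 * y ^ 8 := by field_simp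
        rw [e1, e2]
    _ ≤ (4500 * y ^ 112 + 2 * y ^ 112) * (y ^ 8) := by
        gcongr
        · norm_num
        · linarith
    _ = _ := by ring

theorem clsB (y : ℝ) (hy : Big y) (q q' : ℕ) (hq : (q : ℝ) = y ^ 64) (h1 : y ^ 32 / 2 ≤ q')
    (h2 : (q' : ℝ) ≤ 2 * y ^ 32)
    (β θ θ' : ℝ) (p p' : ℤ) (hcop : IsCoprime p (q : ℤ)) (hcop' : IsCoprime p' (q' : ℤ))
    (hβ : (q : ℝ) * β = p + θ) (hβ' : (q' : ℝ) * β = p' - θ')
    (hs1 : 1 / (8 * y ^ 128) ≤ θ) (hs2 : θ ≤ 4 / y ^ 128)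
    (ht1 : 1 / (8 * y ^ 64) ≤ θ') (ht2 : θ' ≤ 4 / y ^ 64) (N : ℕ) (P : ℤ)
    (hN : 32 * y ^ 128 ≤ N) (hPN : IsCoprime P (N : ℤ)) (hβN : β = (P : ℝ) / N)
    (ε : ℝ) (hε : 1 / (2 * y ^ 366) ≤ ε)
    {ι : Type} [Fintype ι] (E : ι → ℝ) (hfam : PerFam β N ε ι E)
    (hT : (Fintype.card ι : ℝ) ≤ 20 * y ^ 366) (s0 : ℝ)
    (hκ : ∀ i, kap (pp β (E i) q) = kap s0) (hsE : ∀ i, 1 / y ^ 60 ≤ |pp β (E i) q|)
    (hpp' : ∀ i, |pp β (E i) q'| ≤ 1 / y ^ 16) :
    (Fintype.card ι : ℝ) ≤ y ^ 121 / 1000 := by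
  have hy0 := hy.pos
  have hy1 := hy.one
  obtain ⟨hθ, hR1, hR2⟩ := inv_bounds θ (y ^ 128) (by positivity) hs1 hs2
  obtain ⟨hθ', hR1', hR2'⟩ := inv_bounds θ' (y ^ 64) (by positivity) ht1 ht2
  have hp32 := hy.pow_ge 32 (by norm_num)
  have hp64 := hy.pow_ge 64 (by norm_num)
  have hp98 := hy.pow_ge 98 (by norm_num)
  have hp128 := hy.pow_ge 128 (by norm_num)
  have hq2' : 2 ≤ q' := by
    have : (2 : ℝ) ≤ q' := by linarith
    exact_mod_cast this
  have hq2 : 2 ≤ q := by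
    have : (2 : ℝ) ≤ q := by rw [hq]; linarith
    exact_mod_cast this
  have hq0' : (0 : ℝ) < q' := by positivity
  have hq0 : (0 : ℝ) < q := by positivity
  have hqq : q' ≤ q := by
    have : (q' : ℝ) ≤ q := by
      rw [hq]
      calc (q' : ℝ) ≤ 2 * y ^ 32 := h2
        _ ≤ y ^ 32 * y ^ 32 := by gcongr; linarith
        _ = y ^ 64 := by ring
    exact_mod_cast this
  -- level q'
  have hlq' := hy.logb q' hq0' 32 (by norm_num) (by linarith)
  have hx' : 100 * θ' * q' * (1 + Real.log q') ≤ 1 / y ^ 18 := by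
    have hl0 : 0 ≤ 1 + Real.log q' := by
      have := Real.log_nonneg (x := (q' : ℝ)) (by exact_mod_cast (by omega : 1 ≤ q'))
      linarith
    calc 100 * θ' * q' * (1 + Real.log q')
        ≤ 100 * (4 / y ^ 64) * (2 * y ^ 32) * (((32 : ℕ) : ℝ) * (y / 10 ^ 12)) := by gcongr
      _ = (100 * 4 * 2 * 32 / 10 ^ 12) / y ^ 31 := by push_cast; field_simp
      _ ≤ 1 / y ^ 18 := by
          rw [div_le_div_iff₀ (by positivity) (by positivity)]
          have : (1 : ℝ) ≤ y ^ 13 := one_le_pow₀ hy1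
          calc 100 * 4 * 2 * 32 / 10 ^ 12 * y ^ 18 ≤ y ^ 13 * y ^ 18 := by
                gcongr
                refine le_trans ?_ this
                norm_num
            _ = 1 * y ^ 31 := by ring
  have h18 : 1 / y ^ 18 ≤ 1 := by
    rw [div_le_one (by positivity)]; exact one_le_pow₀ hy1
  obtain ⟨-, her', -⟩ := levA (-β) θ' (-p') q' hq2' hcop'.neg_left
    (by rw [mul_neg, hβ']; push_cast; ring) hθ' (1 / y ^ 18) hx' h18
  rw [er_neg] at her'
  have her'' : er β q' ≤ 1 / y ^ 16 := by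
    refine her'.trans ?_
    rw [mul_one_div, div_le_div_iff₀ (by positivity) (by positivity)]
    have : (5 : ℝ) ≤ y ^ 2 := le_trans (by norm_num) (hy.pow_ge 2 (by norm_num))
    calc 5 * y ^ 16 ≤ y ^ 2 * y ^ 16 := by gcongr
      _ = 1 * y ^ 18 := by ring
  -- level q
  have hlq := hy.logb q hq0 64 (by norm_num) (by rw [hq]; linarith)
  have hx : 100 * θ * q * (1 + Real.log q) ≤ 1 / y ^ 62 := by
    have hl0 : 0 ≤ 1 + Real.log q := by
      have := Real.log_nonneg (x := (q : ℝ)) (by exact_mod_cast (by omega : 1 ≤ q))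
      linarith
    calc 100 * θ * q * (1 + Real.log q)
        ≤ 100 * (4 / y ^ 128) * (y ^ 64) * (((64 : ℕ) : ℝ) * (y / 10 ^ 12)) := by
          gcongr; exact hq.le
      _ = (100 * 4 * 64 / 10 ^ 12) / y ^ 63 := by push_cast; field_simp
      _ ≤ 1 / y ^ 62 := by
          rw [div_le_div_iff₀ (by positivity) (by positivity)]
          calc 100 * 4 * 64 / 10 ^ 12 * y ^ 62 ≤ y * y ^ 62 := by
                gcongr
                refine le_trans ?_ hy1
                norm_num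
            _ = 1 * y ^ 63 := by ring
  have h62 : 1 / y ^ 62 ≤ 1 := by
    rw [div_le_one (by positivity)]; exact one_le_pow₀ hy1
  obtain ⟨L, her, -⟩ := levA β θ p q hq2 hcop hβ hθ (1 / y ^ 62) hx h62
  have her2 : er β q ≤ 1 / y ^ 60 / 16 := by
    refine her.trans ?_
    rw [div_div, mul_one_div, div_le_div_iff₀ (by positivity) (by positivity)]
    have : (80 : ℝ) ≤ y ^ 2 := le_trans (by norm_num) (hy.pow_ge 2 (by norm_num))
    calc 5 * (y ^ 60 * 16) = 80 * y ^ 60 := by ring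
      _ ≤ y ^ 2 * y ^ 60 := by gcongr
      _ = 1 * y ^ 62 := by ring
  have hN0 : 0 < N := by
    have : (0 : ℝ) < N := lt_of_lt_of_le (by positivity) hN
    exact_mod_cast this
  have hPar : ParsevalAt β N := by
    intro a b φ hab
    rw [hβN]
    exact Iface.parseval N P hN0 hPN a b hab φ
  have hsieve : SieveAt β (1 / θ) (100 * (1 / θ) * (1 + Real.log (1 / θ))) := by
    intro a b c d φ hab hcd
    refine Iface.sieve β θ p q (by omega) hcop hβ hθ ?_ a b c d hab hcd φ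
    calc 8 * θ * q ≤ 8 * (4 / y ^ 128) * (y ^ 64) := by gcongr; exact hq.le
      _ = 32 / y ^ 64 := by field_simp; norm_num
      _ ≤ 1 := by rw [div_le_one (by positivity)]; linarith
  have hR11 : 1 ≤ 1 / θ := by linarith
  have hlogR : 0 ≤ Real.log (1 / θ) := Real.log_nonneg hR11
  have hLs : 0 ≤ 100 * (1 / θ) * (1 + Real.log (1 / θ)) := by positivity
  -- the window
  set W : ℕ := ⌊y ^ 98 / 100⌋₊ with hW
  have hWle : (W : ℝ) ≤ y ^ 98 / 100 := Nat.floor_le (by positivity)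
  have hWge : y ^ 98 / 200 ≤ W := by
    have := Nat.lt_floor_add_one (y ^ 98 / 100)
    have h3 : (1 : ℝ) ≤ y ^ 98 / 200 := by linarith
    rw [← hW] at this
    linarith
  have hsqrt : Real.sqrt (1 / y ^ 60) = 1 / y ^ 30 := sqrt_inv y hy0 30
  have hWin : 4 * Real.pi * (W + 1) * θ ≤ Real.sqrt (1 / y ^ 60) := by
    rw [hsqrt]
    calc 4 * Real.pi * (W + 1) * θ ≤ 4 * 3.15 * (y ^ 98 / 100 + 1) * (4 / y ^ 128) := by
          gcongr
          exact Real.pi_lt_d2.le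
      _ ≤ 4 * 3.15 * (y ^ 98 / 100 + y ^ 98 / 10 ^ 12) * (4 / y ^ 128) := by
          gcongr
          rw [le_div_iff₀ (by norm_num)]; linarith
      _ = (4 * 3.15 * (1 / 100 + 1 / 10 ^ 12) * 4) / y ^ 30 := by field_simp
      _ ≤ 1 / y ^ 30 := by gcongr; norm_num
  have hexp : y ^ 2 / 1000 ≤ Real.sqrt (1 / y ^ 60) / 2 / q * W := by
    rw [hsqrt, hq]
    calc y ^ 2 / 1000 ≤ 1 / y ^ 30 / 2 / (y ^ 64) * (y ^ 98 / 200) := by
          have : 1 / y ^ 30 / 2 / (y ^ 64) * (y ^ 98 / 200) = y ^ 2 * y ^ 2 / 400 := by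
            field_simp; norm_num
          rw [this]
          have h3 : (1 : ℝ) ≤ y ^ 2 := one_le_pow₀ hy1
          have h4 : 0 ≤ y ^ 2 := by positivity
          nlinarith
      _ ≤ 1 / y ^ 30 / 2 / (y ^ 64) * W := by gcongr
  have heps := hy.eps (1 / θ) (1 / y ^ 60) q W (by positivity) hR2 hq.le le_rfl hexp
  have he0 : 0 ≤ eps2 (1 / θ) (1 / y ^ 60) q W := by
    unfold eps2; have := XX_pos (1 / y ^ 60) q W; positivity
  have hmain := estB β θ p q L N hPar _ hLs hsieve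
    (by linarith)
    (by
      have : 2 / θ = 2 * (1 / θ) := by ring
      rw [this]; linarith)
    (1 / y ^ 60) (by positivity) (by rw [div_le_one (by positivity)]; exact one_le_pow₀ hy1)
    her2 W hWin ε (lt_of_lt_of_le (by positivity) hε) E hfam s0 hκ hsE
    (hy.hsm _ (1 / θ) _ _ he0 heps (by linarith) hR2 hε (by positivity) hT)
    q' (by omega) hqq (1 / y ^ 16) (by positivity)
    (by rw [div_le_one (by positivity)]; exact one_le_pow₀ hy1)
    her'' hpp' (hy.hsm2 _ (1 / θ) q' _ he0 heps hR1 hR2 hq0'.le h2 (by positivity) hT)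
    (4502 * y ^ 120) (dimC y hy q' h1 h2 β θ' p' hβ' hθ' ht2 (1 / θ) (by positivity) hR2)
  refine hmain.trans ?_
  have hlog := hy.logb (1 / θ) (by positivity) 128 (by norm_num) (by linarith)
  calc 4 * θ * (100 * (1 / θ) * (1 + Real.log (1 / θ))) * (4502 * y ^ 120)
      = 400 * (1 + Real.log (1 / θ)) * (4502 * y ^ 120) := by field_simp; ring
    _ ≤ 400 * (((128 : ℕ) : ℝ) * (y / 10 ^ 12)) * (4502 * y ^ 120) := by gcongr
    _ = (400 * 128 * 4502 / 10 ^ 12) * y ^ 121 := by push_cast; ring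
    _ ≤ 1 / 1000 * y ^ 121 :=
        mul_le_mul (by norm_num) le_rfl (by positivity) (by norm_num)
    _ = _ := by ring

theorem clsC (y : ℝ) (hy : Big y) (q : ℕ) (hq : (q : ℝ) = y ^ 64)
    (β θ : ℝ) (p : ℤ) (hcop : IsCoprime p (q : ℤ))
    (hβ : (q : ℝ) * β = p + θ)
    (hs1 : 1 / (8 * y ^ 128) ≤ θ) (hs2 : θ ≤ 4 / y ^ 128)
    (ε : ℝ) (hε : 1 / (2 * y ^ 366) ≤ ε) (hε1 : ε ≤ 1 / 2)
    {ι : Type} [Fintype ι] (E : ι → ℝ)
    (hsep : ∀ i j, i ≠ j → ε ≤ |E i - E j|) (h5 : ∀ i, |E i| ≤ 5)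
    (hsE : ∀ i, |pp β (E i) q| ≤ 1 / y ^ 60) :
    (Fintype.card ι : ℝ) ≤ y ^ 121 / 1000 + 1 / (1000 * y ^ 123 * ε) := by
  have hy0 := hy.pos
  have hy1 := hy.one
  obtain ⟨hθ, hR1, hR2⟩ := inv_bounds θ (y ^ 128) (by positivity) hs1 hs2
  have hp64 := hy.pow_ge 64 (by norm_num)
  have hε0 : 0 < ε := lt_of_lt_of_le (by positivity) hε
  have hq2 : 2 ≤ q := by
    have : (2 : ℝ) ≤ q := by rw [hq]; linarith
    exact_mod_cast this
  have hq0 : (0 : ℝ) < q := by positivity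
  have hlq := hy.logb q hq0 64 (by norm_num) (by rw [hq]; linarith)
  have hx : 100 * θ * q * (1 + Real.log q) ≤ 1 := by
    have hl0 : 0 ≤ 1 + Real.log q := by
      have := Real.log_nonneg (x := (q : ℝ)) (by exact_mod_cast (by omega : 1 ≤ q))
      linarith
    calc 100 * θ * q * (1 + Real.log q)
        ≤ 100 * (4 / y ^ 128) * (y ^ 64) * (((64 : ℕ) : ℝ) * (y / 10 ^ 12)) := by
          gcongr; exact hq.le
      _ = (100 * 4 * 64 / 10 ^ 12) / y ^ 63 := by push_cast; field_simp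
      _ ≤ 1 := by
          rw [div_le_one (by positivity)]
          refine le_trans ?_ (hy.pow_ge 63 (by norm_num))
          norm_num
  obtain ⟨-, -, hprod⟩ := levA β θ p q hq2 hcop hβ hθ 1 hx le_rfl
  have hD := Iface.pieceD β q hq2 hprod ε (1 / y ^ 60) hε0 hε1 (by positivity) E h5 hsep hsE
  refine hD.trans ?_
  have hinv : 1 / ε ≤ 2 * y ^ 366 := by
    rw [div_le_iff₀ hε0]
    calc (1 : ℝ) = 2 * y ^ 366 * (1 / (2 * y ^ 366)) := by field_simp
      _ ≤ 2 * y ^ 366 * ε := by gcongr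
  have hlog := hy.logb (1 / ε) (by positivity) 366 (by norm_num) (by
    have : 0 < y ^ 366 := by positivity
    linarith)
  have hlog0 : 0 ≤ Real.log (1 / ε) := by
    apply Real.log_nonneg
    rw [le_div_iff₀ hε0]; linarith
  have hlog' : Real.log (1 / ε) ≤ 366 * (y / 10 ^ 12) := by push_cast at hlog; linarith
  have h64 : y ^ 64 ≤ y ^ 120 := pow_le_pow_right₀ hy1 (by norm_num)
  have h120 : 4 * y ^ 120 ≤ y ^ 121 / 1000 := by
    have h1 := hy.h1
    have h2 : 0 < y ^ 120 := by positivity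
    have e : y ^ 121 = y ^ 120 * y := by ring
    rw [e]; nlinarith
  rw [hq]
  calc 4 * y ^ 64 + 100 * (1 / y ^ 60) / (y ^ 64 * ε) * Real.log (1 / ε)
      ≤ 4 * y ^ 120 + 100 * (1 / y ^ 60) / (y ^ 64 * ε) * (366 * (y / 10 ^ 12)) := by
        gcongr
    _ = 4 * y ^ 120 + (100 * 366 / 10 ^ 12) * (1 / (y ^ 123 * ε)) := by
        congr 1; field_simp
    _ ≤ y ^ 121 / 1000 + 1 / 1000 * (1 / (y ^ 123 * ε)) := by
        have : 0 ≤ 1 / (y ^ 123 * ε) := by positivity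
        have h3 : (100 * 366 / 10 ^ 12 : ℝ) ≤ 1 / 1000 := by norm_num
        gcongr
    _ = _ := by congr 1; field_simp

end Run7.h608
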