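import Pool.Agent.Run7.h608.Est

set_option autoImplicit false

namespace Run7.h608

open Finset

theorem sn_negβ (β x : ℝ) : sn (-β) x = - sn β x := by
  unfold sn
  rw [← Real.sin_neg]; congr 1; ring

theorem pot_neg (β : ℝ) (m : ℤ) : pot (-β) m = pot β m := by
  unfold pot
  rw [← Real.cos_neg (2 * Real.pi * (m * β))]
  congr 2; ring

theorem HH_neg (β : ℝ) : HH (-β) = HH β := by
  apply LinearMap.ext; intro u; funext m
  rw [HH_apply, HH_apply, pot_neg]

theorem pp_neg (β E : ℝ) (n : ℕ) : pp (-β) E n = pp β E n := by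
  induction n using Nat.twoStepInduction with
  | zero => rfl
  | one => rfl
  | more n ih1 ih2 => rw [pp_succ, pp_succ, ih1, ih2, sn_negβ, neg_sq]

theorem bb_neg (β : ℝ) (n k : ℕ) : bb (-β) n k = bb β n k := by
  unfold bb
  apply prod_congr rfl; intro j _
  rw [sn_negβ, sn_negβ, neg_div_neg_eq]

theorem Cb_neg (β : ℝ) (n : ℕ) : Cb (-β) n = Cb β n := by
  unfold Cb; simp only [bb_neg]

theorem er_neg (β : ℝ) (n : ℕ) : er (-β) n = er β n := by
  unfold er; rw [Cb_neg]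

theorem PerFam_neg {β : ℝ} {N : ℕ} {ε : ℝ} {ι : Type} [Fintype ι] {E : ι → ℝ}
    (h : PerFam β N ε ι E) : PerFam (-β) N ε ι E := by
  refine ⟨h.sep, ?_⟩
  intro i
  rw [HH_neg]
  exact h.eig i

theorem PerFam_sub {β : ℝ} {N : ℕ} {ε : ℝ} {ι : Type} [Fintype ι] {E : ι → ℝ}
    (h : PerFam β N ε ι E) (I : Finset ι) : PerFam β N ε I (fun i : I => E i) := by
  refine ⟨?_, fun i => h.eig i⟩
  intro i j hij
  apply h.sep
  intro h'; exact hij (Subtype.ext h')

/-- largeness of the scale variable -/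
structure Big (y : ℝ) : Prop where
  h1 : (10 : ℝ) ^ 12 ≤ y
  h2 : (10 : ℝ) ^ 12 * (1 + Real.log y) ≤ y

theorem Big.pos {y : ℝ} (h : Big y) : 0 < y := lt_of_lt_of_le (by norm_num) h.h1

theorem Big.one {y : ℝ} (h : Big y) : 1 ≤ y := le_trans (by norm_num) h.h1

theorem Big.expo {y : ℝ} (h : Big y) : Real.exp (-(y ^ 2 / 1000)) * y ^ 2000 ≤ 1 := by
  have hy := h.pos
  have e1 : y ^ 2000 = Real.exp (2000 * Real.log y) := by
    rw [mul_comm, Real.exp_mul, Real.exp_log hy]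
    norm_cast
  rw [e1, ← Real.exp_add]
  apply Real.exp_le_one_iff.mpr
  have h1 := h.h1
  have h2 := h.h2
  have h3 : Real.log y ≤ y / 10 ^ 12 := by
    rw [le_div_iff₀ (by norm_num)]; linarith
  have h4 : y * 10 ^ 12 ≤ y ^ 2 := by nlinarith
  linarith

end Run7.h608
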