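import Pool.Agent.Run7.h608.Window

set_option autoImplicit false

namespace Run7.h608

open Finset

/-- phase selector of the sign of `s` -/
noncomputable def kap (s : ℝ) : ℝ := if 0 ≤ s then 1 / 2 else 0

/-- centres of the barriers -/
noncomputable def cen (θ κ : ℝ) (k : ℤ) : ℤ := ⌈((k : ℝ) + κ) / θ⌉

theorem cen_lb (θ κ : ℝ) (k : ℤ) : ((k : ℝ) + κ) / θ ≤ cen θ κ k := Int.le_ceil _

theorem cen_ub (θ κ : ℝ) (k : ℤ) : (cen θ κ k : ℝ) < ((k : ℝ) + κ) / θ + 1 := Int.ceil_lt_add_one _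

theorem cen_len (θ κ : ℝ) (k : ℤ) :
    (cen θ κ (k + 1) : ℝ) - cen θ κ k ≤ 1 / θ + 1 := by
  have h1 := cen_ub θ κ (k + 1)
  have h2 := cen_lb θ κ k
  have h3 : (((k + 1 : ℤ) : ℝ) + κ) / θ = ((k : ℝ) + κ) / θ + 1 / θ := by push_cast; ring
  linarith

theorem cen_mono (θ κ : ℝ) (hθ : 0 < θ) (k : ℤ) : cen θ κ k ≤ cen θ κ (k + 1) := by
  unfold cen
  apply Int.ceil_mono
  push_cast
  gcongr
  linarith

theorem cen_mem (θ κ : ℝ) (hθ : 0 < θ) (n k : ℤ) (hk : k = ⌊(n : ℝ) * θ - κ⌋) :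
    n ∈ Ico (cen θ κ k) (cen θ κ (k + 1)) := by
  have h1 : (k : ℝ) ≤ n * θ - κ := by rw [hk]; exact Int.floor_le _
  have h2 : (n : ℝ) * θ - κ < k + 1 := by rw [hk]; exact Int.lt_floor_add_one _
  rw [mem_Ico]
  constructor
  · unfold cen
    rw [Int.ceil_le, div_le_iff₀ hθ]
    linarith
  · unfold cen
    rw [Int.lt_ceil, lt_div_iff₀ hθ]
    push_cast; linarith

theorem pot_cen (β θ : ℝ) (p : ℤ) (q : ℕ) (hβ : (q : ℝ) * β = p + θ) (hθ : 0 < θ)
    (η s : ℝ) (hη : 0 < η) (hs : η ≤ |s|) (W : ℕ)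
    (hW : 4 * Real.pi * (W + 1) * θ ≤ Real.sqrt η) (k m : ℤ)
    (hm : |m - cen θ (kap s) k| ≤ W) :
    2 + 3 / 4 * η ≤ |s - 2 * Real.cos (2 * Real.pi * (q * (m * β)))| := by
  set x : ℝ := (m : ℝ) * θ - (k + kap s) with hx
  have e0 : 2 * Real.pi * ((q : ℝ) * (m * β)) = 2 * Real.pi * (m * θ) + ((m * p : ℤ) : ℝ) * (2 * Real.pi) := by
    have : (q : ℝ) * (m * β) = m * (q * β) := by ring
    rw [this, hβ]; push_cast; ring
  rw [e0, Real.cos_add_int_mul_two_pi]
  have hπ := Real.pi_pos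
  have hxb : |x| ≤ (W + 1) * θ := by
    have h1 := cen_lb θ (kap s) k
    have h2 := cen_ub θ (kap s) k
    rw [div_le_iff₀ hθ] at h1
    have h2' : (cen θ (kap s) k : ℝ) * θ < (k + kap s) + θ := by
      have := mul_lt_mul_of_pos_right h2 hθ
      rw [add_mul, div_mul_cancel₀ _ hθ.ne', one_mul] at this
      exact this
    have h3 : |(m : ℝ) - cen θ (kap s) k| ≤ W := by
      have : ((|m - cen θ (kap s) k| : ℤ) : ℝ) ≤ ((W : ℤ) : ℝ) := by exact_mod_cast hm
      push_cast at this; exact this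
    obtain ⟨h4, h5⟩ := abs_le.mp h3
    have h6 := mul_le_mul_of_nonneg_right h4 hθ.le
    have h7 := mul_le_mul_of_nonneg_right h5 hθ.le
    rw [abs_le]
    constructor
    · nlinarith
    · nlinarith
  have hx2 : (2 * Real.pi * x) ^ 2 ≤ η / 4 := by
    have h1 : |2 * Real.pi * x| ≤ Real.sqrt η / 2 := by
      rw [abs_mul, abs_of_pos (by positivity : 0 < 2 * Real.pi)]
      have := mul_le_mul_of_nonneg_left hxb (by positivity : 0 ≤ 2 * Real.pi)
      linarith
    have h2 := sq_le_sq' (by linarith [(abs_le.mp h1).1]) (abs_le.mp h1).2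
    calc (2 * Real.pi * x) ^ 2 ≤ (Real.sqrt η / 2) ^ 2 := h2
      _ = η / 4 := by rw [div_pow, Real.sq_sqrt hη.le]; norm_num
  have hc := Real.one_sub_sq_div_two_le_cos (x := 2 * Real.pi * x)
  have hc2 : 2 - η / 4 ≤ 2 * Real.cos (2 * Real.pi * x) := by linarith
  by_cases h0 : 0 ≤ s
  · have hk : kap s = 1 / 2 := by unfold kap; rw [if_pos h0]
    have e1 : 2 * Real.pi * ((m : ℝ) * θ) = 2 * Real.pi * x + Real.pi + (k : ℝ) * (2 * Real.pi) := by
      rw [hx, hk]; ring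
    rw [e1, Real.cos_add_int_mul_two_pi, Real.cos_add_pi]
    rw [abs_of_nonneg h0] at hs
    refine le_trans ?_ (le_abs_self _)
    linarith
  · have hk : kap s = 0 := by unfold kap; rw [if_neg h0]
    have e1 : 2 * Real.pi * ((m : ℝ) * θ) = 2 * Real.pi * x + (k : ℝ) * (2 * Real.pi) := by
      rw [hx, hk]; ring
    rw [e1, Real.cos_add_int_mul_two_pi]
    push Not at h0
    rw [abs_of_neg h0] at hs
    have hneg := neg_le_abs (s - 2 * Real.cos (2 * Real.pi * x))
    linarith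

theorem near_bound (η : ℝ) (hη : 0 < η) (hη1 : η ≤ 1) (q : ℕ) (hq : 1 ≤ q) (W : ℕ) (M : ℝ)
    (hM : 0 ≤ M) (x : ℝ) (hx : |x| ≤ q) :
    M / Real.cosh (Real.sqrt η / 2 / q * W) * Real.cosh (Real.sqrt η / 2 / q * x)
      ≤ 4 * M * Real.exp (-(Real.sqrt η / 2 / q * W)) := by
  set g : ℝ := Real.sqrt η / 2 / q with hg
  have hq0 : (0 : ℝ) < q := by exact_mod_cast hq
  have hg0 : 0 ≤ g := by positivity
  have hs1 : Real.sqrt η ≤ 1 := by
    rw [show (1 : ℝ) = Real.sqrt 1 by simp]; exact Real.sqrt_le_sqrt hη1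
  have hgx : |g * x| ≤ 1 / 2 := by
    rw [abs_mul, abs_of_nonneg hg0]
    calc g * |x| ≤ g * q := mul_le_mul_of_nonneg_left hx hg0
      _ = Real.sqrt η / 2 := by rw [hg]; field_simp
      _ ≤ 1 / 2 := by linarith
  have h1 : Real.cosh (g * x) ≤ 2 := by
    have a1 := Real.cosh_le_exp_half_sq (g * x)
    have a2 : (g * x) ^ 2 / 2 ≤ 1 / 8 := by
      have := sq_le_sq' (by linarith [(abs_le.mp hgx).1]) (abs_le.mp hgx).2
      linarith
    have a3 := Real.exp_le_exp.mpr a2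
    have a4 := Real.abs_exp_sub_one_sub_id_le (x := 1 / 8) (by rw [abs_of_pos] <;> norm_num)
    have a5 := (abs_le.mp a4).2
    linarith
  have h2 : 1 / Real.cosh (g * W) ≤ 2 * Real.exp (-(g * W)) := by
    rw [div_le_iff₀ (Real.cosh_pos _), Real.cosh_eq]
    have e1 : Real.exp (-(g * W)) * Real.exp (g * W) = 1 := by rw [← Real.exp_add]; simp
    have e2 : 0 < Real.exp (-(g * W)) := Real.exp_pos _
    nlinarith
  have h3 : 0 < Real.cosh (g * x) := Real.cosh_pos _
  calc M / Real.cosh (g * W) * Real.cosh (g * x)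
      = M * (1 / Real.cosh (g * W)) * Real.cosh (g * x) := by ring
    _ ≤ M * (2 * Real.exp (-(g * W))) * 2 := by
        have : 0 ≤ 1 / Real.cosh (g * W) := by
          have := Real.cosh_pos (g * W); positivity
        gcongr
    _ = _ := by ring

theorem PP_succ (β : ℝ) (n : ℕ) : PP β (n + 2) =
    (HH β).comp (PP β (n + 1)) - ((4 * sn β (n + 1) ^ 2 : ℝ) : ℂ) • PP β n := rfl

theorem pp_succ (β E : ℝ) (n : ℕ) : pp β E (n + 2) =
    E * pp β E (n + 1) - 4 * sn β (n + 1) ^ 2 * pp β E n := rfl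

theorem PP_eig (β E : ℝ) (ψ : ℤ → ℂ) (h : HH β ψ = (E : ℂ) • ψ) (n : ℕ) :
    PP β n ψ = ((pp β E n : ℝ) : ℂ) • ψ := by
  induction n using Nat.twoStepInduction with
  | zero => simp [PP, pp]
  | one => simpa [PP, pp] using h
  | more n ih1 ih2 =>
    rw [PP_succ, pp_succ]
    simp only [LinearMap.sub_apply, LinearMap.comp_apply, LinearMap.smul_apply]
    rw [ih1, ih2, map_smul, h]
    simp only [smul_smul, ← sub_smul]
    congr 1
    push_cast; ring

/-- cut-off to `Ico c c'` -/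
noncomputable def cutf (c c' : ℤ) (u : ℤ → ℂ) : ℤ → ℂ := fun m => if m ∈ Ico c c' then u m else 0

theorem cut_est (β : ℝ) (a : ℂ) (j q : ℕ) (hjq : j ≤ q)
    (hs : ∀ i : ℕ, 1 ≤ i → i ≤ q → sn β i ≠ 0) (u : ℤ → ℂ) (c c' : ℤ) (ε F : ℝ) (hε : 0 ≤ ε)
    (h1 : ∀ m : ℤ, |m - c| ≤ q → ‖u m‖ ≤ ε) (h2 : ∀ m : ℤ, |m - c'| ≤ q → ‖u m‖ ≤ ε)
    (hF : ∀ m, ‖PP β j u m - a * u m‖ ≤ F) (m : ℤ) :
    ‖PP β j (cutf c c' u) m - a * cutf c c' u m‖ ≤ F + Cb β j ^ 2 * ε := by
  have hs' : ∀ i : ℕ, 1 ≤ i → i ≤ j → sn β i ≠ 0 := fun i hi hij => hs i hi (hij.trans hjq)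
  have hF0 : 0 ≤ F := (norm_nonneg _).trans (hF 0)
  have hjq' : (j : ℤ) ≤ q := by exact_mod_cast hjq
  by_cases hm : m ∈ Ico c c'
  · have hb : ‖PP β j (cutf c c' u - u) m‖ ≤ Cb β j ^ 2 * ε := by
      apply PP_bound β j hs'
      intro i hi
      simp only [Pi.sub_apply, cutf]
      by_cases hmi : m + i ∈ Ico c c'
      · rw [if_pos hmi]; simpa using hε
      · rw [if_neg hmi, zero_sub, norm_neg]
        rw [mem_Ico] at hm hmi
        have hi' := abs_le.mp hi
        by_cases hlt : m + i < c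
        · apply h1; rw [abs_le]; constructor <;> linarith
        · have : c' ≤ m + i := by
            by_contra h; push Not at h hlt; exact hmi ⟨hlt, h⟩
          apply h2; rw [abs_le]; constructor <;> linarith
    have e1 : PP β j (cutf c c' u) m - a * cutf c c' u m
        = (PP β j u m - a * u m) + PP β j (cutf c c' u - u) m := by
      rw [map_sub]
      simp only [Pi.sub_apply, cutf, if_pos hm]
      ring
    rw [e1]
    exact (norm_add_le _ _).trans (add_le_add (hF m) hb)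
  · have hb : ‖PP β j (cutf c c' u) m‖ ≤ Cb β j ^ 2 * ε := by
      apply PP_bound β j hs'
      intro i hi
      simp only [cutf]
      by_cases hmi : m + i ∈ Ico c c'
      · rw [if_pos hmi]
        rw [mem_Ico] at hm hmi
        have hi' := abs_le.mp hi
        by_cases hlt : m < c
        · apply h1; rw [abs_le]; constructor <;> linarith
        · have : c' ≤ m := by
            by_contra h; push Not at h hlt; exact hm ⟨hlt, h⟩
          apply h2; rw [abs_le]; constructor <;> linarith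
      · rw [if_neg hmi]; simpa using hε
    have e1 : cutf c c' u m = 0 := by simp only [cutf, if_neg hm]
    rw [e1, mul_zero, sub_zero]
    linarith

/-- support in `Ico a b` -/
def Supp (φ : ℤ → ℂ) (a b : ℤ) : Prop := ∀ m, m ∉ Ico a b → φ m = 0

theorem Supp.mono {φ : ℤ → ℂ} {a b a' b' : ℤ} (h : Supp φ a b) (ha : a' ≤ a) (hb : b ≤ b') :
    Supp φ a' b' := by
  intro m hm
  apply h
  intro h'
  apply hm
  rw [mem_Ico] at h' ⊢
  exact ⟨ha.trans h'.1, h'.2.trans_le hb⟩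

theorem cutf_supp (c c' : ℤ) (u : ℤ → ℂ) : Supp (cutf c c' u) c c' := by
  intro m hm; simp only [cutf, if_neg hm]

theorem HH_supp (β : ℝ) (φ : ℤ → ℂ) (a b : ℤ) (h : Supp φ a b) : Supp (HH β φ) (a - 1) (b + 1) := by
  intro m hm
  rw [mem_Ico] at hm
  have h1 : φ (m + 1) = 0 := by apply h; rw [mem_Ico]; intro h'; apply hm; constructor <;> omega
  have h2 : φ (m - 1) = 0 := by apply h; rw [mem_Ico]; intro h'; apply hm; constructor <;> omega
  have h3 : φ m = 0 := by apply h; rw [mem_Ico]; intro h'; apply hm; constructor <;> omega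
  rw [HH_apply, h1, h2, h3]; ring

theorem PP_supp (β : ℝ) (φ : ℤ → ℂ) (a b : ℤ) (h : Supp φ a b) (n : ℕ) :
    Supp (PP β n φ) (a - n) (b + n) := by
  induction n using Nat.twoStepInduction with
  | zero => simpa [PP] using h
  | one => simpa [PP] using HH_supp β φ a b h
  | more n ih1 ih2 =>
    have h1 := HH_supp β _ _ _ ih2
    have h1' : Supp (HH β (PP β (n + 1) φ)) (a - ((n + 2 : ℕ) : ℤ)) (b + ((n + 2 : ℕ) : ℤ)) :=
      h1.mono (by push_cast; linarith) (by push_cast; linarith)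
    have h2' : Supp (PP β n φ) (a - ((n + 2 : ℕ) : ℤ)) (b + ((n + 2 : ℕ) : ℤ)) :=
      ih1.mono (by push_cast; linarith) (by push_cast; linarith)
    intro m hm
    rw [PP_succ]
    simp only [LinearMap.sub_apply, LinearMap.comp_apply, LinearMap.smul_apply, Pi.sub_apply,
      Pi.smul_apply]
    rw [h1' m hm, h2' m hm]; simp

theorem sum_supp {M : Type*} [AddCommMonoid M] (f : ℤ → M) (S T : Finset ℤ)
    (hS : ∀ m, m ∉ S → f m = 0) (hT : ∀ m, m ∉ T → f m = 0) :
    ∑ m ∈ S, f m = ∑ m ∈ T, f m := by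
  rw [sum_subset (subset_union_left : S ⊆ S ∪ T) (fun m _ hm => hS m hm),
    sum_subset (subset_union_right : T ⊆ S ∪ T) (fun m _ hm => hT m hm)]

/-- the dual function over a box -/
noncomputable def dualB (β : ℝ) (A A' : ℤ) (φ : ℤ → ℂ) : ℤ → ℂ :=
  fun n => ∑ m ∈ Ico A A', φ m * ee ((m : ℝ) * n * β)

theorem dual_HH (β : ℝ) (A A' : ℤ) (φ : ℤ → ℂ) (h : Supp φ (A + 1) (A' - 1)) :
    HH β (dualB β A A' φ) = dualB β A A' (HH β φ) := by
  funext n
  rw [HH_apply]
  unfold dualB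
  simp only [HH_apply]
  have s1 : ∑ m ∈ Ico A A', φ (m + 1) * ee ((m : ℝ) * n * β)
      = ∑ m ∈ Ico A A', φ m * (ee ((m : ℝ) * n * β) * ee (-(n * β))) := by
    have e1 : ∀ m : ℤ, φ (m + 1) * ee ((m : ℝ) * n * β)
        = (fun m : ℤ => φ m * (ee ((m : ℝ) * n * β) * ee (-(n * β)))) (m + 1) := by
      intro m
      simp only
      rw [← ee_add]
      congr 2; push_cast; ring
    simp only [e1]
    rw [sum_Ico_add' (fun m : ℤ => φ m * (ee ((m : ℝ) * n * β) * ee (-(n * β))))]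
    apply sum_supp
    · intro m hm; rw [h m, zero_mul]
      rw [mem_Ico] at hm ⊢; intro h'; apply hm; constructor <;> omega
    · intro m hm; rw [h m, zero_mul]
      rw [mem_Ico] at hm ⊢; intro h'; apply hm; constructor <;> omega
  have s2 : ∑ m ∈ Ico A A', φ (m - 1) * ee ((m : ℝ) * n * β)
      = ∑ m ∈ Ico A A', φ m * (ee ((m : ℝ) * n * β) * ee (n * β)) := by
    have e1 : ∀ m : ℤ, φ (m - 1) * ee ((m : ℝ) * n * β)
        = (fun m : ℤ => φ m * (ee ((m : ℝ) * n * β) * ee (n * β))) (m + (-1)) := by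
      intro m
      simp only
      rw [← ee_add, ← sub_eq_add_neg]
      congr 2; push_cast; ring
    simp only [e1]
    rw [sum_Ico_add' (fun m : ℤ => φ m * (ee ((m : ℝ) * n * β) * ee (n * β)))]
    apply sum_supp
    · intro m hm; rw [h m, zero_mul]
      rw [mem_Ico] at hm ⊢; intro h'; apply hm; constructor <;> omega
    · intro m hm; rw [h m, zero_mul]
      rw [mem_Ico] at hm ⊢; intro h'; apply hm; constructor <;> omega
  have s3 : ∀ m : ℤ, φ m * ee ((m : ℝ) * ((n + 1 : ℤ) : ℝ) * β)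
      = φ m * (ee ((m : ℝ) * n * β) * ee (m * β)) := by
    intro m; rw [← ee_add]; congr 2; push_cast; ring
  have s4 : ∀ m : ℤ, φ m * ee ((m : ℝ) * ((n - 1 : ℤ) : ℝ) * β)
      = φ m * (ee ((m : ℝ) * n * β) * ee (-(m * β))) := by
    intro m; rw [← ee_add]; congr 2; push_cast; ring
  simp only [s3, s4, add_mul, sum_add_distrib]
  rw [s1, s2, pot_eq, mul_sum, ← sum_add_distrib, ← sum_add_distrib, ← sum_add_distrib,
    ← sum_add_distrib]
  apply sum_congr rfl; intro m _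
  rw [pot_eq]
  ring

theorem dual_PP (β : ℝ) (A A' : ℤ) (φ : ℤ → ℂ) (n : ℕ) (h : Supp φ (A + n) (A' - n)) :
    PP β n (dualB β A A' φ) = dualB β A A' (PP β n φ) := by
  induction n using Nat.twoStepInduction with
  | zero => simp [PP]
  | one => simpa [PP] using dual_HH β A A' φ (by simpa using h)
  | more n ih1 ih2 =>
    have h1 := ih1 (h.mono (by push_cast; linarith) (by push_cast; linarith))
    have h2 := ih2 (h.mono (by push_cast; linarith) (by push_cast; linarith))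
    rw [PP_succ]
    simp only [LinearMap.sub_apply, LinearMap.comp_apply, LinearMap.smul_apply]
    rw [h1, h2, dual_HH]
    · funext k
      simp only [Pi.sub_apply, Pi.smul_apply, smul_eq_mul, dualB, sub_mul, sum_sub_distrib, mul_sum,
        mul_assoc]
    · exact (PP_supp β φ _ _ h (n + 1)).mono (by push_cast; linarith) (by push_cast; linarith)

end Run7.h608
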