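import Pool.Agent.Run7.h608.MainB

set_option autoImplicit false

namespace Run7.h608

open Finset

theorem total (y : ℝ) (hy : Big y) (q q' : ℕ) (hq : (q : ℝ) = y ^ 64) (h1 : y ^ 32 / 2 ≤ q')
    (h2 : (q' : ℝ) ≤ 2 * y ^ 32)
    (β θ θ' : ℝ) (p p' : ℤ) (hcop : IsCoprime p (q : ℤ)) (hcop' : IsCoprime p' (q' : ℤ))
    (hβ : (q : ℝ) * β = p + θ) (hβ' : (q' : ℝ) * β = p' - θ')
    (hs1 : 1 / (8 * y ^ 128) ≤ θ) (hs2 : θ ≤ 4 / y ^ 128)
    (ht1 : 1 / (8 * y ^ 64) ≤ θ') (ht2 : θ' ≤ 4 / y ^ 64) (N : ℕ) (P : ℤ)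
    (hN : 32 * y ^ 128 ≤ N) (hPN : IsCoprime P (N : ℤ)) (hβN : β = (P : ℝ) / N)
    (ε : ℝ) (hε : 1 / (2 * y ^ 366) ≤ ε) (hε1 : ε ≤ 1 / 2)
    {ι : Type} [Fintype ι] (E : ι → ℝ) (hfam : PerFam β N ε ι E)
    (h5 : ∀ i, |E i| ≤ 5)
    (hT : (Fintype.card ι : ℝ) ≤ 20 * y ^ 366) :
    (Fintype.card ι : ℝ) ≤ y ^ 121 / 200 + 1 / (1000 * y ^ 123 * ε) := by
  classical
  set S1 : Finset ι := univ.filter (fun i => 1 / y ^ 16 < |pp β (E i) q'| ∧ 0 ≤ pp β (E i) q') with hS1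
  set S2 : Finset ι := univ.filter (fun i => 1 / y ^ 16 < |pp β (E i) q'| ∧ ¬ 0 ≤ pp β (E i) q') with hS2
  set S3 : Finset ι := univ.filter (fun i => ¬ 1 / y ^ 16 < |pp β (E i) q'| ∧
    (1 / y ^ 60 < |pp β (E i) q| ∧ 0 ≤ pp β (E i) q)) with hS3
  set S4 : Finset ι := univ.filter (fun i => ¬ 1 / y ^ 16 < |pp β (E i) q'| ∧
    (1 / y ^ 60 < |pp β (E i) q| ∧ ¬ 0 ≤ pp β (E i) q)) with hS4
  set S5 : Finset ι := univ.filter (fun i => ¬ 1 / y ^ 60 < |pp β (E i) q|) with hS5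
  have hcover : (univ : Finset ι) ⊆ S1 ∪ (S2 ∪ (S3 ∪ (S4 ∪ S5))) := by
    intro i _
    simp only [mem_union, hS1, hS2, hS3, hS4, hS5, mem_filter, mem_univ, true_and]
    tauto
  have hcard : (Fintype.card ι : ℝ) ≤ S1.card + (S2.card + (S3.card + (S4.card + S5.card))) := by
    have h0 : (univ : Finset ι).card ≤ S1.card + (S2.card + (S3.card + (S4.card + S5.card))) := by
      refine (card_le_card hcover).trans ?_
      refine (card_union_le _ _).trans (Nat.add_le_add_left ?_ _)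
      refine (card_union_le _ _).trans (Nat.add_le_add_left ?_ _)
      refine (card_union_le _ _).trans (Nat.add_le_add_left ?_ _)
      exact card_union_le _ _
    rw [card_univ] at h0
    exact_mod_cast h0
  have hTs : ∀ S : Finset ι, (Fintype.card S : ℝ) ≤ 20 * y ^ 366 := by
    intro S
    refine le_trans ?_ hT
    rw [Fintype.card_coe]
    exact_mod_cast card_le_univ S
  have hβn : (q' : ℝ) * (-β) = ((-p' : ℤ) : ℝ) + θ' := by rw [mul_neg, hβ']; push_cast; ring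
  have hPn : IsCoprime (-P) (N : ℤ) := hPN.neg_left
  have hβNn : -β = ((-P : ℤ) : ℝ) / N := by rw [hβN]; push_cast; ring
  have b1 : (S1.card : ℝ) ≤ y ^ 121 / 1000 := by
    rw [← Fintype.card_coe]
    apply clsA y hy q' h1 h2 (-β) θ' (-p') hcop'.neg_left hβn ht1 ht2 N (-P) hN hPn hβNn ε hε
      (fun i : S1 => E i) (PerFam_sub (PerFam_neg hfam) S1) (hTs S1) 0
    · intro i
      rw [pp_neg]
      have := (mem_filter.mp i.2).2.2
      unfold kap
      rw [if_pos this, if_pos le_rfl]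
    · intro i
      rw [pp_neg]
      exact (mem_filter.mp i.2).2.1.le
  have b2 : (S2.card : ℝ) ≤ y ^ 121 / 1000 := by
    rw [← Fintype.card_coe]
    apply clsA y hy q' h1 h2 (-β) θ' (-p') hcop'.neg_left hβn ht1 ht2 N (-P) hN hPn hβNn ε hε
      (fun i : S2 => E i) (PerFam_sub (PerFam_neg hfam) S2) (hTs S2) (-1)
    · intro i
      rw [pp_neg]
      have := (mem_filter.mp i.2).2.2
      unfold kap
      rw [if_neg this, if_neg (by norm_num)]
    · intro i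
      rw [pp_neg]
      exact (mem_filter.mp i.2).2.1.le
  have b3 : (S3.card : ℝ) ≤ y ^ 121 / 1000 := by
    rw [← Fintype.card_coe]
    apply clsB y hy q q' hq h1 h2 β θ θ' p p' hcop hcop' hβ hβ' hs1 hs2 ht1 ht2 N P hN hPN hβN ε hε
      (fun i : S3 => E i) (PerFam_sub hfam S3) (hTs S3) 0
    · intro i
      have := (mem_filter.mp i.2).2.2.2
      unfold kap
      rw [if_pos this, if_pos le_rfl]
    · intro i
      exact (mem_filter.mp i.2).2.2.1.le
    · intro i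
      exact not_lt.mp (mem_filter.mp i.2).2.1
  have b4 : (S4.card : ℝ) ≤ y ^ 121 / 1000 := by
    rw [← Fintype.card_coe]
    apply clsB y hy q q' hq h1 h2 β θ θ' p p' hcop hcop' hβ hβ' hs1 hs2 ht1 ht2 N P hN hPN hβN ε hε
      (fun i : S4 => E i) (PerFam_sub hfam S4) (hTs S4) (-1)
    · intro i
      have := (mem_filter.mp i.2).2.2.2
      unfold kap
      rw [if_neg this, if_neg (by norm_num)]
    · intro i
      exact (mem_filter.mp i.2).2.2.1.le
    · intro i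
      exact not_lt.mp (mem_filter.mp i.2).2.1
  have b5 : (S5.card : ℝ) ≤ y ^ 121 / 1000 + 1 / (1000 * y ^ 123 * ε) := by
    rw [← Fintype.card_coe]
    apply clsC y hy q hq β θ p hcop hβ hs1 hs2 ε hε hε1 (fun i : S5 => E i)
      (PerFam_sub hfam S5).sep (fun i => h5 i)
    intro i
    exact not_lt.mp (mem_filter.mp i.2).2
  linarith

/-- data of a good scale `y` for the frequency `α` -/
structure Scale (α y : ℝ) (q q' : ℕ) (p p' : ℤ) (D D' : ℝ) : Prop where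
  hq : (q : ℝ) = y ^ 64
  h1 : y ^ 32 / 2 ≤ q'
  h2 : (q' : ℝ) ≤ 2 * y ^ 32
  hcop : IsCoprime p (q : ℤ)
  hcop' : IsCoprime p' (q' : ℤ)
  hα : (q : ℝ) * α = p + D
  hα' : (q' : ℝ) * α = p' - D'
  hD1 : 1 / (4 * y ^ 128) ≤ D
  hD2 : D ≤ 3 / y ^ 128
  hD1' : 1 / (4 * y ^ 64) ≤ D'
  hD2' : D' ≤ 3 / y ^ 64

theorem total2 (α y : ℝ) (hy : Big y) (q q' : ℕ) (p p' : ℤ) (D D' : ℝ)
    (S : Scale α y q q' p p' D D') (β : ℝ) (hβα : |β - α| < 1 / (8 * y ^ 400)) (N : ℕ) (P : ℤ)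
    (hN : 32 * y ^ 128 ≤ N) (hPN : IsCoprime P (N : ℤ)) (hβN : β = (P : ℝ) / N)
    (ε : ℝ) (hε : 1 / (2 * y ^ 366) ≤ ε) (hε1 : ε ≤ 1 / 2)
    {ι : Type} [Fintype ι] (E : ι → ℝ) (hfam : PerFam β N ε ι E)
    (h5 : ∀ i, |E i| ≤ 5)
    (hT : (Fintype.card ι : ℝ) ≤ 20 * y ^ 366) :
    (Fintype.card ι : ℝ) ≤ y ^ 121 / 200 + 1 / (1000 * y ^ 123 * ε) := by
  have hy0 := hy.pos
  have hy1 := hy.one
  have e1 : |(q : ℝ) * (β - α)| ≤ 1 / (8 * y ^ 128) := by
    rw [abs_mul, abs_of_nonneg (by positivity : (0 : ℝ) ≤ q), S.hq]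
    calc y ^ 64 * |β - α| ≤ y ^ 64 * (1 / (8 * y ^ 400)) := by gcongr
      _ = 1 / (8 * y ^ 336) := by field_simp
      _ ≤ 1 / (8 * y ^ 128) := by
          apply one_div_le_one_div_of_le (by positivity)
          have : y ^ 128 ≤ y ^ 336 := pow_le_pow_right₀ hy1 (by norm_num)
          linarith
  have e2 : |(q' : ℝ) * (β - α)| ≤ 1 / (8 * y ^ 64) := by
    rw [abs_mul, abs_of_nonneg (by positivity : (0 : ℝ) ≤ q')]
    calc (q' : ℝ) * |β - α| ≤ (2 * y ^ 32) * (1 / (8 * y ^ 400)) := by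
          gcongr
          exact S.h2
      _ = 2 / (8 * y ^ 368) := by field_simp
      _ ≤ 1 / (8 * y ^ 64) := by
          rw [div_le_div_iff₀ (by positivity) (by positivity)]
          have : (2 : ℝ) ≤ y ^ 304 := le_trans (by norm_num) (hy.pow_ge 304 (by norm_num))
          calc 2 * (8 * y ^ 64) ≤ y ^ 304 * (8 * y ^ 64) := by gcongr
            _ = 1 * (8 * y ^ 368) := by ring
  obtain ⟨a1, a2⟩ := abs_le.mp e1
  obtain ⟨a3, a4⟩ := abs_le.mp e2
  have f1 : 1 / (4 * y ^ 128) = 1 / (8 * y ^ 128) + 1 / (8 * y ^ 128) := by field_simp; norm_num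
  have f2 : 4 / y ^ 128 = 3 / y ^ 128 + 8 * (1 / (8 * y ^ 128)) := by field_simp; norm_num
  have f3 : 1 / (4 * y ^ 64) = 1 / (8 * y ^ 64) + 1 / (8 * y ^ 64) := by field_simp; norm_num
  have f4 : 4 / y ^ 64 = 3 / y ^ 64 + 8 * (1 / (8 * y ^ 64)) := by field_simp; norm_num
  have g1 : (0 : ℝ) < 1 / (8 * y ^ 128) := by positivity
  have g2 : (0 : ℝ) < 1 / (8 * y ^ 64) := by positivity
  have := S.hD1
  have := S.hD2
  have := S.hD1'
  have := S.hD2'
  refine total y hy q q' S.hq S.h1 S.h2 β (D + q * (β - α)) (D' - q' * (β - α)) p p' S.hcop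
    S.hcop' ?_ ?_ ?_ ?_ ?_ ?_ N P hN hPN hβN ε hε hε1 E hfam h5 hT
  · have := S.hα; linarith
  · have := S.hα'; linarith
  · linarith
  · linarith
  · linarith
  · linarith

/-- the number of grid intervals of mesh `δ` meeting `F` -/
noncomputable def gridN (F : Set ℝ) (δ : ℝ) : ℕ :=
  Set.ncard {m : ℤ | (Set.Icc ((m : ℝ) * δ) (((m : ℝ) + 1) * δ) ∩ F).Nonempty}

theorem AppEig_neg (α θ E : ℝ) (h : Iface.AppEig α θ E) : Iface.AppEig (-α) (-θ) E := by
  intro ε hε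
  obtain ⟨M, ψ, h1, h2, h3⟩ := h ε hε
  refine ⟨M, ψ, h1, h2, ?_⟩
  refine lt_of_eq_of_lt ?_ h3
  apply sum_congr rfl; intro n _
  have e : Real.cos (2 * Real.pi * (n * -α + -θ)) = Real.cos (2 * Real.pi * (n * α + θ)) := by
    rw [← Real.cos_neg]; congr 1; ring
  rw [e]

theorem grid_bound (α y : ℝ) (hy : Big y) (q q' : ℕ) (p p' : ℤ) (D D' : ℝ)
    (S : Scale α y q q' p p' D D') (F : Set ℝ) (hF4 : ∀ x ∈ F, |x| ≤ 4)
    (hF : ∀ x ∈ F, ∃ θ, Iface.AppEig α θ x) (δ : ℝ) (hδ : 1 / y ^ 366 ≤ δ) (hδ1 : δ ≤ 1) :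
    (gridN F δ : ℝ) ≤ y ^ 121 / 100 + 1 / (100 * y ^ 123 * δ) := by
  classical
  have hy0 := hy.pos
  have hy1 := hy.one
  have hδ0 : 0 < δ := lt_of_lt_of_le (by positivity) hδ
  set T : Set ℤ := {m : ℤ | (Set.Icc ((m : ℝ) * δ) (((m : ℝ) + 1) * δ) ∩ F).Nonempty} with hT
  have hp366 := hy.pow_ge 366 (by norm_num)
  have hδinv : 1 / δ ≤ y ^ 366 := by
    rw [div_le_iff₀ hδ0]
    calc (1 : ℝ) = y ^ 366 * (1 / y ^ 366) := by field_simp
      _ ≤ y ^ 366 * δ := by gcongr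
  -- the cells lie in a finite range
  have hrange : T ⊆ (Finset.Icc (-⌈4 / δ⌉ - 1) ⌈4 / δ⌉ : Finset ℤ) := by
    intro m hm
    obtain ⟨x, ⟨hx1, hx2⟩, hxF⟩ := hm
    obtain ⟨hx3, hx4⟩ := abs_le.mp (hF4 x hxF)
    have hc := Int.le_ceil (4 / δ)
    rw [coe_Icc, Set.mem_Icc]
    constructor
    · have : (-4 / δ : ℝ) ≤ m + 1 := by
        rw [div_le_iff₀ hδ0]; linarith
      have h5 : ((-⌈4 / δ⌉ - 1 : ℤ) : ℝ) ≤ m := by push_cast; rw [neg_div] at this; linarith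
      exact_mod_cast h5
    · have : (m : ℝ) ≤ 4 / δ := by rw [le_div_iff₀ hδ0]; linarith
      have h5 : (m : ℝ) ≤ ((⌈4 / δ⌉ : ℤ) : ℝ) := by linarith
      exact_mod_cast h5
  have hTfin : T.Finite := Set.Finite.subset (Finset.finite_toSet _) hrange
  set TF : Finset ℤ := hTfin.toFinset with hTF
  have hTFcard : gridN F δ = TF.card := by
    unfold gridN; rw [Set.ncard_eq_toFinset_card _ hTfin]
  have hTFle : (TF.card : ℝ) ≤ 20 * y ^ 366 := by
    have h1 : TF ⊆ Finset.Icc (-⌈4 / δ⌉ - 1) ⌈4 / δ⌉ := by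
      intro m hm
      have := hrange ((Set.Finite.mem_toFinset hTfin).mp hm)
      simpa using this
    have h2 := card_le_card h1
    rw [Int.card_Icc] at h2
    have hc0 : 0 ≤ ⌈4 / δ⌉ := Int.ceil_nonneg (by positivity)
    have h3 : ((⌈4 / δ⌉ + 1 - (-⌈4 / δ⌉ - 1)).toNat : ℝ) = ((⌈4 / δ⌉ + 1 - (-⌈4 / δ⌉ - 1) : ℤ) : ℝ) := by
      have : (((⌈4 / δ⌉ + 1 - (-⌈4 / δ⌉ - 1)).toNat : ℤ) : ℝ)
          = ((⌈4 / δ⌉ + 1 - (-⌈4 / δ⌉ - 1) : ℤ) : ℝ) := by
        rw [Int.toNat_of_nonneg]; linarith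
      rw [← this]; norm_cast
    have h4 : (TF.card : ℝ) ≤ ((⌈4 / δ⌉ + 1 - (-⌈4 / δ⌉ - 1)).toNat : ℝ) := by exact_mod_cast h2
    rw [h3] at h4
    have h5 := Int.ceil_lt_add_one (4 / δ)
    have h6 : 4 / δ ≤ 4 * y ^ 366 := by
      have : 4 / δ = 4 * (1 / δ) := by ring
      rw [this]; linarith
    push_cast at h4
    linarith
  -- points in the cells
  have hpt : ∀ m : ℤ, m ∈ TF → ∃ x, (m : ℝ) * δ ≤ x ∧ x ≤ ((m : ℝ) + 1) * δ ∧ x ∈ F := by
    intro m hm
    obtain ⟨x, ⟨hx1, hx2⟩, hxF⟩ := (Set.Finite.mem_toFinset hTfin).mp hm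
    exact ⟨x, hx1, hx2, hxF⟩
  choose! X hX1 hX2 hX3 using hpt
  have key : ∀ G : Finset ℤ, G ⊆ TF → (∀ m ∈ G, ∀ m' ∈ G, m < m' → m + 2 ≤ m') →
      (G.card : ℝ) ≤ y ^ 121 / 200 + 1 / (1000 * y ^ 123 * (δ / 2)) := by
    intro G hG hgap
    have hθ : ∀ i : G, ∃ θ, Iface.AppEig α θ (X i) := fun i => hF _ (hX3 i (hG i.2))
    choose θ hθ using hθ
    obtain ⟨N, P, hN0, hNρ, hPN, hβα, hev⟩ := Iface.pieceE α (fun i : G => X i) θ hθ
      (1 / (8 * y ^ 400)) (by positivity)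
    choose E' ψ hE1 hE2 hE3 hE4 using hev
    rw [← Fintype.card_coe]
    have hsepX : ∀ m ∈ G, ∀ m' ∈ G, m < m' → δ ≤ X m' - X m := by
      intro m hm m' hm' hlt
      have h1 := hgap m hm m' hm' hlt
      have h2 := hX2 m (hG hm)
      have h3 := hX1 m' (hG hm')
      have h4 : (m : ℝ) + 2 ≤ m' := by exact_mod_cast h1
      have h5 : ((m : ℝ) + 2) * δ ≤ m' * δ := by gcongr
      nlinarith
    have hsepX' : ∀ i j : G, i ≠ j → δ ≤ |X i - X j| := by
      intro i j hij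
      rcases lt_trichotomy (i : ℤ) (j : ℤ) with h | h | h
      · have := hsepX i i.2 j j.2 h
        rw [abs_sub_comm]
        exact this.trans (le_abs_self _)
      · exact absurd (Subtype.ext h) hij
      · have := hsepX j j.2 i i.2 h
        exact this.trans (le_abs_self _)
    have hρδ : 1 / (8 * y ^ 400) ≤ δ / 4 := by
      have h1 : 1 / (8 * y ^ 400) ≤ 1 / y ^ 366 / 4 := by
        rw [div_div, div_le_div_iff₀ (by positivity) (by positivity)]
        have : (1 : ℝ) ≤ y ^ 34 := one_le_pow₀ hy1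
        calc 1 * (y ^ 366 * 4) ≤ y ^ 34 * (y ^ 366 * 8) := by
              gcongr
              norm_num
          _ = 1 * (8 * y ^ 400) := by ring
      linarith
    have hfam : PerFam ((P : ℝ) / N) N (δ / 2) G E' := by
      constructor
      · intro i j hij
        have h1 := hsepX' i j hij
        have h2 := hE1 i
        have h3 := hE1 j
        have h4 : |X i - X j| ≤ |E' i - E' j| + |E' i - X i| + |E' j - X j| := by
          calc |X i - X j| = |(E' i - E' j) - (E' i - X i) + (E' j - X j)| := by congr 1; ring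
            _ ≤ |(E' i - E' j) - (E' i - X i)| + |E' j - X j| := abs_add_le _ _
            _ ≤ _ := by gcongr; exact abs_sub _ _
        linarith
      · intro i
        exact ⟨ψ i, hE2 i, hE3 i, hE4 i⟩
    refine total2 α y hy q q' p p' D D' S ((P : ℝ) / N) hβα N P ?_ hPN rfl (δ / 2) ?_ ?_ E' hfam ?_ ?_
    · refine le_trans ?_ hNρ
      rw [one_div_one_div]
      have : (4 : ℝ) ≤ y ^ 272 := le_trans (by norm_num) (hy.pow_ge 272 (by norm_num))
      calc 32 * y ^ 128 = 8 * (4 * y ^ 128) := by ring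
        _ ≤ 8 * (y ^ 272 * y ^ 128) := by gcongr
        _ = _ := by ring
    · have : 1 / (2 * y ^ 366) = 1 / y ^ 366 / 2 := by field_simp
      rw [this]; linarith
    · linarith
    · intro i
      have h1 := hE1 i
      have h2 := hF4 _ (hX3 i (hG i.2))
      have h3 : 1 / (8 * y ^ 400) ≤ 1 := by
        rw [div_le_one (by positivity)]
        have := hy.pow_ge 400 (by norm_num)
        linarith
      calc |E' i| = |(E' i - X i) + X i| := by congr 1; ring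
        _ ≤ |E' i - X i| + |X i| := abs_add_le _ _
        _ ≤ 5 := by linarith
    · rw [Fintype.card_coe]
      refine le_trans ?_ hTFle
      exact_mod_cast card_le_card hG
  -- parity split
  have hsplit : TF = TF.filter (fun m => m % 2 = 0) ∪ TF.filter (fun m => m % 2 = 1) := by
    rw [← filter_or]
    symm
    apply filter_true_of_mem
    intro m _; omega
  have hb0 := key (TF.filter (fun m => m % 2 = 0)) (filter_subset _ _) (by
    intro m hm m' hm' hlt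
    have a1 := (mem_filter.mp hm).2
    have a2 := (mem_filter.mp hm').2
    omega)
  have hb1 := key (TF.filter (fun m => m % 2 = 1)) (filter_subset _ _) (by
    intro m hm m' hm' hlt
    have a1 := (mem_filter.mp hm).2
    have a2 := (mem_filter.mp hm').2
    omega)
  have hcu : (TF.card : ℝ) ≤ (TF.filter (fun m => m % 2 = 0)).card
      + (TF.filter (fun m => m % 2 = 1)).card := by
    have := card_union_le (TF.filter (fun m => m % 2 = 0)) (TF.filter (fun m => m % 2 = 1))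
    rw [← hsplit] at this
    exact_mod_cast this
  rw [hTFcard]
  have e1 : 1 / (1000 * y ^ 123 * (δ / 2)) = (1 / 500) * (1 / (y ^ 123 * δ)) := by field_simp; norm_num
  have e2 : 1 / (100 * y ^ 123 * δ) = (1 / 100) * (1 / (y ^ 123 * δ)) := by field_simp
  have e3 : 0 ≤ 1 / (y ^ 123 * δ) := by positivity
  rw [e1] at hb0 hb1
  rw [e2]
  linarith

end Run7.h608
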