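import Pool.Agent.Run7.h608.Err

set_option autoImplicit false

namespace Run7.h608

open Finset

theorem cosh_add_le (x t : ℝ) : Real.cosh (x + t) ≤ Real.exp |t| * Real.cosh x := by
  rw [Real.cosh_eq, Real.cosh_eq]
  have h1 : Real.exp (x + t) ≤ Real.exp |t| * Real.exp x := by
    rw [← Real.exp_add]; apply Real.exp_le_exp.mpr; linarith [le_abs_self t]
  have h2 : Real.exp (-(x + t)) ≤ Real.exp |t| * Real.exp (-x) := by
    rw [← Real.exp_add]; apply Real.exp_le_exp.mpr; linarith [neg_abs_le t]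
  linarith

theorem cosh_key (η e : ℝ) (hη : 0 < η) (hη1 : η ≤ 1) (he : e ≤ η / 16) :
    2 * Real.cosh (Real.sqrt η / 2) + e * Real.exp (Real.sqrt η / 2) ≤ 2 + 3 / 4 * η := by
  have hs0 : 0 ≤ Real.sqrt η := Real.sqrt_nonneg _
  have hs1 : Real.sqrt η ≤ 1 := by
    rw [show (1 : ℝ) = Real.sqrt 1 by simp]; exact Real.sqrt_le_sqrt hη1
  have hsq : Real.sqrt η ^ 2 = η := Real.sq_sqrt hη.le
  have h1 : Real.cosh (Real.sqrt η / 2) ≤ 1 + η / 8 + (η / 8) ^ 2 := by
    have a1 := Real.cosh_le_exp_half_sq (Real.sqrt η / 2)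
    have a2 : (Real.sqrt η / 2) ^ 2 / 2 = η / 8 := by rw [div_pow, hsq]; ring
    rw [a2] at a1
    have a3 := Real.abs_exp_sub_one_sub_id_le (x := η / 8) (by rw [abs_of_pos (by positivity)]; linarith)
    have a4 := (abs_le.mp a3).2
    linarith
  have h2 : Real.exp (Real.sqrt η / 2) ≤ 7 / 4 := by
    have a3 := Real.abs_exp_sub_one_sub_id_le (x := Real.sqrt η / 2)
      (by rw [abs_of_nonneg (by positivity)]; linarith)
    have a4 := (abs_le.mp a3).2
    nlinarith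
  have h3 : e * Real.exp (Real.sqrt η / 2) ≤ η / 16 * (7 / 4) := by
    calc e * Real.exp (Real.sqrt η / 2) ≤ η / 16 * Real.exp (Real.sqrt η / 2) := by
          gcongr
      _ ≤ η / 16 * (7 / 4) := by gcongr
  nlinarith

theorem window (β : ℝ) (q : ℕ) (hq : 1 ≤ q) (hs : ∀ j : ℕ, 1 ≤ j → j ≤ q → sn β j ≠ 0)
    (η : ℝ) (hη : 0 < η) (hη1 : η ≤ 1) (her : er β q ≤ η / 16)
    (s : ℝ) (c : ℤ) (W : ℕ)
    (hpot : ∀ m : ℤ, |m - c| ≤ W →
      2 + 3 / 4 * η ≤ |s - 2 * Real.cos (2 * Real.pi * (q * (m * β)))|)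
    (u : ℤ → ℂ) (M F : ℝ) (hM : 0 ≤ M) (hF : 0 ≤ F)
    (hu : ∀ m : ℤ, |m - c| ≤ (W : ℤ) + q → ‖u m‖ ≤ M)
    (hf : ∀ m : ℤ, |m - c| ≤ W → ‖PP β q u m - (s : ℂ) * u m‖ ≤ F)
    (m : ℤ) (hm : |m - c| ≤ (W : ℤ) + q) :
    ‖u m‖ ≤ M / Real.cosh (Real.sqrt η / 2 / q * W) *
      Real.cosh (Real.sqrt η / 2 / q * ((m : ℝ) - c)) + 4 * F / η := by
  set g : ℝ := Real.sqrt η / 2 / q with hg
  set A : ℝ := M / Real.cosh (g * W) with hA
  have hq0 : (0 : ℝ) < q := by exact_mod_cast hq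
  have hg0 : 0 ≤ g := by positivity
  have hgq : g * q = Real.sqrt η / 2 := by rw [hg]; field_simp
  have hA0 : 0 ≤ A := div_nonneg hM (Real.cosh_pos _).le
  set K : ℝ := 4 * F / η with hK
  have hK0 : 0 ≤ K := by positivity
  have hFK : F = η * K / 4 := by rw [hK]; field_simp
  set B : ℤ → ℝ := fun m => A * Real.cosh (g * ((m : ℝ) - c)) + K with hB
  set S : Finset ℤ := Icc (c - ((W : ℤ) + q)) (c + ((W : ℤ) + q)) with hS
  have hmemS : ∀ m : ℤ, |m - c| ≤ (W : ℤ) + q ↔ m ∈ S := by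
    intro m; rw [hS, mem_Icc, abs_le]; constructor
    · rintro ⟨h1, h2⟩; constructor <;> linarith
    · rintro ⟨h1, h2⟩; constructor <;> linarith
  have hne : S.Nonempty := ⟨m, (hmemS m).mp hm⟩
  obtain ⟨m0, hm0, hmax⟩ := exists_max_image S (fun m => ‖u m‖ - B m) hne
  suffices hD : ‖u m0‖ - B m0 ≤ 0 by
    have := hmax m ((hmemS m).mp hm)
    show ‖u m‖ ≤ B m
    linarith
  by_contra hcon
  push Not at hcon
  set D : ℝ := ‖u m0‖ - B m0 with hDdef
  have hm0' := (hmemS m0).mpr hm0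
  -- m0 lies inside
  have hin : |m0 - c| ≤ (W : ℤ) := by
    by_contra hout
    push Not at hout
    have h1 : Real.cosh (g * W) ≤ Real.cosh (g * ((m0 : ℝ) - c)) := by
      rw [Real.cosh_le_cosh, abs_mul, abs_mul]
      apply mul_le_mul_of_nonneg_left _ (abs_nonneg _)
      have : ((W : ℤ) : ℝ) ≤ ((|m0 - c| : ℤ) : ℝ) := by exact_mod_cast hout.le
      push_cast at this
      rw [abs_of_nonneg (by positivity : (0 : ℝ) ≤ W)]
      exact this
    have h2 : M ≤ A * Real.cosh (g * ((m0 : ℝ) - c)) := by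
      calc M = A * Real.cosh (g * W) := by rw [hA]; field_simp [(Real.cosh_pos (g * W)).ne']
        _ ≤ _ := mul_le_mul_of_nonneg_left h1 hA0
    have h3 := hu m0 hm0'
    have : ‖u m0‖ ≤ B m0 := by
      show ‖u m0‖ ≤ A * Real.cosh (g * ((m0 : ℝ) - c)) + K
      linarith
    linarith
  set x : ℝ := g * ((m0 : ℝ) - c) with hx
  -- bound for neighbours
  have hnb : ∀ i : ℤ, |i| ≤ q → ‖u (m0 + i)‖ ≤ A * Real.cosh (x + g * i) + K + D := by
    intro i hi
    have hmem : m0 + i ∈ S := by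
      rw [← hmemS]
      calc |m0 + i - c| = |(m0 - c) + i| := by congr 1; ring
        _ ≤ |m0 - c| + |i| := abs_add_le _ _
        _ ≤ _ := by linarith
    have h1 := hmax (m0 + i) hmem
    have h2 : B (m0 + i) = A * Real.cosh (x + g * i) + K := by
      show A * Real.cosh (g * (((m0 + i : ℤ) : ℝ) - c)) + K = _
      congr 3
      rw [hx]; push_cast; ring
    have h3 : ‖u (m0 + i)‖ - B (m0 + i) ≤ D := h1
    rw [h2] at h3
    linarith
  have herr : ‖PP β q u m0 - Kop β q u m0‖ ≤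
      er β q * (Real.exp (Real.sqrt η / 2) * (A * Real.cosh x) + K + D) := by
    apply PP_err_bound β q hq hs
    intro i hi
    refine (hnb i hi).trans ?_
    have h1 := cosh_add_le x (g * i)
    have h2 : |g * (i : ℝ)| ≤ Real.sqrt η / 2 := by
      rw [abs_mul, abs_of_nonneg hg0, ← hgq]
      apply mul_le_mul_of_nonneg_left _ hg0
      exact_mod_cast hi
    have h3 : Real.cosh (x + g * i) ≤ Real.exp (Real.sqrt η / 2) * Real.cosh x := by
      refine h1.trans ?_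
      apply mul_le_mul_of_nonneg_right _ (Real.cosh_pos _).le
      exact Real.exp_le_exp.mpr h2
    have h4 := mul_le_mul_of_nonneg_left h3 hA0
    nlinarith
  have hp := hnb q (by simp)
  have hn := hnb (-q) (by simp)
  have hcosh : Real.cosh (x + g * ((q : ℤ) : ℝ)) + Real.cosh (x + g * ((-(q : ℤ) : ℤ) : ℝ))
      = 2 * Real.cosh (Real.sqrt η / 2) * Real.cosh x := by
    push_cast
    rw [mul_neg, ← sub_eq_add_neg, hgq, Real.cosh_add, Real.cosh_sub]; ring
  have hmain : (2 + 3 / 4 * η) * ‖u m0‖ ≤ ‖u (m0 + q)‖ + ‖u (m0 + -q)‖ +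
      ‖PP β q u m0 - Kop β q u m0‖ + F := by
    have h1 := hpot m0 hin
    have h2 := hf m0 hin
    have e1 : ((s - 2 * Real.cos (2 * Real.pi * (q * (m0 * β))) : ℝ) : ℂ) * u m0
        = u (m0 + q) + u (m0 + -q) + (PP β q u m0 - Kop β q u m0)
          - (PP β q u m0 - (s : ℂ) * u m0) := by
      unfold Kop
      rw [← sub_eq_add_neg]
      push_cast; ring
    calc (2 + 3 / 4 * η) * ‖u m0‖ ≤ |s - 2 * Real.cos (2 * Real.pi * (q * (m0 * β)))| * ‖u m0‖ := by
          gcongr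
      _ = ‖((s - 2 * Real.cos (2 * Real.pi * (q * (m0 * β))) : ℝ) : ℂ) * u m0‖ := by
          rw [norm_mul, Complex.norm_real, Real.norm_eq_abs]
      _ ≤ ‖u (m0 + q)‖ + ‖u (m0 + -q)‖ + ‖PP β q u m0 - Kop β q u m0‖ +
          ‖PP β q u m0 - (s : ℂ) * u m0‖ := by
          rw [e1]
          refine (norm_sub_le _ _).trans ?_
          gcongr
          refine (norm_add_le _ _).trans ?_
          gcongr
          exact norm_add_le _ _
      _ ≤ _ := by gcongr
  have hkey := cosh_key η (er β q) hη hη1 her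
  have hu0 : ‖u m0‖ = A * Real.cosh x + K + D := by
    have : B m0 = A * Real.cosh x + K := rfl
    rw [hDdef, this]; ring
  rw [hu0] at hmain
  set Cx : ℝ := A * Real.cosh x with hCx
  have hCx0 : 0 ≤ Cx := mul_nonneg hA0 (Real.cosh_pos _).le
  have hsum : ‖u (m0 + q)‖ + ‖u (m0 + -q)‖ ≤ 2 * Real.cosh (Real.sqrt η / 2) * Cx + 2 * K + 2 * D := by
    have h5 : A * Real.cosh (x + g * ((q : ℤ) : ℝ)) + A * Real.cosh (x + g * ((-(q : ℤ) : ℤ) : ℝ))
      = 2 * Real.cosh (Real.sqrt η / 2) * Cx := by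
      rw [← mul_add, hcosh, hCx]; ring
    linarith
  have her0 := er_nonneg β q hq hs
  have hk1 := mul_le_mul_of_nonneg_right hkey hCx0
  have hk2 : er β q * (K + D) ≤ η / 16 * (K + D) := by
    apply mul_le_mul_of_nonneg_right her; linarith
  have hD0 : 0 < D := hcon
  have hηK : 0 ≤ η * K := by positivity
  have hηD : 0 < η * D := by positivity
  rw [hFK] at hmain
  nlinarith

end Run7.h608
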